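import Pool.Agent.helper25.PW.PGnec

set_option autoImplicit false
set_option linter.unusedSectionVars false
set_option linter.unusedVariables false

/-!
# Project PW: affine spaces over the field with two elements
-/

namespace Pool.Agent.helper25.PV

open Finset Pool.Agent.helper9.HB49

/-- the circuits of `M` are the complements of the planes of the affine space of dimension
`d` over the field with two elements -/
def AGT {α : Type*} (M : Matroid α) (d : ℕ) : Prop :=
  ∃ f : α → (Fin d → ZMod 2), Set.BijOn f M.E Set.univ ∧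
    ∀ C, M.IsCircuit C ↔ ∃ p q s, p ≠ q ∧ p ≠ s ∧ q ≠ s ∧
      C = {x ∈ M.E | f x ≠ p ∧ f x ≠ q ∧ f x ≠ s ∧ f x ≠ p + q + s}

variable {α : Type*} [DecidableEq α] {M : Matroid α} [M.Finite] {r : ℕ}

/-- the sum of the classes over a circuit -/
theorem EM_circuit {D : Finset α} (hD : M.IsCircuit (D : Set α)) : ∑ y ∈ D, EM M y = 0 := by
  have h6 := chi_mem_lat hD
  rw [← mkM_eq_zero] at h6
  rw [← h6]
  simp only [EM]
  rw [← map_sum]
  congr 1
  funext z
  rw [Finset.sum_apply, chi_apply]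
  simp only [Pi.single_apply, mem_coe]
  rw [sum_ite_eq]

theorem four_card {x y z w : α} (h1 : x ≠ y) (h2 : x ≠ z) (h3 : y ≠ z) (h4 : w ≠ x) (h5 : w ≠ y)
    (h6 : w ≠ z) : ({x, y, z, w} : Finset α).card = 4 := by
  rw [card_insert_of_notMem (by simp [h1, h2, h4.symm]),
    card_insert_of_notMem (by simp [h3, h5.symm]), card_pair h6.symm]

/-- completion of three elements -/
theorem Pv.compl4 (h : Pv M r) (hH : CircuitsHilbert M) (h4 : 4 ≤ r) {F : Finset α}
    (hall : ∀ x ∈ F, Gd M r (F.erase x)) {x y z : α} (hx : x ∈ F) (hy : y ∈ F) (hz : z ∈ F)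
    (hxy : x ≠ y) (hxz : x ≠ z) (hyz : y ≠ z) :
    ∃ w ∈ F, w ≠ x ∧ w ≠ y ∧ w ≠ z ∧ sm M r (F \ {x, y, z, w}) := by
  obtain ⟨w, hw, hwy, hwz, hsm⟩ := h.gd_third4 hH h4 (hall x hx) (mem_erase.2 ⟨hxy.symm, hy⟩)
    (mem_erase.2 ⟨hxz.symm, hz⟩) hyz
  rw [mem_erase] at hw
  refine ⟨w, hw.2, hw.1, hwy, hwz, ?_⟩
  rw [sdiff_insert, ← erase_sdiff_comm]
  exact hsm

/-- the classes of the elements are different -/
theorem Pv.EM_inj (h : Pv M r) (hH : CircuitsHilbert M) (h4 : 4 ≤ r) {X : Finset α}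
    (hX : Gd M r X) {x y : α} (hx : x ∈ X) (hy : y ∈ X) (hxy : EM M x = EM M y) : x = y := by
  obtain ⟨S, hS, hinj, h3⟩ := h.gd_ls4 hH h4 hX
  have hc : Fintype.card X = r + 3 := by rw [Fintype.card_coe, hX.2.1]
  obtain ⟨Φ, hΦ⟩ := hS.hom
  set a : X := ⟨x, hx⟩ with ha
  set b : X := ⟨y, hy⟩ with hb
  have hk := LS.thr_of3 h3 b
  obtain ⟨k, hk'⟩ : ∃ k, (S.thr b).card = k + 2 := ⟨(S.thr b).card - 2, by omega⟩
  have hns := hS.hp.nsmul_f (by omega) b
  have hk2 : (S.thr b).card - 1 = k + 1 := by omega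
  rw [hk2] at hns
  set τ := ∑ y, eS S y with hτ
  have hback := hS.back (fun v => (if v = a then 0 else 1) + (k : ℤ) * (if v = b then 0 else 1))
    ((LS.ConeP.pt (by omega) a).add ((LS.ConeP.pt (by omega) b).smul k))
    (by
      have h1 := sum_pt (e := fun v : X => EM M v) 1 a
      simp only [one_mul, one_smul] at h1
      have h2 := sum_pt (e := fun v : X => EM M v) (k : ℤ) b
      simp only [add_smul, sum_add_distrib]
      rw [h1, h2]
      have h5 := congrArg Φ hns
      rw [map_nsmul, map_sub, map_sum, hΦ, map_zero, succ_nsmul'] at h5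
      have h6 : ∑ y : X, Φ (eS S y) = ∑ y : X, EM M y := sum_congr rfl fun y _ => hΦ y
      rw [h6] at h5
      rw [natCast_zsmul]
      have h7 : EM M a = EM M b := hxy
      rw [h7]
      exact h5)
  have h1 := sum_pt (e := eS S) 1 a
  simp only [one_mul, one_smul] at h1
  have h2 := sum_pt (e := eS S) (k : ℤ) b
  simp only [add_smul, sum_add_distrib] at hback
  rw [h1, h2, natCast_zsmul, ← hτ] at hback
  rw [succ_nsmul'] at hns
  have h5 : eS S a = eS S b := by
    have h6 : eS S a = (τ - eS S b + k • (τ - eS S b)) - (τ - eS S a + k • (τ - eS S b)) +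
        eS S b := by abel
    rw [h6, hns, hback, sub_self, zero_add]
  exact congrArg Subtype.val (hinj h5)

theorem Pv.agt (h : Pv M r) (hH : CircuitsHilbert M) (hr : r = 4 ∨ r = 12) {d : ℕ}
    (hd : r + 4 = 2 ^ d) (hE : M.E.ncard = r + 4) {X0 : Finset α} (hX0 : Gd M r X0) :
    AGT M d := by
  classical
  have h4 : 4 ≤ r := by omega
  set F := M.ground_finite.toFinset with hF
  have hFm : ∀ x, x ∈ F ↔ x ∈ M.E := fun x => by rw [hF]; simp
  have hFE : (F : Set α) = M.E := by rw [hF]; simp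
  have hFc : F.card = r + 4 := by
    rw [← hE]
    exact (Set.ncard_eq_toFinset_card _ _).symm
  have hall : ∀ x ∈ F, Gd M r (F.erase x) := by
    intro x hx
    apply h.gd_all4 hH h4 _ hX0 _ _ rfl
    · intro y hy
      exact (hFm y).1 (mem_of_mem_erase (mem_coe.1 hy))
    · rw [card_erase_of_mem hx, hFc]
      rfl
  -- a third element
  have hthird : ∀ x y : α, ∃ z ∈ F, z ≠ x ∧ z ≠ y := by
    intro x y
    obtain ⟨z, hz⟩ : (F \ {x, y}).Nonempty := by
      rw [← card_pos]
      have h1 := le_card_sdiff ({x, y} : Finset α) F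
      have h2 : ({x, y} : Finset α).card ≤ 2 := card_le_two
      omega
    rw [mem_sdiff, mem_insert, mem_singleton, not_or] at hz
    exact ⟨z, hz.1, hz.2.1, hz.2.2⟩
  set T : QM M := ∑ y ∈ F, EM M y with hT
  -- doubling
  have hrel : ∀ z ∈ F, ∃ u : QM M, (∀ x ∈ F, x ≠ z → EM M x + EM M x = u) ∧
      u + u + u = (T - EM M z) + (T - EM M z) := by
    intro z hz
    obtain ⟨S, hS, hinj, h3⟩ := h.gd_ls4 hH h4 (hall z hz)
    have hc : Fintype.card (F.erase z : Finset α) = r + 3 := by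
      rw [Fintype.card_coe, card_erase_of_mem hz, hFc]
      rfl
    obtain ⟨Φ, hΦ⟩ := hS.hom
    obtain ⟨u, h2, hu⟩ := hS.hp.dich' (by omega) hinj h3
    refine ⟨Φ u, fun x hx hxz => ?_, ?_⟩
    · rw [← h2 ⟨x, mem_erase.2 ⟨hxz, hx⟩⟩, map_add, hΦ]
    · have h5 := congrArg Φ hu
      rw [map_add, map_add, map_add, map_sum] at h5
      have h6 : ∑ y : (F.erase z : Finset α), Φ (eS S y) = T - EM M z := by
        rw [hT, ← sum_erase_add F (EM M) hz, add_sub_cancel_right,
          ← Finset.sum_coe_sort (F.erase z) (EM M)]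
        exact sum_congr rfl fun y _ => hΦ y
      rw [h5, h6]
  have htwo : ∀ x ∈ F, ∀ y ∈ F, EM M x + EM M x = EM M y + EM M y := by
    intro x hx y hy
    obtain ⟨z, hz, hzx, hzy⟩ := hthird x y
    obtain ⟨u, hu, -⟩ := hrel z hz
    rw [hu x hx hzx.symm, hu y hy hzy.symm]
  obtain ⟨o, ho⟩ : F.Nonempty := card_pos.1 (by omega)
  set U : QM M := EM M o + EM M o with hU
  have hUx : ∀ x ∈ F, EM M x + EM M x = U := fun x hx => htwo x hx o ho
  have h4U : U + U + (U + U) = T + T := by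
    obtain ⟨u, hu, hu3⟩ := hrel o ho
    obtain ⟨x, hx, hxo, -⟩ := hthird o o
    have h1 : u = U := by rw [← hu x hx hxo, hUx x hx]
    rw [h1] at hu3
    have h2 : U + U + (U + U) = (U + U + U) + (EM M o + EM M o) := by rw [hU]; abel
    rw [h2, hu3]; abel
  -- injectivity
  have hinj : ∀ x ∈ F, ∀ y ∈ F, EM M x = EM M y → x = y := by
    intro x hx y hy hxy
    obtain ⟨z, hz, hzx, hzy⟩ := hthird x y
    exact h.EM_inj hH h4 (hall z hz) (mem_erase.2 ⟨hzx.symm, hx⟩) (mem_erase.2 ⟨hzy.symm, hy⟩) hxy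
  -- blocks
  have hblock : ∀ x ∈ F, ∀ y ∈ F, ∀ z ∈ F, ∀ w ∈ F, x ≠ y → x ≠ z → y ≠ z → w ≠ x → w ≠ y →
      w ≠ z → sm M r (F \ {x, y, z, w}) → EM M x + EM M y + EM M z + EM M w = T := by
    intro x hx y hy z hz w hw hxy hxz hyz hwx hwy hwz hsm
    have hsub : ({x, y, z, w} : Finset α) ⊆ F := by
      intro v hv
      simp only [mem_insert, mem_singleton] at hv
      rcases hv with rfl | rfl | rfl | rfl
      · exact hx
      · exact hy
      · exact hz
      · exact hw
    have hc : M.IsCircuit ((F \ {x, y, z, w} : Finset α) : Set α) := by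
      rw [h.circuit_iff (by omega)]
      refine ⟨by rw [← hFE]; exact Finset.coe_subset.2 sdiff_subset, Or.inl ⟨?_, hsm⟩⟩
      rw [card_sdiff_of_subset hsub, hFc, four_card hxy hxz hyz hwx hwy hwz]
      rfl
    have h1 := EM_circuit hc
    have h2 := sum_sdiff (f := EM M) hsub
    rw [h1, zero_add, sum_insert (by simp [hxy, hxz, hwx.symm]),
      sum_insert (by simp [hyz, hwy.symm]), sum_pair hwz.symm] at h2
    rw [hT, ← h2]; abel
  set H : F → QM M := fun x => EM M x - EM M o with hHdef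
  set t : QM M := T - U - U with ht
  have htt : t + t = 0 := by
    have h1 : t + t = T + T - (U + U + (U + U)) := by rw [ht]; abel
    rw [h1, h4U, sub_self]
  have hHH : ∀ x, H x + H x = 0 := by
    intro x
    have h1 : H x + H x = (EM M x + EM M x) - (EM M o + EM M o) := by
      rw [hHdef]; dsimp only; abel
    rw [h1, hUx x x.2, hU, sub_self]
  have hHinj : Function.Injective H := by
    intro x y hxy
    exact Subtype.ext (hinj x x.2 y y.2 (sub_left_injective hxy))
  have hHo : H ⟨o, ho⟩ = 0 := sub_self _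
  have hcomp : ∀ x y z : F, x ≠ y → x ≠ z → y ≠ z → ∃ w : F, w ≠ x ∧ w ≠ y ∧ w ≠ z ∧
      H w = t + H x + H y + H z := by
    intro x y z hxy hxz hyz
    have e1 : (x : α) ≠ y := fun h1 => hxy (Subtype.ext h1)
    have e2 : (x : α) ≠ z := fun h1 => hxz (Subtype.ext h1)
    have e3 : (y : α) ≠ z := fun h1 => hyz (Subtype.ext h1)
    obtain ⟨w, hw, hwx, hwy, hwz, hsm⟩ := h.compl4 hH h4 hall x.2 y.2 z.2 e1 e2 e3
    have h1 := hblock x x.2 y y.2 z z.2 w hw e1 e2 e3 hwx hwy hwz hsm
    refine ⟨⟨w, hw⟩, fun h2 => hwx (congrArg Subtype.val h2),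
      fun h2 => hwy (congrArg Subtype.val h2), fun h2 => hwz (congrArg Subtype.val h2), ?_⟩
    have h2 : H ⟨w, hw⟩ = (EM M x + EM M y + EM M z + EM M w) - U - U + H x + H y + H z -
        (H x + H x) - (H y + H y) - (H z + H z) := by
      rw [hHdef]; dsimp only; rw [hU]; abel
    rw [h2, hHH, hHH, hHH, h1, ← ht]; abel
  -- `t = 0`
  have ht0 : t = 0 := by
    set a : F := ⟨o, ho⟩ with ha
    have hex : ∀ s : Finset F, s.card ≤ 4 → ∃ v, v ∉ s := by
      intro s hs
      by_contra hcon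
      push Not at hcon
      have h1 : (univ : Finset F) ⊆ s := fun v _ => hcon v
      have h2 := card_le_card h1
      rw [card_univ, Fintype.card_coe, hFc] at h2
      omega
    obtain ⟨x, hx⟩ := hex {a} (by simp)
    rw [mem_singleton] at hx
    obtain ⟨y, hy⟩ := hex {a, x} (card_le_two.trans (by norm_num))
    rw [mem_insert, mem_singleton, not_or] at hy
    obtain ⟨p, hpa, hpx, hpy, hp⟩ := hcomp a x y (Ne.symm hx) (Ne.symm hy.1) (Ne.symm hy.2)
    obtain ⟨z, hz⟩ := hex {a, x, y, p} (card_le_four)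
    simp only [mem_insert, mem_singleton, not_or] at hz
    obtain ⟨hza, hzx, hzy, hzp⟩ := hz
    obtain ⟨w, hwx, hwy, hwz, hw⟩ := hcomp x y z (Ne.symm hy.2) (Ne.symm hzx) (Ne.symm hzy)
    obtain ⟨q, hqa, hqp, hqz, hq⟩ := hcomp a p z hpa.symm (Ne.symm hza) (Ne.symm hzp)
    have hwq : H w = t + H q := by
      rw [hq, hp, hw, hHo]
      have h1 : t + (t + 0 + (t + 0 + H x + H y) + H z) = t + H x + H y + H z + (t + t) := by abel
      rw [h1, htt, add_zero]
    by_cases hwqe : w = q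
    · rw [hwqe] at hwq
      exact (add_eq_right.1 hwq.symm)
    · exfalso
      have hwa : w ≠ a := by
        intro h1
        apply hzp
        apply hHinj
        have h2 : H w = 0 := by rw [h1]; exact hHo
        have h3 : H z = t + H x + H y + H z - (t + H x + H y) := by abel
        rw [h3, ← hw, h2, hp, hHo]
        have h4 : (0 : QM M) - (t + H x + H y) = t + 0 + H x + H y - (t + t) - (H x + H x) -
            (H y + H y) := by abel
        rw [h4, htt, hHH, hHH]; abel
      obtain ⟨v, hva, hvw, hvq, hv⟩ := hcomp a w q hwa.symm hqa.symm hwqe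
      apply hva
      apply hHinj
      rw [hv, hwq, hHo]
      have h1 : t + 0 + (t + H q) + H q = (t + t) + (H q + H q) := by abel
      rw [h1, htt, hHH, add_zero]
  have hadd : ∀ x y, ∃ z, H x + H y = H z := by
    intro x y
    by_cases hxy : x = y
    · exact ⟨⟨o, ho⟩, by rw [hxy, hHH, hHo]⟩
    by_cases hxo : x = ⟨o, ho⟩
    · exact ⟨y, by rw [hxo, hHo, zero_add]⟩
    by_cases hyo : y = ⟨o, ho⟩
    · exact ⟨x, by rw [hyo, hHo, add_zero]⟩
    obtain ⟨w, -, -, -, hw⟩ := hcomp _ x y (Ne.symm hxo) (Ne.symm hyo) hxy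
    exact ⟨w, by rw [hw, ht0, hHo, zero_add, zero_add]⟩
  obtain ⟨G, hG, hGr⟩ := acoord H hHH hHinj (o := ⟨o, ho⟩) hHo hadd (d := d)
    (by rw [Fintype.card_coe, hFc, hd])
  -- the fourth point
  have hfour : ∀ x y z w : F, x ≠ y → x ≠ z → y ≠ z → w ≠ x → w ≠ y → w ≠ z →
      (sm M r (F \ {(x : α), (y : α), (z : α), (w : α)}) ↔ G w = G x + G y + G z) := by
    intro x y z w hxy hxz hyz hwx hwy hwz
    have e1 : (x : α) ≠ y := fun h1 => hxy (Subtype.ext h1)
    have e2 : (x : α) ≠ z := fun h1 => hxz (Subtype.ext h1)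
    have e3 : (y : α) ≠ z := fun h1 => hyz (Subtype.ext h1)
    have e4 : (w : α) ≠ x := fun h1 => hwx (Subtype.ext h1)
    have e5 : (w : α) ≠ y := fun h1 => hwy (Subtype.ext h1)
    have e6 : (w : α) ≠ z := fun h1 => hwz (Subtype.ext h1)
    have hb : ∀ w' : F, EM M x + EM M y + EM M z + EM M w' = T → H x + H y + H z = H w' := by
      intro w' h1
      have h2 : H w' = (EM M x + EM M y + EM M z + EM M w') - U - U + H x + H y + H z -
          (H x + H x) - (H y + H y) - (H z + H z) := by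
        rw [hHdef]; dsimp only; rw [hU]; abel
      rw [h2, hHH, hHH, hHH, h1, ← ht, ht0]; abel
    constructor
    · intro hsm
      have h1 := hblock x x.2 y y.2 z z.2 w w.2 e1 e2 e3 e4 e5 e6 hsm
      exact ((hGr _ _ _ _).1 (hb w h1)).symm
    · intro hGw
      obtain ⟨w', hw', hw'x, hw'y, hw'z, hsm⟩ := h.compl4 hH h4 hall x.2 y.2 z.2 e1 e2 e3
      have h1 := hblock x x.2 y y.2 z z.2 w' hw' e1 e2 e3 hw'x hw'y hw'z hsm
      have h2 := (hGr _ _ _ _).1 (hb ⟨w', hw'⟩ h1)
      have h3 : w = ⟨w', hw'⟩ := hG.1 (hGw.trans h2)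
      rw [h3]
      exact hsm
  set f : α → (Fin d → ZMod 2) := fun x => if hx : x ∈ F then G ⟨x, hx⟩ else 0 with hf
  have hfx : ∀ x (hx : x ∈ F), f x = G ⟨x, hx⟩ := by
    intro x hx
    rw [hf]
    dsimp only
    rw [dif_pos hx]
  have hset : ∀ x y z w : F, G w = G x + G y + G z →
      {v ∈ M.E | f v ≠ G x ∧ f v ≠ G y ∧ f v ≠ G z ∧ f v ≠ G x + G y + G z} =
      ((F \ {(x : α), (y : α), (z : α), (w : α)} : Finset α) : Set α) := by
    intro x y z w hw
    ext v
    rw [mem_coe, mem_sdiff, ← hw]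
    constructor
    · rintro ⟨h1, h2, h3, h5, h6⟩
      have hv : v ∈ F := (hFm v).2 h1
      refine ⟨hv, ?_⟩
      rw [hfx v hv] at h2 h3 h5 h6
      simp only [mem_insert, mem_singleton]
      rintro (h7 | h7 | h7 | h7)
      · exact h2 (congrArg G (Subtype.ext h7))
      · exact h3 (congrArg G (Subtype.ext h7))
      · exact h5 (congrArg G (Subtype.ext h7))
      · exact h6 (congrArg G (Subtype.ext h7))
    · rintro ⟨hv, h1⟩
      simp only [mem_insert, mem_singleton, not_or] at h1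
      refine ⟨(hFm v).1 hv, ?_⟩
      rw [hfx v hv]
      exact ⟨fun h2 => h1.1 (congrArg Subtype.val (hG.1 h2)),
        fun h2 => h1.2.1 (congrArg Subtype.val (hG.1 h2)),
        fun h2 => h1.2.2.1 (congrArg Subtype.val (hG.1 h2)),
        fun h2 => h1.2.2.2 (congrArg Subtype.val (hG.1 h2))⟩
  refine ⟨f, ⟨fun _ _ => Set.mem_univ _, ?_, ?_⟩, fun C => ?_⟩
  · intro x hx y hy hxy
    have hx' := (hFm x).2 hx
    have hy' := (hFm y).2 hy
    rw [hfx x hx', hfx y hy'] at hxy
    exact congrArg Subtype.val (hG.1 hxy)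
  · intro v _
    obtain ⟨x, hx⟩ := hG.2 v
    exact ⟨x, (hFm x).1 x.2, by rw [hfx _ x.2]; exact hx⟩
  · constructor
    · intro hC
      obtain ⟨D, rfl⟩ : ∃ D : Finset α, C = D :=
        ⟨(M.ground_finite.subset hC.subset_ground).toFinset, by simp⟩
      have hDF : D ⊆ F := fun x hx => (hFm x).2 (hC.subset_ground hx)
      rw [h.circuit_iff (by omega)] at hC
      rcases hC.2 with ⟨h5, h6⟩ | ⟨h5, h6⟩
      · have h1 : (F \ D).card = 4 := by
          rw [card_sdiff_of_subset hDF, hFc, h5]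
          omega
        obtain ⟨w, hwm⟩ : (F \ D).Nonempty := card_pos.1 (by omega)
        have h2 : ((F \ D).erase w).card = 3 := by rw [card_erase_of_mem hwm, h1]
        obtain ⟨x, y, z, hxy, hxz, hyz, hxyz⟩ := card_eq_three.1 h2
        have mx : x ∈ (F \ D).erase w := by rw [hxyz]; simp
        have my : y ∈ (F \ D).erase w := by rw [hxyz]; simp
        have mz : z ∈ (F \ D).erase w := by rw [hxyz]; simp
        rw [mem_erase] at mx my mz
        have hFD : F \ D = {x, y, z, w} := by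
          rw [← insert_erase hwm, hxyz]
          ext v
          simp only [mem_insert, mem_singleton]
          clear * -
          tauto
        have hDe : D = F \ {x, y, z, w} := by
          rw [← hFD, Finset.sdiff_sdiff_eq_self hDF]
        have hxF := (mem_sdiff.1 mx.2).1
        have hyF := (mem_sdiff.1 my.2).1
        have hzF := (mem_sdiff.1 mz.2).1
        have hwF := (mem_sdiff.1 hwm).1
        have k1 : (⟨x, hxF⟩ : F) ≠ ⟨y, hyF⟩ := by simp [hxy]
        have k2 : (⟨x, hxF⟩ : F) ≠ ⟨z, hzF⟩ := by simp [hxz]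
        have k3 : (⟨y, hyF⟩ : F) ≠ ⟨z, hzF⟩ := by simp [hyz]
        have k4 : (⟨w, hwF⟩ : F) ≠ ⟨x, hxF⟩ := by simp [Ne.symm mx.1]
        have k5 : (⟨w, hwF⟩ : F) ≠ ⟨y, hyF⟩ := by simp [Ne.symm my.1]
        have k6 : (⟨w, hwF⟩ : F) ≠ ⟨z, hzF⟩ := by simp [Ne.symm mz.1]
        have hG4 := (hfour _ _ _ _ k1 k2 k3 k4 k5 k6).1 (by rw [← hDe]; exact h6)
        refine ⟨G ⟨x, hxF⟩, G ⟨y, hyF⟩, G ⟨z, hzF⟩, fun h7 => k1 (hG.1 h7), fun h7 => k2 (hG.1 h7),
          fun h7 => k3 (hG.1 h7), ?_⟩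
        rw [hset _ _ _ _ hG4, ← hDe]
      · exfalso
        have h1 : (F \ D).card = 3 := by
          rw [card_sdiff_of_subset hDF, hFc, h5]
          omega
        obtain ⟨x, y, z, hxy, hxz, hyz, hxyz⟩ := card_eq_three.1 h1
        have mx : x ∈ F \ D := by rw [hxyz]; simp
        have my : y ∈ F \ D := by rw [hxyz]; simp
        have mz : z ∈ F \ D := by rw [hxyz]; simp
        obtain ⟨w, hw, hwx, hwy, hwz, hsm⟩ := h.compl4 hH h4 hall (mem_sdiff.1 mx).1
          (mem_sdiff.1 my).1 (mem_sdiff.1 mz).1 hxy hxz hyz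
        have hwD : w ∈ D := by
          by_contra h7
          have h8 : w ∈ F \ D := mem_sdiff.2 ⟨hw, h7⟩
          rw [hxyz] at h8
          simp only [mem_insert, mem_singleton] at h8
          rcases h8 with h8 | h8 | h8
          · exact hwx h8
          · exact hwy h8
          · exact hwz h8
        apply h6 w hwD
        refine sm_mono ?_ hsm
        intro v hv
        rw [mem_erase] at hv
        rw [mem_sdiff]
        refine ⟨hDF hv.2, ?_⟩
        simp only [mem_insert, mem_singleton, not_or]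
        exact ⟨fun h7 => (mem_sdiff.1 mx).2 (h7 ▸ hv.2), fun h7 => (mem_sdiff.1 my).2 (h7 ▸ hv.2),
          fun h7 => (mem_sdiff.1 mz).2 (h7 ▸ hv.2), hv.1⟩
    · rintro ⟨p, q, s, hpq, hps, hqs, rfl⟩
      obtain ⟨x, rfl⟩ := hG.2 p
      obtain ⟨y, rfl⟩ := hG.2 q
      obtain ⟨z, rfl⟩ := hG.2 s
      obtain ⟨w, hw⟩ := hG.2 (G x + G y + G z)
      have hxy : x ≠ y := fun h7 => hpq (by rw [h7])
      have hxz : x ≠ z := fun h7 => hps (by rw [h7])
      have hyz : y ≠ z := fun h7 => hqs (by rw [h7])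
      have e1 : (x : α) ≠ y := fun h1 => hxy (Subtype.ext h1)
      have e2 : (x : α) ≠ z := fun h1 => hxz (Subtype.ext h1)
      have e3 : (y : α) ≠ z := fun h1 => hyz (Subtype.ext h1)
      obtain ⟨w', hw', hw'x, hw'y, hw'z, hsm⟩ := h.compl4 hH h4 hall x.2 y.2 z.2 e1 e2 e3
      have h2 := (hfour x y z ⟨w', hw'⟩ hxy hxz hyz (fun h7 => hw'x (congrArg Subtype.val h7))
        (fun h7 => hw'y (congrArg Subtype.val h7)) (fun h7 => hw'z (congrArg Subtype.val h7))).1 hsm
      have h3 : w = ⟨w', hw'⟩ := hG.1 (hw.trans h2.symm)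
      rw [hset x y z w hw, h3, h.circuit_iff (by omega)]
      refine ⟨by rw [← hFE]; exact Finset.coe_subset.2 sdiff_subset, Or.inl ⟨?_, hsm⟩⟩
      have hsub : ({(x : α), (y : α), (z : α), w'} : Finset α) ⊆ F := by
        intro v hv
        simp only [mem_insert, mem_singleton] at hv
        rcases hv with rfl | rfl | rfl | rfl
        · exact x.2
        · exact y.2
        · exact z.2
        · exact hw'
      rw [card_sdiff_of_subset hsub, hFc, four_card e1 e2 e3 hw'x hw'y hw'z]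
      rfl

end Pool.Agent.helper25.PV
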