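import Pool.Agent.helper25.PW.No4

set_option autoImplicit false
set_option linter.unusedSectionVars false
set_option linter.unusedVariables false

/-!
# Project PW: all sets of `r + 3` elements are in general position
-/

namespace Pool.Agent.helper25.PV

open Finset Pool.Agent.helper9.HB49

variable {α : Type*} [DecidableEq α] {M : Matroid α} [M.Finite] {r : ℕ}

theorem Pv.gd_third4 (h : Pv M r) (hH : CircuitsHilbert M) (h5 : 4 ≤ r) {X : Finset α}
    (hX : Gd M r X) {u v : α} (hu : u ∈ X) (hv : v ∈ X) (huv : u ≠ v) :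
    ∃ w ∈ X, w ≠ u ∧ w ≠ v ∧ sm M r (X \ {u, v, w}) := by
  obtain ⟨S, hS, -, h3⟩ := h.gd_ls4 hH h5 hX
  have hne : (⟨u, hu⟩ : X) ≠ ⟨v, hv⟩ := by simp [huv]
  have hc := h3 _ _ hne
  obtain ⟨w1, w2, w3⟩ := LS.th_spec hne hc
  set w := S.th ⟨u, hu⟩ ⟨v, hv⟩ with hw
  refine ⟨w, w.2, fun h4 => w1 (Subtype.ext h4), fun h4 => w2 (Subtype.ext h4), ?_⟩
  have h4 := (hS.tri {⟨u, hu⟩, ⟨v, hv⟩, w} (by rw [← w3]; exact hc)).2
    (by rw [← w3]; exact LS.ln_mem hne)
  rw [image_insert, image_insert, image_singleton] at h4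
  exact h4

theorem Pv.gd_flat4 (h : Pv M r) (hH : CircuitsHilbert M) (h5 : 4 ≤ r) {X : Finset α}
    (hX : Gd M r X) {D : Finset α} (hD : D ⊆ X) (hDc : D.card = r) (hDs : sm M r D) {z : α}
    (hz : z ∈ M.E) (hzD : z ∉ D) : ¬ sm M r (insert z D) := by
  intro hsm
  have hgood := h.gd_good4 hH h5 hX
  have hXE := hX.1
  have hXc := hX.2.1
  have hDE : (D : Set α) ⊆ M.E := (Finset.coe_subset.2 hD).trans hXE
  have h3 : (X \ D).card = 3 := by
    rw [card_sdiff_of_subset hD]
    omega
  obtain ⟨a, b, c, hab, hac, hbc, habc⟩ := card_eq_three.1 h3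
  have ma : a ∈ X \ D := by rw [habc]; simp
  have mb : b ∈ X \ D := by rw [habc]; simp
  have mc : c ∈ X \ D := by rw [habc]; simp
  obtain ⟨haX, haD⟩ := mem_sdiff.1 ma
  obtain ⟨hbX, hbD⟩ := mem_sdiff.1 mb
  obtain ⟨hcX, hcD⟩ := mem_sdiff.1 mc
  have hXD : ∀ x ∈ X, x ≠ a → x ≠ b → x ≠ c → x ∈ D := by
    intro x hx h1 h2 h4
    by_contra h6
    have h7 : x ∈ X \ D := mem_sdiff.2 ⟨hx, h6⟩
    rw [habc] at h7
    simp only [mem_insert, mem_singleton] at h7
    rcases h7 with h7 | h7 | h7
    · exact h1 h7
    · exact h2 h7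
    · exact h4 h7
  by_cases hzX : z ∈ X
  · -- a small set of `r + 1` elements in `X`
    have h4 : ∃ u ∈ X, ∃ v ∈ X, u ≠ v ∧ X \ {u, v} ⊆ insert z D := by
      have h6 : z = a ∨ z = b ∨ z = c := by
        by_contra h6
        push Not at h6
        exact hzD (hXD z hzX h6.1 h6.2.1 h6.2.2)
      rcases h6 with rfl | rfl | rfl
      · refine ⟨b, hbX, c, hcX, hbc, fun x hx => ?_⟩
        rw [mem_sdiff, mem_insert, mem_singleton, not_or] at hx
        rw [mem_insert]
        by_cases h7 : x = z
        · exact Or.inl h7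
        · exact Or.inr (hXD x hx.1 h7 hx.2.1 hx.2.2)
      · refine ⟨a, haX, c, hcX, hac, fun x hx => ?_⟩
        rw [mem_sdiff, mem_insert, mem_singleton, not_or] at hx
        rw [mem_insert]
        by_cases h7 : x = z
        · exact Or.inl h7
        · exact Or.inr (hXD x hx.1 hx.2.1 h7 hx.2.2)
      · refine ⟨a, haX, b, hbX, hab, fun x hx => ?_⟩
        rw [mem_sdiff, mem_insert, mem_singleton, not_or] at hx
        rw [mem_insert]
        by_cases h7 : x = z
        · exact Or.inl h7
        · exact Or.inr (hXD x hx.1 hx.2.1 hx.2.2 h7)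
    obtain ⟨u, hu, v, hv, huv, hsub⟩ := h4
    exact hgood u hu v hv huv (sm_mono hsub hsm)
  · obtain ⟨v, hvD⟩ : D.Nonempty := card_pos.1 (by omega)
    have hvX := hD hvD
    have hav : a ≠ v := fun h4 => haD (h4 ▸ hvD)
    obtain ⟨w, hwX, hwa, hwv, hsmw⟩ := h.gd_third4 hH h5 hX haX hvX hav
    have hbv : b ≠ v := fun h4 => hbD (h4 ▸ hvD)
    have hcv : c ≠ v := fun h4 => hcD (h4 ▸ hvD)
    have htc : ({a, v, w} : Finset α) ⊆ X := by
      intro x hx
      simp only [mem_insert, mem_singleton] at hx
      rcases hx with rfl | rfl | rfl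
      · exact haX
      · exact hvX
      · exact hwX
    have hD'c : (X \ {a, v, w}).card = r := by
      rw [card_sdiff_of_subset htc, three_card hav hwa.symm hwv.symm]
      omega
    -- `w` is in `D`
    have hwbc : w ≠ b ∧ w ≠ c := by
      by_contra hcon
      have hwD : w ∉ D := by
        intro h4
        apply hcon
        exact ⟨fun h6 => hbD (h6 ▸ h4), fun h6 => hcD (h6 ▸ h4)⟩
      have h4 : D.erase v ⊆ D ∩ (X \ {a, v, w}) := by
        intro x hx
        rw [mem_erase] at hx
        rw [mem_inter, mem_sdiff, mem_insert, mem_insert, mem_singleton]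
        refine ⟨hx.2, hD hx.2, ?_⟩
        rintro (h6 | h6 | h6)
        · exact haD (h6 ▸ hx.2)
        · exact hx.1 h6
        · exact hwD (h6 ▸ hx.2)
      have h6 := card_le_card h4
      rw [card_erase_of_mem hvD] at h6
      have h7 := h.sm_union hDE hDs hsmw (by omega)
      refine hgood a haX w hwX hwa.symm (sm_mono ?_ h7)
      intro x hx
      rw [mem_sdiff, mem_insert, mem_singleton, not_or] at hx
      rw [mem_union, mem_sdiff, mem_insert, mem_insert, mem_singleton]
      by_cases h8 : x = v
      · left; rw [h8]; exact hvD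
      · right
        exact ⟨hx.1, fun h9 => h9.elim hx.2.1 fun h9 => h9.elim h8 hx.2.2⟩
    have hwD : w ∈ D := hXD w hwX hwa hwbc.1 hwbc.2
    by_cases hzs : sm M r (insert z (X \ {a, v, w}))
    · have h4 : insert z ((D.erase v).erase w) ⊆ (insert z D) ∩ (insert z (X \ {a, v, w})) := by
        intro x hx
        rw [mem_insert, mem_erase, mem_erase] at hx
        rw [mem_inter, mem_insert, mem_insert, mem_sdiff, mem_insert, mem_insert, mem_singleton]
        rcases hx with hx | hx
        · exact ⟨Or.inl hx, Or.inl hx⟩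
        · refine ⟨Or.inr hx.2.2, Or.inr ⟨hD hx.2.2, ?_⟩⟩
          rintro (h6 | h6 | h6)
          · exact haD (h6 ▸ hx.2.2)
          · exact hx.2.1 h6
          · exact hx.1 h6
      have h6 := card_le_card h4
      rw [card_insert_of_notMem (fun h7 => hzD (mem_of_mem_erase (mem_of_mem_erase h7))),
        card_erase_of_mem (mem_erase.2 ⟨hwv, hwD⟩), card_erase_of_mem hvD] at h6
      have h7 := h.sm_union (Y := insert z D) (by
        intro x hx
        rw [mem_coe, mem_insert] at hx
        rcases hx with rfl | hx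
        · exact hz
        · exact hDE hx) hsm hzs (by omega)
      refine hgood a haX b hbX hab (sm_mono ?_ h7)
      intro x hx
      rw [mem_sdiff, mem_insert, mem_singleton, not_or] at hx
      rw [mem_union, mem_insert, mem_insert, mem_sdiff, mem_insert, mem_insert, mem_singleton]
      by_cases h8 : x ∈ D
      · left; right; exact h8
      · right; right
        refine ⟨hx.1, ?_⟩
        rintro (h9 | h9 | h9)
        · exact hx.2.1 h9
        · exact h8 (h9 ▸ hvD)
        · exact h8 (h9 ▸ hwD)
    · -- exchange `a` for `z`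
      have hX' : Gd M r (insert z (X.erase a)) := by
        refine ⟨?_, ?_, X \ {a, v, w}, ?_, hD'c, hsmw, ?_⟩
        · intro x hx
          rw [mem_coe, mem_insert, mem_erase] at hx
          rcases hx with rfl | hx
          · exact hz
          · exact hXE hx.2
        · rw [card_insert_of_notMem (fun h4 => hzX (mem_of_mem_erase h4)),
            card_erase_of_mem haX]
          omega
        · intro x hx
          rw [mem_sdiff, mem_insert, not_or] at hx
          exact mem_insert_of_mem (mem_erase.2 ⟨hx.2.1, hx.1⟩)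
        · intro y hy hyD' hsy
          rw [mem_insert, mem_erase] at hy
          rcases hy with rfl | hy
          · exact hzs hsy
          · have h4 : y = v ∨ y = w := by
              by_contra h4
              push Not at h4
              apply hyD'
              rw [mem_sdiff, mem_insert, mem_insert, mem_singleton]
              exact ⟨hy.2, fun h6 => h6.elim hy.1 fun h6 => h6.elim h4.1 h4.2⟩
            rcases h4 with rfl | rfl
            · refine hgood a haX w hwX hwa.symm (sm_mono ?_ hsy)
              intro x hx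
              rw [mem_sdiff, mem_insert, mem_singleton, not_or] at hx
              rw [mem_insert, mem_sdiff, mem_insert, mem_insert, mem_singleton]
              by_cases h8 : x = y
              · exact Or.inl h8
              · exact Or.inr ⟨hx.1, fun h6 => h6.elim hx.2.1 fun h6 => h6.elim h8 hx.2.2⟩
            · refine hgood a haX v hvX hav (sm_mono ?_ hsy)
              intro x hx
              rw [mem_sdiff, mem_insert, mem_singleton, not_or] at hx
              rw [mem_insert, mem_sdiff, mem_insert, mem_insert, mem_singleton]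
              by_cases h8 : x = y
              · exact Or.inl h8
              · exact Or.inr ⟨hx.1, fun h6 => h6.elim hx.2.1 fun h6 => h6.elim hx.2.2 h8⟩
      refine h.gd_good4 hH h5 hX' b ?_ c ?_ hbc (sm_mono ?_ hsm)
      · exact mem_insert_of_mem (mem_erase.2 ⟨hab.symm, hbX⟩)
      · exact mem_insert_of_mem (mem_erase.2 ⟨hac.symm, hcX⟩)
      · intro x hx
        rw [mem_sdiff, mem_insert, mem_erase, mem_insert, mem_singleton, not_or] at hx
        rw [mem_insert]
        rcases hx.1 with h6 | h6
        · exact Or.inl h6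
        · exact Or.inr (hXD x h6.2 h6.1 hx.2.1 hx.2.2)

theorem Pv.gd_exch4 (h : Pv M r) (hH : CircuitsHilbert M) (h5 : 4 ≤ r) {X : Finset α}
    (hX : Gd M r X) {x z : α} (hx : x ∈ X) (hz : z ∈ M.E) (hzX : z ∉ X) :
    Gd M r (insert z (X.erase x)) := by
  obtain ⟨v, hv, hvx⟩ : ∃ v ∈ X, v ≠ x := by
    apply exists_mem_ne
    have := hX.2.1
    omega
  obtain ⟨w, hwX, hwx, hwv, hsm⟩ := h.gd_third4 hH h5 hX hx hv hvx.symm
  have htc : ({x, v, w} : Finset α) ⊆ X := by
    intro y hy
    simp only [mem_insert, mem_singleton] at hy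
    rcases hy with rfl | rfl | rfl
    · exact hx
    · exact hv
    · exact hwX
  have hDc : (X \ {x, v, w}).card = r := by
    rw [card_sdiff_of_subset htc, three_card hvx.symm hwx.symm hwv.symm, hX.2.1]
    omega
  refine ⟨?_, ?_, X \ {x, v, w}, ?_, hDc, hsm, ?_⟩
  · intro y hy
    rw [mem_coe, mem_insert, mem_erase] at hy
    rcases hy with rfl | hy
    · exact hz
    · exact hX.1 hy.2
  · rw [card_insert_of_notMem (fun h4 => hzX (mem_of_mem_erase h4)), card_erase_of_mem hx, hX.2.1]
    omega
  · intro y hy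
    rw [mem_sdiff, mem_insert, not_or] at hy
    exact mem_insert_of_mem (mem_erase.2 ⟨hy.2.1, hy.1⟩)
  · intro y hy hyD
    apply h.gd_flat4 hH h5 hX sdiff_subset hDc hsm _ hyD
    rw [mem_insert, mem_erase] at hy
    rcases hy with rfl | hy
    · exact hz
    · exact hX.1 hy.2

theorem Pv.gd_all4 (h : Pv M r) (hH : CircuitsHilbert M) (h5 : 4 ≤ r) : ∀ (k : ℕ)
    {X : Finset α}, Gd M r X → ∀ {X' : Finset α}, (X' : Set α) ⊆ M.E → X'.card = r + 3 →
    (X' \ X).card = k → Gd M r X' := by
  intro k
  induction k with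
  | zero =>
    intro X hX X' hX' hc hk
    have h1 : X' ⊆ X := sdiff_eq_empty_iff_subset.1 (card_eq_zero.1 hk)
    have h2 : X' = X := eq_of_subset_of_card_le h1 (by rw [hX.2.1, hc])
    rw [h2]; exact hX
  | succ k ih =>
    intro X hX X' hX' hc hk
    obtain ⟨z, hz⟩ : (X' \ X).Nonempty := card_pos.1 (by omega)
    rw [mem_sdiff] at hz
    obtain ⟨x, hx⟩ : (X \ X').Nonempty := by
      rw [nonempty_iff_ne_empty]
      intro h1
      have h2 : X ⊆ X' := sdiff_eq_empty_iff_subset.1 h1
      have h3 : X = X' := eq_of_subset_of_card_le h2 (by rw [hX.2.1, hc])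
      exact hz.2 (h3 ▸ hz.1)
    rw [mem_sdiff] at hx
    apply ih (h.gd_exch4 hH h5 hX hx.1 (hX' hz.1) hz.2) hX' hc
    have h1 : X' \ insert z (X.erase x) = (X' \ X).erase z := by
      ext y
      simp only [mem_sdiff, mem_insert, mem_erase, not_or, not_and]
      constructor
      · rintro ⟨h1, h2, h3⟩
        refine ⟨h2, h1, fun h4 => h3 ?_ h4⟩
        rintro rfl
        exact hx.2 h1
      · rintro ⟨h1, h2, h3⟩
        exact ⟨h2, h1, fun _ => h3⟩
    rw [h1, card_erase_of_mem (mem_sdiff.2 hz)]
    omega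

end Pool.Agent.helper25.PV
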