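import Pool.Agent.helper25.PW.All4

set_option autoImplicit false
set_option linter.unusedSectionVars false
set_option linter.unusedVariables false

/-!
# Project PW: coordinates over the field with two elements
-/

namespace Pool.Agent.helper25.PV

open Finset

theorem exists_coord2 {A : Type*} [AddCommGroup A] (K : AddSubgroup A)
    [Finite K] (hp : ∀ a ∈ K, a + a = 0) {d : ℕ} (hK : Nat.card K = 2 ^ d) :
    ∃ φ : (Fin d → ZMod 2) →+ A, Function.Injective φ ∧ (∀ v, φ v ∈ K) ∧ ∀ a ∈ K, ∃ v, φ v = a := by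
  have : Fact (Nat.Prime 2) := ⟨Nat.prime_two⟩
  rcases exists_coord (p := 2) K (fun a ha => by rw [two_nsmul]; exact hp a ha) hK d with
    ⟨d', hd, hN⟩ | ⟨φ, hφ, hφK⟩
  · exfalso
    have := Nat.pow_right_injective (le_refl 2) hN
    omega
  · refine ⟨φ, hφ, hφK, ?_⟩
    let g : (Fin d → ZMod 2) → K := fun v => ⟨φ v, hφK v⟩
    have hg : Function.Injective g := fun v w hvw => hφ (congrArg Subtype.val hvw)
    have hb := hg.bijective_of_nat_card_le (by
      rw [hK, Nat.card_fun, Nat.card_zmod, Nat.card_eq_fintype_card, Fintype.card_fin])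
    intro a ha
    obtain ⟨v, hv⟩ := hb.2 ⟨a, ha⟩
    exact ⟨v, congrArg Subtype.val hv⟩

/-- projective coordinates -/
theorem pcoord {V A : Type*} [Fintype V] [AddCommGroup A] (H : V → A) (hHH : ∀ x, H x + H x = 0)
    (hinj : Function.Injective H) (h0 : ∀ x, H x ≠ 0)
    (hadd : ∀ x y, x ≠ y → ∃ z, H x + H y = H z) {d : ℕ} (hn : Fintype.card V + 1 = 2 ^ d) :
    ∃ F : V → (Fin d → ZMod 2), Function.Injective F ∧ (∀ x, F x ≠ 0) ∧
      (∀ v, v ≠ 0 → ∃ x, F x = v) ∧ ∀ x y z, H x + H y = H z ↔ F x + F y = F z := by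
  let K : AddSubgroup A :=
    { carrier := {a | a = 0 ∨ ∃ x, H x = a}
      add_mem' := by
        rintro a b (rfl | ⟨x, rfl⟩) (rfl | ⟨y, rfl⟩)
        · left; simp
        · right; exact ⟨y, by simp⟩
        · right; exact ⟨x, by simp⟩
        · by_cases hxy : x = y
          · left; rw [hxy]; exact hHH y
          · right
            obtain ⟨z, hz⟩ := hadd x y hxy
            exact ⟨z, hz.symm⟩
      zero_mem' := Or.inl rfl
      neg_mem' := by
        rintro a (rfl | ⟨x, rfl⟩)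
        · left; simp
        · right; exact ⟨x, eq_neg_of_add_eq_zero_left (hHH x)⟩ }
  have hKmem : ∀ a, a ∈ K ↔ a = 0 ∨ ∃ x, H x = a := fun a => Iff.rfl
  let f : Option V → K := fun x => match x with
    | none => ⟨0, Or.inl rfl⟩
    | some x => ⟨H x, Or.inr ⟨x, rfl⟩⟩
  have hf : Function.Bijective f := by
    constructor
    · rintro (_ | x) (_ | y) hxy
      · rfl
      · exact absurd (congrArg Subtype.val hxy).symm (h0 y)
      · exact absurd (congrArg Subtype.val hxy) (h0 x)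
      · rw [hinj (congrArg Subtype.val hxy)]
    · rintro ⟨a, (rfl | ⟨x, rfl⟩)⟩
      · exact ⟨none, rfl⟩
      · exact ⟨some x, rfl⟩
  have hKfin : Finite K := Finite.of_surjective f hf.2
  have hKc : Nat.card K = 2 ^ d := by
    rw [← Nat.card_congr (Equiv.ofBijective f hf), Nat.card_eq_fintype_card, Fintype.card_option,
      hn]
  have hK2 : ∀ a ∈ K, a + a = 0 := by
    rintro a (rfl | ⟨x, rfl⟩)
    · simp
    · exact hHH x
  obtain ⟨φ, hφ, hφK, hsur⟩ := exists_coord2 K hK2 hKc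
  have hex : ∀ x, ∃ v, φ v = H x := fun x => hsur _ ((hKmem _).2 (Or.inr ⟨x, rfl⟩))
  choose F hF using hex
  refine ⟨F, ?_, ?_, ?_, ?_⟩
  · intro x y hxy
    apply hinj
    rw [← hF, ← hF, hxy]
  · intro x hx
    apply h0 x
    rw [← hF, hx, map_zero]
  · intro v hv
    rcases (hKmem _).1 (hφK v) with h1 | ⟨x, h1⟩
    · exfalso
      apply hv
      apply hφ
      rw [h1, map_zero]
    · refine ⟨x, hφ ?_⟩
      rw [hF, h1]
  · intro x y z
    rw [← hF, ← hF, ← hF, ← map_add]
    exact hφ.eq_iff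

/-- affine coordinates -/
theorem acoord {V A : Type*} [Fintype V] [AddCommGroup A] (H : V → A) (hHH : ∀ x, H x + H x = 0)
    (hinj : Function.Injective H) {o : V} (ho : H o = 0)
    (hadd : ∀ x y, ∃ z, H x + H y = H z) {d : ℕ} (hn : Fintype.card V = 2 ^ d) :
    ∃ F : V → (Fin d → ZMod 2), Function.Bijective F ∧
      ∀ x y z w, H x + H y + H z = H w ↔ F x + F y + F z = F w := by
  let K : AddSubgroup A :=
    { carrier := {a | ∃ x, H x = a}
      add_mem' := by
        rintro a b ⟨x, rfl⟩ ⟨y, rfl⟩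
        obtain ⟨z, hz⟩ := hadd x y
        exact ⟨z, hz.symm⟩
      zero_mem' := ⟨o, ho⟩
      neg_mem' := by
        rintro a ⟨x, rfl⟩
        exact ⟨x, eq_neg_of_add_eq_zero_left (hHH x)⟩ }
  have hKmem : ∀ a, a ∈ K ↔ ∃ x, H x = a := fun a => Iff.rfl
  let f : V → K := fun x => ⟨H x, ⟨x, rfl⟩⟩
  have hf : Function.Bijective f := by
    constructor
    · intro x y hxy
      exact hinj (congrArg Subtype.val hxy)
    · rintro ⟨a, ⟨x, rfl⟩⟩
      exact ⟨x, rfl⟩
  have hKfin : Finite K := Finite.of_surjective f hf.2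
  have hKc : Nat.card K = 2 ^ d := by
    rw [← Nat.card_congr (Equiv.ofBijective f hf), Nat.card_eq_fintype_card, hn]
  have hK2 : ∀ a ∈ K, a + a = 0 := by
    rintro a ⟨x, rfl⟩
    exact hHH x
  obtain ⟨φ, hφ, hφK, hsur⟩ := exists_coord2 K hK2 hKc
  have hex : ∀ x, ∃ v, φ v = H x := fun x => hsur _ ((hKmem _).2 ⟨x, rfl⟩)
  choose F hF using hex
  refine ⟨F, ⟨?_, ?_⟩, ?_⟩
  · intro x y hxy
    apply hinj
    rw [← hF, ← hF, hxy]
  · intro v
    obtain ⟨x, h1⟩ := (hKmem _).1 (hφK v)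
    refine ⟨x, hφ ?_⟩
    rw [hF, h1]
  · intro x y z w
    rw [← hF, ← hF, ← hF, ← hF, ← map_add, ← map_add]
    exact hφ.eq_iff

end Pool.Agent.helper25.PV
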