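import Pool.Agent.helper25.PW.Seven
import Pool.Agent.helper25.PV.Core

set_option autoImplicit false
set_option linter.unusedSectionVars false
set_option linter.unusedVariables false

/-!
# Project PW: the classes of the points of the Fano plane
-/

namespace Pool.Agent.helper25.PV

open Finset

variable {V : Type*} [Fintype V] [DecidableEq V] {S : LS V}
variable {A : Type*} [AddCommGroup A] {e : V → A}

theorem LS.thr_of3 (h3 : ∀ x y, x ≠ y → (S.ln x y).card = 3) (x : V) :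
    2 * (S.thr x).card + 1 = Fintype.card V := by
  have h1 := LS.count (S := S) x
  have h2 : (S.O x).card = 0 := by
    rw [card_eq_zero, eq_empty_iff_forall_notMem]
    intro v hv
    have h4 := LS.mem_O.1 hv
    rw [h3 _ _ h4.1.symm] at h4
    omega
  omega

theorem HP.seven_inj (h : HP S e) (hn : Fintype.card V = 7)
    (h3 : ∀ x y, x ≠ y → (S.ln x y).card = 3) : Function.Injective e := by
  intro x y hexy
  by_contra hxy
  have hkx := LS.thr_of3 h3 x
  have hky := LS.thr_of3 h3 y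
  have hc := h3 x y hxy
  have hf := h.nsmul_f (by omega) x
  have hk : (S.thr x).card - 1 = 2 := by omega
  rw [hk] at hf
  obtain ⟨δ, lam, h1, h2, h4, h5, h6⟩ := h.two (by omega) hxy hc (p := 1) (q := 1) (by
    rw [← hexy, ← add_nsmul]
    exact hf)
  set ℓ := S.ln x y with hℓdef
  have hℓ : ℓ ∈ S.lines := LS.ln_mem hxy
  have hxℓ : x ∈ ℓ := S.left hxy
  have hyℓ : y ∈ ℓ := S.right hxy
  have hℓx : ℓ ∈ S.thr x := LS.mem_thr.2 ⟨hℓ, hxℓ⟩
  have hℓy : ℓ ∈ S.thr y := LS.mem_thr.2 ⟨hℓ, hyℓ⟩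
  rw [← add_sum_erase _ _ hℓx, h1] at h5
  rw [← add_sum_erase _ _ hℓy, h1] at h6
  have h5' : ∑ L ∈ (S.thr x).erase ℓ, lam L = 1 := by omega
  have h6' : ∑ L ∈ (S.thr y).erase ℓ, lam L = 1 := by omega
  have hL3 : ∀ L ∈ S.lines, L.card = 3 := by
    intro L hL
    obtain ⟨a, b, hab, rfl⟩ := LS.mem_lines.1 hL
    exact h3 a b hab
  have hsx : ∑ w ∈ univ \ ℓ, lam (S.ln x w) = 2 := by
    rw [LS.sum_off hℓ hxℓ]
    have h7 : ∀ L ∈ (S.thr x).erase ℓ, lam L * (L.card - 1) = lam L * 2 := by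
      intro L hL
      rw [hL3 L (LS.mem_thr.1 (mem_of_mem_erase hL)).1]
    rw [sum_congr rfl h7, ← sum_mul, h5', one_mul]
  have hsy : ∑ w ∈ univ \ ℓ, lam (S.ln y w) = 2 := by
    rw [LS.sum_off hℓ hyℓ]
    have h7 : ∀ L ∈ (S.thr y).erase ℓ, lam L * (L.card - 1) = lam L * 2 := by
      intro L hL
      rw [hL3 L (LS.mem_thr.1 (mem_of_mem_erase hL)).1]
    rw [sum_congr rfl h7, ← sum_mul, h6', one_mul]
  have hoc : (univ \ ℓ).card = 4 := by
    rw [card_sdiff_of_subset (subset_univ _), card_univ, hn, hc]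
  have hδ : δ = 1 := by
    have h7 : ∑ w ∈ univ \ ℓ, (lam (S.ln x w) + lam (S.ln y w)) = (univ \ ℓ).card * δ := by
      rw [sum_congr rfl fun w hw => h4 w (mem_sdiff.1 hw).2, sum_const, smul_eq_mul]
    rw [sum_add_distrib, hsx, hsy, hoc] at h7
    omega
  subst hδ
  obtain ⟨L, hL, hL0⟩ : ∃ L ∈ (S.thr x).erase ℓ, lam L = 0 := by
    by_contra hcon
    push Not at hcon
    have h7 : ∑ L ∈ (S.thr x).erase ℓ, 1 ≤ ∑ L ∈ (S.thr x).erase ℓ, lam L :=
      sum_le_sum fun L hL => Nat.one_le_iff_ne_zero.2 (hcon L hL)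
    rw [h5', sum_const, smul_eq_mul, mul_one, card_erase_of_mem hℓx] at h7
    omega
  have hL' := mem_erase.1 hL
  have hLt := LS.mem_thr.1 hL'.2
  obtain ⟨u, hu, hux⟩ : ∃ u ∈ L, u ≠ x := by
    apply exists_mem_ne
    have := hL3 L hLt.1
    omega
  have hlu : S.ln x u = L := LS.eq_ln hLt.1 hux.symm hLt.2 hu
  have hcu := h3 x u hux.symm
  obtain ⟨v1, v2, v3⟩ := LS.th_spec hux.symm hcu
  set v := S.th x u with hv
  have hvL : v ∈ L := by rw [← hlu]; exact LS.th_mem hux.symm hcu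
  have hlv : S.ln x v = L := LS.eq_ln hLt.1 v1.symm hLt.2 hvL
  have hoff : ∀ w, w ∈ L → w ≠ x → w ∉ ℓ := fun w hw hwx h7 =>
    hL'.1 (LS.line_unique hLt.1 hℓ hwx hw hLt.2 h7 hxℓ)
  have hyL : y ∉ L := fun h7 => hoff y h7 (Ne.symm hxy) hyℓ
  have hu1 : lam (S.ln y u) = 1 := by
    have := h4 u (hoff u hu hux)
    rw [hlu, hL0, zero_add] at this
    exact this
  have hv1 : lam (S.ln y v) = 1 := by
    have := h4 v (hoff v hvL v1)
    rw [hlv, hL0, zero_add] at this
    exact this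
  have huy : y ≠ u := fun h7 => hyL (h7 ▸ hu)
  have hvy : y ≠ v := fun h7 => hyL (h7 ▸ hvL)
  have hmem : ∀ w, w ∈ L → w ≠ x → y ≠ w → S.ln y w ∈ (S.thr y).erase ℓ := by
    intro w hw hwx hyw
    refine mem_erase.2 ⟨fun h7 => hoff w hw hwx ?_, LS.ln_mem_thr hyw⟩
    rw [← h7]; exact S.right hyw
  by_cases heq : S.ln y u = S.ln y v
  · have h7 : S.ln y u = L := LS.line_unique (LS.ln_mem huy) hLt.1 v2
      (by rw [heq]; exact S.right hvy) (S.right huy) hvL hu
    exact hyL (by rw [← h7]; exact S.left huy)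
  · have h7 : ∑ M ∈ {S.ln y u, S.ln y v}, lam M ≤ ∑ M ∈ (S.thr y).erase ℓ, lam M := by
      apply sum_le_sum_of_subset
      intro M hM
      simp only [mem_insert, mem_singleton] at hM
      rcases hM with rfl | rfl
      · exact hmem u hu hux huy
      · exact hmem v hvL v1 hvy
    rw [sum_pair heq, hu1, hv1, h6'] at h7
    omega

theorem HP.seven_dich (h : HP S e) (hn : Fintype.card V = 7)
    (h3 : ∀ x y, x ≠ y → (S.ln x y).card = 3) :
    ∃ u, (∀ x, e x + e x = u) ∧ u + u + u = ∑ y, e y + ∑ y, e y := by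
  set τ : A := ∑ y, e y with hτ
  have h2 : ∀ x, e x + e x = τ + τ := by
    intro x
    have hkx := LS.thr_of3 h3 x
    have hf := h.nsmul_f (by omega) x
    have hk : (S.thr x).card - 1 = 2 := by omega
    rw [hk, ← hτ] at hf
    have h4 : e x + e x = τ + τ - 2 • (τ - e x) := by abel
    rw [h4, hf, sub_zero]
  refine ⟨τ + τ, h2, ?_⟩
  obtain ⟨x⟩ : Nonempty V := Fintype.card_pos_iff.1 (by omega)
  obtain ⟨y, hyx⟩ : ∃ y, y ≠ x := by
    by_contra h1
    push Not at h1
    have h3 : (univ : Finset V) ⊆ {x} := fun z _ => mem_singleton.2 (h1 z)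
    have h4 := card_le_card h3
    rw [card_univ, card_singleton] at h4
    omega
  have h4 := h.third_sum hyx.symm (h3 x y hyx.symm)
  rw [← hτ] at h4
  have h5 : τ + τ + (τ + τ) + (τ + τ) = (e x + e x) + (e y + e y) +
      (e (S.th x y) + e (S.th x y)) := by rw [h2, h2, h2]
  have h6 : (e x + e x) + (e y + e y) + (e (S.th x y) + e (S.th x y)) =
      (e x + e y + e (S.th x y)) + (e x + e y + e (S.th x y)) := by abel
  rw [h5, h6, h4]

/-- seven or fifteen points -/
theorem HP.dich' (h : HP S e) (hn : Fintype.card V = 7 ∨ Fintype.card V = 15)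
    (hinj : Function.Injective e) (h3 : ∀ x y, x ≠ y → (S.ln x y).card = 3) :
    ∃ u, (∀ x, e x + e x = u) ∧ u + u + u = ∑ y, e y + ∑ y, e y := by
  rcases hn with hn | hn
  · exact h.seven_dich hn h3
  · rcases h.dich (by omega) hinj h3 with h1 | h1
    · have := h.ag (by omega) hinj h3 h1
      omega
    · exact h1

end Pool.Agent.helper25.PV
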