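import Pool.Agent.helper25.PW.AGnec

set_option autoImplicit false
set_option linter.unusedSectionVars false
set_option linter.unusedVariables false

/-!
# Project PW: rank four and at least nine elements
-/

namespace Pool.Agent.helper25.PV

open Finset Pool.Agent.helper9.HB49

variable {α : Type*} [DecidableEq α] {M : Matroid α} [M.Finite] {r : ℕ}

open Classical in
/-- the number of sets of four elements and rank less than four in `Z` -/
noncomputable def nsm (M : Matroid α) (Z : Finset α) : ℕ :=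
  ((Z.powersetCard 4).filter fun D => sm M 4 D).card

theorem nsm_erase (Z : Finset α) (h4 : 4 ≤ Z.card) :
    ∑ z ∈ Z, nsm M (Z.erase z) = (Z.card - 4) * nsm M Z := by
  classical
  have h1 : ∀ z ∈ Z, nsm M (Z.erase z) =
      ∑ D ∈ (Z.powersetCard 4).filter (fun D => sm M 4 D), if z ∉ D then 1 else 0 := by
    intro z hz
    rw [nsm, ← card_filter]
    congr 1
    ext D
    simp only [mem_filter, mem_powersetCard]
    constructor
    · rintro ⟨⟨h1, h2⟩, h3⟩
      exact ⟨⟨⟨h1.trans (erase_subset _ _), h2⟩, h3⟩, fun h4 => notMem_erase z Z (h1 h4)⟩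
    · rintro ⟨⟨⟨h1, h2⟩, h3⟩, h4⟩
      exact ⟨⟨fun x hx => mem_erase.2 ⟨fun h5 => h4 (h5 ▸ hx), h1 hx⟩, h2⟩, h3⟩
  rw [sum_congr rfl h1, sum_comm]
  have h2 : ∀ D ∈ (Z.powersetCard 4).filter (fun D => sm M 4 D),
      (∑ z ∈ Z, if z ∉ D then 1 else 0) = Z.card - 4 := by
    intro D hD
    rw [mem_filter, mem_powersetCard] at hD
    rw [← card_filter, filter_not, card_sdiff_of_subset (filter_subset _ _), filter_mem_eq_inter,
      inter_eq_right.2 hD.1.1, hD.1.2]
  rw [sum_congr rfl h2, sum_const, smul_eq_mul, mul_comm, nsm]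

theorem LS.lines7 {V : Type*} [Fintype V] [DecidableEq V] {S : LS V}
    (h3 : ∀ x y, x ≠ y → (S.ln x y).card = 3) (hc : Fintype.card V = 7) :
    S.lines.card = 7 := by
  have h1 := LS.total (S := S) fun _ => 1
  have h2 : ∀ y ∈ (univ : Finset V), ∑ L ∈ S.thr y, (1 : ℤ) = 3 := by
    intro y _
    have h4 := LS.thr_of3 h3 y
    rw [sum_const, nsmul_eq_mul, mul_one]
    have : (S.thr y).card = 3 := by omega
    rw [this]
    norm_num
  have h4 : ∀ L ∈ S.lines, (1 : ℤ) * L.card = 3 := by
    intro L hL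
    obtain ⟨a, b, hab, rfl⟩ := LS.mem_lines.1 hL
    rw [h3 a b hab]
    norm_num
  rw [sum_congr rfl h2, sum_congr rfl h4, sum_const, sum_const, card_univ, hc] at h1
  simp only [nsmul_eq_mul] at h1
  norm_num at h1
  omega

theorem Pv.nsm_seven (h : Pv M 4) (hH : CircuitsHilbert M) {X : Finset α} (hX : Gd M 4 X) :
    nsm M X = 7 := by
  classical
  obtain ⟨S, hS, hinj, h3⟩ := h.gd_ls4 hH (le_refl 4) hX
  have hc : Fintype.card X = 7 := by rw [Fintype.card_coe, hX.2.1]
  rw [← LS.lines7 h3 hc, nsm]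
  symm
  apply card_nbij (fun L => X \ L.image Subtype.val)
  · intro L hL
    have hL := mem_coe.1 hL
    have hL3 : L.card = 3 := by
      obtain ⟨a, b, hab, rfl⟩ := LS.mem_lines.1 hL
      exact h3 a b hab
    rw [mem_coe, mem_filter, mem_powersetCard]
    have h1 := sdiff_val_card L
    rw [hL3, hX.2.1] at h1
    have h2 : (X \ L.image Subtype.val).card = 4 := by omega
    exact ⟨⟨sdiff_subset, h2⟩, (hS.tri L hL3).2 hL⟩
  · intro L hL L' hL' heq
    simp only at heq
    have h1 : L.image Subtype.val = L'.image Subtype.val := by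
      rw [← Finset.sdiff_sdiff_eq_self (image_val_subset L), heq,
        Finset.sdiff_sdiff_eq_self (image_val_subset L')]
    exact image_injective Subtype.val_injective h1
  · intro D hD
    rw [mem_coe, mem_filter, mem_powersetCard] at hD
    set L : Finset X := univ.filter fun v : X => (v : α) ∉ D with hL
    have h1 : D = X \ L.image Subtype.val := by
      ext x
      rw [mem_sdiff]
      constructor
      · intro hx
        refine ⟨hD.1.1 hx, ?_⟩
        rw [mem_image_val (hD.1.1 hx), hL, mem_filter]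
        exact fun h2 => h2.2 hx
      · rintro ⟨hx, h2⟩
        rw [mem_image_val hx, hL, mem_filter] at h2
        by_contra h4
        exact h2 ⟨mem_univ _, h4⟩
    have h2 := sdiff_val_card L
    rw [← h1, hX.2.1, hD.1.2] at h2
    exact ⟨L, mem_coe.2 ((hS.tri L (by omega)).1 (by rw [← h1]; exact hD.2)), h1.symm⟩

theorem Pv.kill4 (h : Pv M 4) (hH : CircuitsHilbert M) (hE : 9 ≤ M.E.ncard) {X0 : Finset α}
    (hX0 : Gd M 4 X0) : False := by
  classical
  set F := M.ground_finite.toFinset with hF
  have hFm : ∀ x, x ∈ F ↔ x ∈ M.E := fun x => by rw [hF]; simp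
  have hFc : F.card = M.E.ncard := (Set.ncard_eq_toFinset_card _ _).symm
  have h7 : ∀ X : Finset α, X ⊆ F → X.card = 7 → nsm M X = 7 := fun X hX hc =>
    h.nsm_seven hH (h.gd_all4 hH (le_refl 4) _ hX0 (fun y hy => (hFm y).1 (hX hy)) hc rfl)
  have h8 : ∀ X : Finset α, X ⊆ F → X.card = 8 → nsm M X = 14 := by
    intro X hX hc
    have h1 := nsm_erase (M := M) X (by omega)
    rw [sum_congr rfl fun z hz => h7 (X.erase z) ((erase_subset _ _).trans hX)
      (by rw [card_erase_of_mem hz, hc]), sum_const, smul_eq_mul, hc] at h1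
    omega
  obtain ⟨Z, hZF, hZc⟩ := exists_subset_card_eq (s := F) (n := 9) (by omega)
  have h1 := nsm_erase (M := M) Z (by omega)
  rw [sum_congr rfl fun z hz => h8 (Z.erase z) ((erase_subset _ _).trans hZF)
    (by rw [card_erase_of_mem hz, hZc]), sum_const, smul_eq_mul, hZc] at h1
  omega

end Pool.Agent.helper25.PV
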