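import Pool.Agent.helper25.PW.Suf3

set_option autoImplicit false
set_option linter.unusedSectionVars false
set_option linter.unusedVariables false

/-!
# Project PW: paving matroids of rank at least four whose circuits form a Hilbert basis
-/

namespace Pool.Agent.helper25.PV

open Finset Pool.Agent.helper9.HB49

variable {α : Type*} {M : Matroid α} [M.Finite] {r : ℕ}

theorem Pv.necess4 (h : Pv M r) (h4 : 4 ≤ r) (hH : CircuitsHilbert M) :
    M.E.ncard ≤ r + 2 ∨ TU M r ∨ TC M r ∨ TS M r ∨ AG23 M ∨ PGT M 3 ∨ AGT M 3 ∨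
      PGT M 4 ∨ AGT M 4 := by
  classical
  by_cases hE : M.E.ncard ≤ r + 2
  · exact Or.inl hE
  right
  by_cases hG : ∃ X, Gd M r X
  · obtain ⟨X, hX⟩ := hG
    have hXE : r + 3 ≤ M.E.ncard := by
      have h1 := Set.ncard_le_ncard hX.1 M.ground_finite
      rw [Set.ncard_coe_finset, hX.2.1] at h1
      exact h1
    rcases Nat.lt_or_ge 4 r with h5 | h5
    · rcases h.gd_rank hH h5 hX with rfl | rfl
      · right; right; right; left
        by_cases h9 : M.E.ncard = 9
        · exact h.ag23 hH h9 hX
        · exact (h.kill6 hH (by omega) hX).elim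
      · right; right; right; right; right; right
        by_cases h1 : M.E.ncard = 15
        · exact Or.inl (h.pgt hH (Or.inr rfl) (by norm_num) h1 hX)
        · by_cases h2 : M.E.ncard = 16
          · exact Or.inr (h.agt hH (Or.inr rfl) (by norm_num) h2 hX)
          · exact (h.kill12 hH (by omega) hX).elim
    · obtain rfl : r = 4 := by omega
      by_cases h1 : M.E.ncard = 7
      · right; right; right; right; left
        exact h.pgt hH (Or.inl rfl) (by norm_num) h1 hX
      · by_cases h2 : M.E.ncard = 8
        · right; right; right; right; right; left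
          exact h.agt hH (Or.inl rfl) (by norm_num) h2 hX
        · exact (h.kill4 hH (by omega) hX).elim
  · push Not at hG
    rcases h.classify (by omega) hG (by omega) with h1 | h1 | h1
    · exact Or.inl h1
    · exact Or.inr (Or.inl h1)
    · exact Or.inr (Or.inr (Or.inl h1))

theorem Pv.main4 (h : Pv M r) (h4 : 4 ≤ r) (hP : ¬ PGT M 4) (hA : ¬ AGT M 4) :
    CircuitsHilbert M ↔ M.E.ncard ≤ r + 2 ∨ TU M r ∨ TC M r ∨ TS M r ∨ AG23 M ∨
      PGT M 3 ∨ AGT M 3 := by
  classical
  constructor
  · intro hH
    rcases h.necess4 h4 hH with h1 | h1 | h1 | h1 | h1 | h1 | h1 | h1 | h1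
    · exact Or.inl h1
    · exact Or.inr (Or.inl h1)
    · exact Or.inr (Or.inr (Or.inl h1))
    · exact Or.inr (Or.inr (Or.inr (Or.inl h1)))
    · exact Or.inr (Or.inr (Or.inr (Or.inr (Or.inl h1))))
    · exact Or.inr (Or.inr (Or.inr (Or.inr (Or.inr (Or.inl h1)))))
    · exact Or.inr (Or.inr (Or.inr (Or.inr (Or.inr (Or.inr h1)))))
    · exact absurd h1 hP
    · exact absurd h1 hA
  · have hrk : rk M M.E = r := by
      have h8 : (rk M M.E : ℕ∞) = r := by rw [cast_rk, M.eRk_ground, h.rank]
      exact_mod_cast h8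
    rintro (h1 | h1 | h1 | h1 | h1 | h1 | h1)
    · exact corank_two (by rw [hrk]; exact h1)
    · exact h1.hilbert
    · exact h1.hilbert (by omega)
    · exact h1.hilbert (by omega)
    · exact h1.hilbert
    · exact h1.hilbert
    · exact h1.hilbert

end Pool.Agent.helper25.PV
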