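import Pool.Agent.helper25.PW.PG4c

set_option autoImplicit false
set_option linter.unusedSectionVars false
set_option linter.unusedVariables false

/-!
# Project PW: the matroid of the projective space of dimension three over the field with two
elements
-/

namespace Pool.Agent.helper25.PV

open Set Pool.Agent.helper9.HB49

theorem lnv_apply_sub (p q v : W4) : (1 : ℤ) - lnv p q v = if v ≠ p ∧ v ≠ q ∧ v ≠ p + q then 1 else 0 := by
  unfold lnv
  by_cases h : v = p ∨ v = q ∨ v = p + q
  · rw [if_pos h, if_neg (by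
      rintro ⟨h1, h2, h3⟩
      rcases h with h | h | h
      · exact h1 h
      · exact h2 h
      · exact h3 h), sub_self]
  · push Not at h
    rw [if_neg (by push Not; exact h), if_pos h, sub_zero]

theorem out_add {A : Type*} [AddCommMonoid A] (D D' : W4 → A) (φ : W4 →+ ZMod 2) :
    out (fun v => D v + D' v) φ = out D φ + out D' φ := by
  unfold out
  rw [← Finset.sum_add_distrib]
  refine Finset.sum_congr rfl fun v _ => ?_
  split_ifs <;> simp

theorem out_neg (D : W4 → ℤ) (φ : W4 →+ ZMod 2) : out (fun v => - D v) φ = - out D φ := by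
  unfold out
  rw [← Finset.sum_neg_distrib]
  refine Finset.sum_congr rfl fun v _ => ?_
  split_ifs <;> simp

theorem out_smul (q : ℚ) (D : W4 → ℚ) (φ : W4 →+ ZMod 2) :
    out (fun v => q * D v) φ = q * out D φ := by
  unfold out
  rw [Finset.mul_sum]
  refine Finset.sum_congr rfl fun v _ => ?_
  split_ifs <;> simp

theorem out_zero {A : Type*} [AddCommMonoid A] (φ : W4 →+ ZMod 2) :
    out (fun _ => (0 : A)) φ = 0 := by
  unfold out
  exact Finset.sum_eq_zero fun v _ => by split_ifs <;> rfl

theorem out_cast (D : W4 → ℤ) (φ : W4 →+ ZMod 2) : out (fun v => (D v : ℚ)) φ = (out D φ : ℤ) := by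
  unfold out
  push_cast
  refine Finset.sum_congr rfl fun v _ => ?_
  split_ifs <;> simp

variable {α : Type*}

theorem PGT.hilbert4 {M : Matroid α} (hM : PGT M 4) : CircuitsHilbert M := by
  classical
  obtain ⟨f, hf, hC⟩ := hM
  have hchi : ∀ p q : W4, ∀ x ∈ M.E, chi ℤ {x ∈ M.E | f x ≠ p ∧ f x ≠ q ∧ f x ≠ p + q} x =
      1 - lnv p q (f x) := by
    intro p q x hx
    rw [lnv_apply_sub, chi_apply]
    simp only [mem_sep_iff, hx, true_and]
  rw [hilbert_iff]
  intro p hp hc
  have hlat : ∀ z ∈ Lat M, ∃ (N : ℤ) (D : W4 → ℤ), D 0 = 0 ∧ ∑ v, D v = 3 * N ∧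
      (∀ φ : W4 →+ ZMod 2, ∃ e, out D φ = 2 * e) ∧ ∀ x ∈ M.E, z x = N - D (f x) := by
    intro z hz
    induction hz using AddSubgroup.closure_induction with
    | mem v hv =>
      obtain ⟨C, h, rfl⟩ := hv
      obtain ⟨a, b, ha, hb, hab, rfl⟩ := (hC C).1 h
      refine ⟨1, lnv a b, ?_, ?_, ?_, ?_⟩
      · unfold lnv
        rw [if_neg]
        rintro (h5 | h5 | h5)
        · exact ha h5.symm
        · exact hb h5.symm
        · exact add_ne hab h5.symm
      · have := sum_lnv ha hb hab fun _ => (1 : ℤ)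
        rw [show (1 : ℤ) + 1 + 1 = 3 * 1 by norm_num] at this
        exact this
      · intro φ
        rw [out_lnv ha hb hab]
        split_ifs
        · exact ⟨0, rfl⟩
        · exact ⟨1, rfl⟩
      · intro x hx
        exact hchi a b x hx
    | zero => exact ⟨0, fun _ => 0, rfl, by simp, fun φ => ⟨0, by rw [out_zero]; rfl⟩,
        fun x _ => by simp⟩
    | add v w _ _ h1 h2 =>
      obtain ⟨N1, D1, a1, b1, c1, d1⟩ := h1
      obtain ⟨N2, D2, a2, b2, c2, d2⟩ := h2
      refine ⟨N1 + N2, fun v => D1 v + D2 v, ?_, ?_, ?_, ?_⟩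
      · show D1 0 + D2 0 = 0
        rw [a1, a2, add_zero]
      · rw [Finset.sum_add_distrib, b1, b2]; ring
      · intro φ
        obtain ⟨e1, k1⟩ := c1 φ
        obtain ⟨e2, k2⟩ := c2 φ
        exact ⟨e1 + e2, by rw [out_add, k1, k2]; ring⟩
      · intro x hx
        rw [Pi.add_apply, d1 x hx, d2 x hx]; ring
    | neg v _ h1 =>
      obtain ⟨N1, D1, a1, b1, c1, d1⟩ := h1
      refine ⟨- N1, fun v => - D1 v, ?_, ?_, ?_, ?_⟩
      · show - D1 0 = 0
        rw [a1, neg_zero]
      · rw [Finset.sum_neg_distrib, b1]; ring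
      · intro φ
        obtain ⟨e1, k1⟩ := c1 φ
        exact ⟨- e1, by rw [out_neg, k1]; ring⟩
      · intro x hx
        rw [Pi.neg_apply, d1 x hx]; ring
  have hcone : ∀ z ∈ Cone M, ∃ (N : ℚ) (D : W4 → ℚ), D 0 = 0 ∧ (∀ v, 0 ≤ D v) ∧
      ∑ v, D v = 3 * N ∧ (∀ φ : W4 →+ ZMod 2, φ ≠ 0 → out D φ ≤ 2 * N ∧
        ∀ p, φ p = 1 → 2 * D p ≤ out D φ) ∧ ∀ x ∈ M.E, z x = N - D (f x) := by
    intro z hz
    induction hz using Submodule.span_induction with
    | mem v hv =>
      obtain ⟨C, h, rfl⟩ := hv
      obtain ⟨a, b, ha, hb, hab, rfl⟩ := (hC C).1 h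
      refine ⟨1, fun v => (lnv a b v : ℚ), ?_, ?_, ?_, ?_, ?_⟩
      · dsimp only
        unfold lnv
        rw [if_neg]
        · norm_num
        rintro (h5 | h5 | h5)
        · exact ha h5.symm
        · exact hb h5.symm
        · exact add_ne hab h5.symm
      · intro v
        dsimp only
        unfold lnv
        split_ifs <;> norm_num
      · have := sum_lnv ha hb hab fun _ => (1 : ℤ)
        rw [show (1 : ℤ) + 1 + 1 = 3 * 1 by norm_num] at this
        have h2 : ∑ v, lnv a b v = 3 * 1 := this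
        show ∑ v, ((lnv a b v : ℤ) : ℚ) = 3 * 1
        exact_mod_cast h2
      · intro φ hφ
        rw [out_cast, out_lnv ha hb hab]
        refine ⟨by split_ifs <;> norm_num, fun v hv => ?_⟩
        by_cases h1 : φ a = 0 ∧ φ b = 0
        · rw [if_pos h1]
          have h2 : lnv a b v = 0 := by
            unfold lnv
            rw [if_neg]
            rintro (h5 | h5 | h5)
            · rw [h5, h1.1] at hv; exact zero_ne_one hv
            · rw [h5, h1.2] at hv; exact zero_ne_one hv
            · rw [h5, map_add, h1.1, h1.2, add_zero] at hv; exact zero_ne_one hv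
          dsimp only
          rw [h2]; norm_num
        · rw [if_neg h1]
          dsimp only
          unfold lnv
          split_ifs <;> norm_num
      · intro x hx
        have h1 := hchi a b x hx
        rw [← cast_chi, h1]
        push_cast
        rfl
    | zero => exact ⟨0, fun _ => 0, rfl, fun _ => le_rfl, by simp, fun φ _ => by
        rw [out_zero]; exact ⟨by norm_num, fun _ _ => by norm_num⟩, fun x _ => by simp⟩
    | add v w _ _ h1 h2 =>
      obtain ⟨N1, D1, a1, s1, b1, c1, d1⟩ := h1
      obtain ⟨N2, D2, a2, s2, b2, c2, d2⟩ := h2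
      refine ⟨N1 + N2, fun v => D1 v + D2 v, ?_, fun v => add_nonneg (s1 v) (s2 v), ?_, ?_, ?_⟩
      · show D1 0 + D2 0 = 0
        rw [a1, a2, add_zero]
      · rw [Finset.sum_add_distrib, b1, b2]; ring
      · intro φ hφ
        obtain ⟨k1, l1⟩ := c1 φ hφ
        obtain ⟨k2, l2⟩ := c2 φ hφ
        rw [out_add]
        refine ⟨by linarith, fun p hp => ?_⟩
        have := l1 p hp
        have := l2 p hp
        dsimp only
        linarith
      · intro x hx
        rw [Pi.add_apply, d1 x hx, d2 x hx]; ring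
    | smul q v _ h1 =>
      obtain ⟨N1, D1, a1, s1, b1, c1, d1⟩ := h1
      refine ⟨q * N1, fun v => q * D1 v, ?_, fun v => mul_nonneg q.2 (s1 v), ?_, ?_, ?_⟩
      · show (q : ℚ) * D1 0 = 0
        rw [a1, mul_zero]
      · rw [← Finset.mul_sum, b1]; ring
      · intro φ hφ
        obtain ⟨k1, l1⟩ := c1 φ hφ
        have hq : (0 : ℚ) ≤ (q : ℚ) := q.2
        rw [out_smul]
        refine ⟨by nlinarith [mul_le_mul_of_nonneg_left k1 hq], fun p hp => ?_⟩
        have := mul_le_mul_of_nonneg_left (l1 p hp) hq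
        dsimp only
        linarith
      · intro x hx
        rw [Pi.smul_apply, NNRat.smul_def, d1 x hx]; ring
  obtain ⟨N, D, a1, b1, c1, d1⟩ := hlat p hp
  obtain ⟨N', D', a2, s2, b2, c2, d2⟩ := hcone _ hc
  have hdiff : ∀ v : W4, (D v : ℚ) - D' v = if v = 0 then 0 else (N : ℚ) - N' := by
    intro v
    by_cases hv : v = 0
    · rw [hv, a1, a2, if_pos rfl]; norm_num
    · rw [if_neg hv]
      obtain ⟨x, hx, rfl⟩ := hf.2.2 (show v ∈ {v : W4 | v ≠ 0} from hv)
      have h1 := d1 x hx
      have h2 := d2 x hx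
      rw [h1] at h2
      push_cast at h2
      linarith
  have hNN : (N : ℚ) = N' := by
    have h1 : ∑ v : W4, ((D v : ℚ) - D' v) = 3 * N - 3 * N' := by
      rw [Finset.sum_sub_distrib, b2]
      congr 1
      exact_mod_cast b1
    have h2 : ∑ v : W4, (if v = 0 then (0 : ℚ) else (N : ℚ) - N') = 15 * ((N : ℚ) - N') := by
      have h3 : ∀ v ∈ (Finset.univ : Finset W4), (if v = 0 then (0 : ℚ) else (N : ℚ) - N') =
          ((N : ℚ) - N') - if v = 0 then (N : ℚ) - N' else 0 := by
        intro v _
        split_ifs <;> ring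
      rw [Finset.sum_congr rfl h3, Finset.sum_sub_distrib, Finset.sum_ite_eq',
        if_pos (Finset.mem_univ _), Finset.sum_const, Finset.card_univ]
      have h4 : Fintype.card W4 = 16 := by simp
      rw [h4, nsmul_eq_mul]
      push_cast
      ring
    rw [Finset.sum_congr rfl fun v _ => hdiff v, h2] at h1
    linarith
  have hDD : ∀ v, (D v : ℚ) = D' v := by
    intro v
    have h1 := hdiff v
    rw [hNN, sub_self, ite_self] at h1
    linarith
  have hDD' : D' = fun v => (D v : ℚ) := funext fun v => (hDD v).symm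
  have hcn : Cn D N := by
    refine ⟨a1, fun v => ?_, b1, fun φ hφ => ?_⟩
    · have := s2 v
      rw [← hDD v] at this
      exact_mod_cast this
    · obtain ⟨e, he⟩ := c1 φ
      obtain ⟨k1, k2⟩ := c2 φ hφ
      rw [hDD', out_cast, ← hNN] at k1
      have k3 : out D φ ≤ 2 * N := by exact_mod_cast k1
      refine ⟨e, he, by linarith, fun v hv => ?_⟩
      have k4 := k2 v hv
      rw [hDD', out_cast] at k4
      have k6 : (2 : ℚ) * (D v : ℚ) ≤ (out D φ : ℤ) := k4
      have k5 : 2 * D v ≤ out D φ := by exact_mod_cast k6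
      linarith
  have hN0 : 0 ≤ N := by
    have h1 : 0 ≤ ∑ v, D v := Finset.sum_nonneg fun v _ => hcn.nn v
    rw [b1] at h1
    linarith
  have hmem := Cn.mem N.toNat hcn (Int.toNat_of_nonneg hN0).symm
  have hback : ∀ F ∈ Lsm, ∃ K : ℤ, ∑ v, F v = 3 * K ∧
      (fun x => if x ∈ M.E then K - F (f x) else 0) ∈ IntCone M := by
    intro F hF
    induction hF using AddSubmonoid.closure_induction with
    | mem v hv =>
      obtain ⟨a, b, ha, hb, hab, rfl⟩ := hv
      refine ⟨1, ?_, ?_⟩
      · have := sum_lnv ha hb hab fun _ => (1 : ℤ)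
        rw [show (1 : ℤ) + 1 + 1 = 3 * 1 by norm_num] at this
        exact this
      · have h1 : (fun x => if x ∈ M.E then 1 - lnv a b (f x) else 0) =
            chi ℤ {x ∈ M.E | f x ≠ a ∧ f x ≠ b ∧ f x ≠ a + b} := by
          funext x
          by_cases hx : x ∈ M.E
          · rw [if_pos hx, hchi a b x hx]
          · rw [if_neg hx, chi_apply_notMem (fun h => hx h.1)]
        rw [h1]
        exact chi_mem_intCone ((hC _).2 ⟨a, b, ha, hb, hab, rfl⟩)
    | zero =>
      refine ⟨0, by simp, ?_⟩
      have h1 : (fun x => if x ∈ M.E then (0 : ℤ) - (0 : W4 → ℤ) (f x) else 0) = 0 := by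
        funext x
        split_ifs <;> simp
      rw [h1]
      exact zero_mem _
    | add v w _ _ h1 h2 =>
      obtain ⟨K1, k1, l1⟩ := h1
      obtain ⟨K2, k2, l2⟩ := h2
      refine ⟨K1 + K2, ?_, ?_⟩
      · simp only [Pi.add_apply, Finset.sum_add_distrib, k1, k2]; ring
      · have h3 : (fun x => if x ∈ M.E then K1 + K2 - (v + w) (f x) else 0) =
            (fun x => if x ∈ M.E then K1 - v (f x) else 0) +
            fun x => if x ∈ M.E then K2 - w (f x) else 0 := by
          funext x
          by_cases hx : x ∈ M.E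
          · simp only [Pi.add_apply, if_pos hx]; ring
          · simp only [Pi.add_apply, if_neg hx, add_zero]
        rw [h3]
        exact add_mem l1 l2
  obtain ⟨K, k1, k2⟩ := hback D hmem
  have hKN : K = N := by
    rw [b1] at k1
    linarith
  rw [hKN] at k2
  have hpe : p = fun x => if x ∈ M.E then N - D (f x) else 0 := by
    funext x
    by_cases hx : x ∈ M.E
    · rw [if_pos hx, d1 x hx]
    · rw [if_neg hx, lat_support hp hx]
  rw [hpe]
  exact k2

end Pool.Agent.helper25.PV
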