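import Pool.Agent.helper25.PW.Main4
import Pool.Agent.helper25.PW.PG4d

set_option autoImplicit false
set_option linter.unusedSectionVars false
set_option linter.unusedVariables false

/-!
# Project PW: the classification of the paving matroids of rank at least four
-/

namespace Pool.Agent.helper25.PV

open Finset Pool.Agent.helper9.HB49

variable {α : Type*} {M : Matroid α} [M.Finite] {r : ℕ}

theorem Pv.main5 (h : Pv M r) (h4 : 4 ≤ r) (hA : ¬ AGT M 4) :
    CircuitsHilbert M ↔ M.E.ncard ≤ r + 2 ∨ TU M r ∨ TC M r ∨ TS M r ∨ AG23 M ∨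
      PGT M 3 ∨ AGT M 3 ∨ PGT M 4 := by
  classical
  constructor
  · intro hH
    rcases h.necess4 h4 hH with h1 | h1 | h1 | h1 | h1 | h1 | h1 | h1 | h1
    · exact Or.inl h1
    · exact Or.inr (Or.inl h1)
    · exact Or.inr (Or.inr (Or.inl h1))
    · exact Or.inr (Or.inr (Or.inr (Or.inl h1)))
    · exact Or.inr (Or.inr (Or.inr (Or.inr (Or.inl h1))))
    · exact Or.inr (Or.inr (Or.inr (Or.inr (Or.inr (Or.inl h1)))))
    · exact Or.inr (Or.inr (Or.inr (Or.inr (Or.inr (Or.inr (Or.inl h1))))))
    · exact Or.inr (Or.inr (Or.inr (Or.inr (Or.inr (Or.inr (Or.inr h1))))))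
    · exact absurd h1 hA
  · have hrk : rk M M.E = r := by
      have h8 : (rk M M.E : ℕ∞) = r := by rw [cast_rk, M.eRk_ground, h.rank]
      exact_mod_cast h8
    rintro (h1 | h1 | h1 | h1 | h1 | h1 | h1 | h1)
    · exact corank_two (by rw [hrk]; exact h1)
    · exact h1.hilbert
    · exact h1.hilbert (by omega)
    · exact h1.hilbert (by omega)
    · exact h1.hilbert
    · exact h1.hilbert
    · exact h1.hilbert
    · exact h1.hilbert4

end Pool.Agent.helper25.PV
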