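import Pool.Agent.helper25.PW.PGcore

set_option autoImplicit false
set_option linter.unusedSectionVars false
set_option linter.unusedVariables false

/-!
# Project PW: multisets of points of the projective space of dimension three over the field with
two elements
-/

namespace Pool.Agent.helper25.PV

open Finset

/-- the vector space -/
abbrev W4 : Type := Fin 4 → ZMod 2

theorem univW : (univ : Finset W4) = {![0, 0, 0, 0], ![1, 0, 0, 0], ![0, 1, 0, 0], ![1, 1, 0, 0], ![0, 0, 1, 0], ![1, 0, 1, 0], ![0, 1, 1, 0], ![1, 1, 1, 0], ![0, 0, 0, 1], ![1, 0, 0, 1], ![0, 1, 0, 1], ![1, 1, 0, 1], ![0, 0, 1, 1], ![1, 0, 1, 1], ![0, 1, 1, 1], ![1, 1, 1, 1]} := by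
  decide +kernel

theorem sumW {A : Type*} [AddCommMonoid A] (F : W4 → A) : ∑ v, F v =
    F ![0, 0, 0, 0] + (F ![1, 0, 0, 0] + (F ![0, 1, 0, 0] + (F ![1, 1, 0, 0] + (F ![0, 0, 1, 0] + (F ![1, 0, 1, 0] + (F ![0, 1, 1, 0] + (F ![1, 1, 1, 0] + (F ![0, 0, 0, 1] + (F ![1, 0, 0, 1] + (F ![0, 1, 0, 1] + (F ![1, 1, 0, 1] + (F ![0, 0, 1, 1] + (F ![1, 0, 1, 1] + (F ![0, 1, 1, 1] + (F ![1, 1, 1, 1]))))))))))))))) := by
  rw [univW]
  rw [sum_insert (by decide +kernel)]
  rw [sum_insert (by decide +kernel)]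
  rw [sum_insert (by decide +kernel)]
  rw [sum_insert (by decide +kernel)]
  rw [sum_insert (by decide +kernel)]
  rw [sum_insert (by decide +kernel)]
  rw [sum_insert (by decide +kernel)]
  rw [sum_insert (by decide +kernel)]
  rw [sum_insert (by decide +kernel)]
  rw [sum_insert (by decide +kernel)]
  rw [sum_insert (by decide +kernel)]
  rw [sum_insert (by decide +kernel)]
  rw [sum_insert (by decide +kernel)]
  rw [sum_insert (by decide +kernel)]
  rw [sum_insert (by decide +kernel)]
  rw [sum_singleton]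

theorem forallW {P : W4 → Prop} (h0 : P ![0, 0, 0, 0]) (h1 : P ![1, 0, 0, 0]) (h2 : P ![0, 1, 0, 0]) (h3 : P ![1, 1, 0, 0]) (h4 : P ![0, 0, 1, 0]) (h5 : P ![1, 0, 1, 0]) (h6 : P ![0, 1, 1, 0]) (h7 : P ![1, 1, 1, 0]) (h8 : P ![0, 0, 0, 1]) (h9 : P ![1, 0, 0, 1]) (h10 : P ![0, 1, 0, 1]) (h11 : P ![1, 1, 0, 1]) (h12 : P ![0, 0, 1, 1]) (h13 : P ![1, 0, 1, 1]) (h14 : P ![0, 1, 1, 1]) (h15 : P ![1, 1, 1, 1]) :
    ∀ v, P v := by
  intro v
  have h : v ∈ (univ : Finset W4) := mem_univ v
  rw [univW] at h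
  simp only [mem_insert, mem_singleton] at h
  rcases h with rfl | rfl | rfl | rfl | rfl | rfl | rfl | rfl | rfl | rfl | rfl | rfl | rfl | rfl | rfl | rfl
  · exact h0
  · exact h1
  · exact h2
  · exact h3
  · exact h4
  · exact h5
  · exact h6
  · exact h7
  · exact h8
  · exact h9
  · exact h10
  · exact h11
  · exact h12
  · exact h13
  · exact h14
  · exact h15

theorem z2 (a : ZMod 2) : a = 0 ∨ a = 1 := by
  revert a; decide

theorem W_add_self (v : W4) : v + v = 0 := by
  funext i
  exact CharTwo.add_self_eq_zero (v i)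

/-- the line through `p` and `q` -/
def lnv (p q : W4) : W4 → ℤ := fun v => if v = p ∨ v = q ∨ v = p + q then 1 else 0

/-- sums of lines -/
def Lsm : AddSubmonoid (W4 → ℤ) :=
  AddSubmonoid.closure {g | ∃ p q, p ≠ 0 ∧ q ≠ 0 ∧ p ≠ q ∧ g = lnv p q}

theorem lnv_mem {p q : W4} (hp : p ≠ 0) (hq : q ≠ 0) (hpq : p ≠ q) : lnv p q ∈ Lsm :=
  AddSubmonoid.subset_closure ⟨p, q, hp, hq, hpq, rfl⟩

/-- the weight outside a hyperplane -/
def out {A : Type*} [AddCommMonoid A] (D : W4 → A) (φ : W4 →+ ZMod 2) : A :=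
  ∑ v, if φ v = 1 then D v else 0

/-- the conditions -/
structure Cn (D : W4 → ℤ) (N : ℤ) : Prop where
  zero : D 0 = 0
  nn : ∀ v, 0 ≤ D v
  sum : ∑ v, D v = 3 * N
  hyp : ∀ φ : W4 →+ ZMod 2, φ ≠ 0 → ∃ e, out D φ = 2 * e ∧ e ≤ N ∧ ∀ p, φ p = 1 → D p ≤ e

theorem out_comp {A : Type*} [AddCommMonoid A] (D : W4 → A) (g : W4 ≃+ W4) (φ : W4 →+ ZMod 2) :
    out (fun v => D (g v)) φ = out D (φ.comp g.symm.toAddMonoidHom) := by
  unfold out
  rw [← Equiv.sum_comp g.toEquiv fun v => if (φ.comp g.symm.toAddMonoidHom) v = 1 then D v else 0]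
  refine sum_congr rfl fun v _ => ?_
  have h1 : (φ.comp g.symm.toAddMonoidHom) (g.toEquiv v) = φ v := by
    show φ (g.symm (g v)) = φ v
    rw [AddEquiv.symm_apply_apply]
  rw [h1]
  rfl

theorem comp_ne {g : W4 ≃+ W4} {φ : W4 →+ ZMod 2} (h : φ ≠ 0) :
    φ.comp g.symm.toAddMonoidHom ≠ 0 := by
  intro h1
  apply h
  refine DFunLike.ext _ _ fun v => ?_
  have h2 := DFunLike.congr_fun h1 (g v)
  have h3 : (φ.comp g.symm.toAddMonoidHom) (g v) = φ v := by
    show φ (g.symm (g v)) = φ v
    rw [AddEquiv.symm_apply_apply]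
  rw [h3] at h2
  exact h2

theorem Cn.comp {D : W4 → ℤ} {N : ℤ} (h : Cn D N) (g : W4 ≃+ W4) : Cn (fun v => D (g v)) N where
  zero := by
    show D (g 0) = 0
    rw [map_zero]; exact h.zero
  nn := fun v => h.nn _
  sum := by
    rw [← h.sum]
    exact Equiv.sum_comp g.toEquiv D
  hyp := by
    intro φ hφ
    obtain ⟨e, h1, h2, h3⟩ := h.hyp _ (comp_ne (g := g) hφ)
    refine ⟨e, ?_, h2, fun p hp => ?_⟩
    · rw [out_comp]; exact h1
    · apply h3
      show φ (g.symm (g p)) = 1
      rw [AddEquiv.symm_apply_apply]; exact hp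

theorem lnv_comp (p q : W4) (g : W4 ≃+ W4) :
    (fun v => lnv p q (g.symm v)) = lnv (g p) (g q) := by
  funext v
  unfold lnv
  have h : ∀ w, g.symm v = w ↔ v = g w := fun w => by
    rw [AddEquiv.symm_apply_eq]
  simp only [h, map_add]

theorem Lsm_comp {D : W4 → ℤ} (g : W4 ≃+ W4) (h : D ∈ Lsm) : (fun v => D (g.symm v)) ∈ Lsm := by
  induction h using AddSubmonoid.closure_induction with
  | mem v hv =>
    obtain ⟨p, q, hp, hq, hpq, rfl⟩ := hv
    rw [lnv_comp]
    exact lnv_mem (fun h1 => hp (by simpa using h1)) (fun h1 => hq (by simpa using h1))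
      (fun h1 => hpq (g.injective h1))
  | zero => exact zero_mem _
  | add v w _ _ h1 h2 => exact add_mem h1 h2

theorem Lsm_of_comp {D : W4 → ℤ} (g : W4 ≃+ W4) (h : (fun v => D (g v)) ∈ Lsm) : D ∈ Lsm := by
  have h1 := Lsm_comp g h
  simpa using h1

/-! ### coordinates -/

/-- the linear form with coefficients `h` -/
def phi (h : W4) : W4 →+ ZMod 2 where
  toFun v := h 0 * v 0 + h 1 * v 1 + h 2 * v 2 + h 3 * v 3
  map_zero' := by simp
  map_add' v w := by
    simp only [Pi.add_apply]
    ring

theorem phi_of (φ : W4 →+ ZMod 2) :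
    φ = phi ![φ ![1, 0, 0, 0], φ ![0, 1, 0, 0], φ ![0, 0, 1, 0], φ ![0, 0, 0, 1]] := by
  refine DFunLike.ext _ _ ?_
  have key : ∀ a b c d : ZMod 2, φ ![a, b, c, d] = φ ![1, 0, 0, 0] * a + φ ![0, 1, 0, 0] * b +
      φ ![0, 0, 1, 0] * c + φ ![0, 0, 0, 1] * d := by
    intro a b c d
    have h1 : (![a, b, c, d] : W4) = a.val • ![1, 0, 0, 0] + b.val • ![0, 1, 0, 0] +
        c.val • ![0, 0, 1, 0] + d.val • ![0, 0, 0, 1] := by
      revert a b c d; decide +kernel
    rw [h1, map_add, map_add, map_add, map_nsmul, map_nsmul, map_nsmul, map_nsmul]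
    simp only [nsmul_eq_mul, ZMod.natCast_val, ZMod.cast_id', id_eq]
    ring
  intro v
  have h2 : v = ![v 0, v 1, v 2, v 3] := by
    revert v; decide +kernel
  rw [h2, key]
  rfl

/-- the last unit vector -/
def e3 : W4 := ![0, 0, 0, 1]

/-- moving a nonzero vector to the last unit vector -/
theorem exists_g1 {p : W4} (hp : p ≠ 0) : ∃ g : W4 ≃+ W4, g e3 = p := by
  obtain ⟨j, hj⟩ : ∃ j, p j = 1 := by
    by_contra hcon
    push Not at hcon
    apply hp
    funext j
    exact (z2 (p j)).resolve_right (hcon j)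
  let T : W4 ≃+ W4 :=
    { toFun := fun v => v + (fun k => v j * (p k + if k = j then 1 else 0))
      invFun := fun v => v + (fun k => v j * (p k + if k = j then 1 else 0))
      left_inv := by
        intro v
        funext k
        simp only [Pi.add_apply, if_true, hj]
        have : (1 : ZMod 2) + 1 = 0 := by decide
        rw [this, mul_zero, add_zero, add_assoc, CharTwo.add_self_eq_zero, add_zero]
      right_inv := by
        intro v
        funext k
        simp only [Pi.add_apply, if_true, hj]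
        have : (1 : ZMod 2) + 1 = 0 := by decide
        rw [this, mul_zero, add_zero, add_assoc, CharTwo.add_self_eq_zero, add_zero]
      map_add' := by
        intro v w
        funext k
        simp only [Pi.add_apply]
        ring }
  let s : W4 ≃+ W4 :=
    { toFun := fun v => fun k => v (Equiv.swap j 3 k)
      invFun := fun v => fun k => v (Equiv.swap j 3 k)
      left_inv := by intro v; funext k; simp
      right_inv := by intro v; funext k; simp
      map_add' := by intro v w; rfl }
  refine ⟨s.trans T, ?_⟩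
  have h1 : s e3 = fun k => if k = j then 1 else 0 := by
    funext k
    show e3 (Equiv.swap j 3 k) = _
    have h2 : ∀ l : Fin 4, e3 l = if l = 3 then 1 else 0 := by decide
    rw [h2]
    congr 1
    apply propext
    rw [Equiv.swap_apply_eq_iff, Equiv.swap_apply_right]
  show T (s e3) = p
  rw [h1]
  funext k
  show (if k = j then (1 : ZMod 2) else 0) +
    (if j = j then (1 : ZMod 2) else 0) * (p k + if k = j then 1 else 0) = p k
  rw [if_pos rfl, one_mul, add_comm (p k), ← add_assoc, CharTwo.add_self_eq_zero, zero_add]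

/-- moving a pair -/
theorem exists_g2 {p : W4} {φ : W4 →+ ZMod 2} (hp : φ p = 1) :
    ∃ g : W4 ≃+ W4, g e3 = p ∧ ∀ v, φ (g v) = v 3 := by
  have hp0 : p ≠ 0 := by
    intro h
    rw [h, map_zero] at hp
    exact zero_ne_one hp
  obtain ⟨g, hg⟩ := exists_g1 hp0
  have hup : ∀ (v : W4) (c : ZMod 2), φ (g (Function.update v 3 c)) = φ (g v) + (c + v 3) := by
    intro v c
    have h1 : Function.update v 3 c = v + (c + v 3).val • e3 := by
      revert c v; decide +kernel
    rw [h1, map_add, map_add, map_nsmul, map_nsmul, hg, hp]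
    simp
  let τ : W4 ≃+ W4 :=
    { toFun := fun v => Function.update v 3 (φ (g v))
      invFun := fun v => Function.update v 3 (φ (g v))
      left_inv := by
        intro v
        have h1 : φ (g (Function.update v 3 (φ (g v)))) = v 3 := by
          rw [hup, ← add_assoc, CharTwo.add_self_eq_zero, zero_add]
        show Function.update (Function.update v 3 (φ (g v))) 3 _ = v
        rw [h1, Function.update_idem, Function.update_eq_self]
      right_inv := by
        intro v
        have h1 : φ (g (Function.update v 3 (φ (g v)))) = v 3 := by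
          rw [hup, ← add_assoc, CharTwo.add_self_eq_zero, zero_add]
        show Function.update (Function.update v 3 (φ (g v))) 3 _ = v
        rw [h1, Function.update_idem, Function.update_eq_self]
      map_add' := by
        intro v w
        rw [map_add, map_add]
        funext k
        by_cases hk : k = 3
        · rw [hk, Pi.add_apply, Function.update_self, Function.update_self, Function.update_self]
        · rw [Pi.add_apply, Function.update_of_ne hk, Function.update_of_ne hk,
            Function.update_of_ne hk, Pi.add_apply] }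
  refine ⟨τ.trans g, ?_, fun v => ?_⟩
  · show g (Function.update e3 3 (φ (g e3))) = p
    rw [hg, hp]
    have : Function.update e3 3 1 = e3 := by decide
    rw [this, hg]
  · show φ (g (Function.update v 3 (φ (g v)))) = v 3
    rw [hup, ← add_assoc, CharTwo.add_self_eq_zero, zero_add]

end Pool.Agent.helper25.PV
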