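import Pool.Agent.helper25.PW.PG4a

set_option autoImplicit false
set_option linter.unusedSectionVars false
set_option linter.unusedVariables false

/-!
# Project PW: multisets of points of the projective space of dimension three over the field with
two elements are sums of lines
-/

namespace Pool.Agent.helper25.PV

open Finset

theorem outa1 (D : W4 → ℤ) : out D (phi ![1, 0, 0, 0]) =
    (D ![1, 0, 0, 0] + D ![1, 0, 0, 1]) + (D ![1, 1, 0, 0] + D ![1, 1, 0, 1]) + (D ![1, 0, 1, 0] + D ![1, 0, 1, 1]) + (D ![1, 1, 1, 0] + D ![1, 1, 1, 1]) := by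
  unfold out
  rw [sumW]
  simp (decide := true) only [↓reduceIte]
  ring

theorem outa2 (D : W4 → ℤ) : out D (phi ![0, 1, 0, 0]) =
    (D ![0, 1, 0, 0] + D ![0, 1, 0, 1]) + (D ![1, 1, 0, 0] + D ![1, 1, 0, 1]) + (D ![0, 1, 1, 0] + D ![0, 1, 1, 1]) + (D ![1, 1, 1, 0] + D ![1, 1, 1, 1]) := by
  unfold out
  rw [sumW]
  simp (decide := true) only [↓reduceIte]
  ring

theorem outa3 (D : W4 → ℤ) : out D (phi ![1, 1, 0, 0]) =
    (D ![1, 0, 0, 0] + D ![1, 0, 0, 1]) + (D ![0, 1, 0, 0] + D ![0, 1, 0, 1]) + (D ![1, 0, 1, 0] + D ![1, 0, 1, 1]) + (D ![0, 1, 1, 0] + D ![0, 1, 1, 1]) := by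
  unfold out
  rw [sumW]
  simp (decide := true) only [↓reduceIte]
  ring

theorem outa4 (D : W4 → ℤ) : out D (phi ![0, 0, 1, 0]) =
    (D ![0, 0, 1, 0] + D ![0, 0, 1, 1]) + (D ![1, 0, 1, 0] + D ![1, 0, 1, 1]) + (D ![0, 1, 1, 0] + D ![0, 1, 1, 1]) + (D ![1, 1, 1, 0] + D ![1, 1, 1, 1]) := by
  unfold out
  rw [sumW]
  simp (decide := true) only [↓reduceIte]
  ring

theorem outa5 (D : W4 → ℤ) : out D (phi ![1, 0, 1, 0]) =
    (D ![1, 0, 0, 0] + D ![1, 0, 0, 1]) + (D ![1, 1, 0, 0] + D ![1, 1, 0, 1]) + (D ![0, 0, 1, 0] + D ![0, 0, 1, 1]) + (D ![0, 1, 1, 0] + D ![0, 1, 1, 1]) := by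
  unfold out
  rw [sumW]
  simp (decide := true) only [↓reduceIte]
  ring

theorem outa6 (D : W4 → ℤ) : out D (phi ![0, 1, 1, 0]) =
    (D ![0, 1, 0, 0] + D ![0, 1, 0, 1]) + (D ![1, 1, 0, 0] + D ![1, 1, 0, 1]) + (D ![0, 0, 1, 0] + D ![0, 0, 1, 1]) + (D ![1, 0, 1, 0] + D ![1, 0, 1, 1]) := by
  unfold out
  rw [sumW]
  simp (decide := true) only [↓reduceIte]
  ring

theorem outa7 (D : W4 → ℤ) : out D (phi ![1, 1, 1, 0]) =
    (D ![1, 0, 0, 0] + D ![1, 0, 0, 1]) + (D ![0, 1, 0, 0] + D ![0, 1, 0, 1]) + (D ![0, 0, 1, 0] + D ![0, 0, 1, 1]) + (D ![1, 1, 1, 0] + D ![1, 1, 1, 1]) := by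
  unfold out
  rw [sumW]
  simp (decide := true) only [↓reduceIte]
  ring

theorem outb0 (D : W4 → ℤ) : out D (phi ![0, 0, 0, 1]) =
    D ![0, 0, 0, 1] + D ![1, 0, 0, 1] + D ![0, 1, 0, 1] + D ![1, 1, 0, 1] + D ![0, 0, 1, 1] + D ![1, 0, 1, 1] + D ![0, 1, 1, 1] + D ![1, 1, 1, 1] := by
  unfold out
  rw [sumW]
  simp (decide := true) only [↓reduceIte]
  ring

theorem outb1 (D : W4 → ℤ) : out D (phi ![1, 0, 0, 1]) =
    D ![0, 0, 0, 1] + D ![1, 0, 0, 0] + D ![0, 1, 0, 1] + D ![1, 1, 0, 0] + D ![0, 0, 1, 1] + D ![1, 0, 1, 0] + D ![0, 1, 1, 1] + D ![1, 1, 1, 0] := by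
  unfold out
  rw [sumW]
  simp (decide := true) only [↓reduceIte]
  ring

theorem outb2 (D : W4 → ℤ) : out D (phi ![0, 1, 0, 1]) =
    D ![0, 0, 0, 1] + D ![1, 0, 0, 1] + D ![0, 1, 0, 0] + D ![1, 1, 0, 0] + D ![0, 0, 1, 1] + D ![1, 0, 1, 1] + D ![0, 1, 1, 0] + D ![1, 1, 1, 0] := by
  unfold out
  rw [sumW]
  simp (decide := true) only [↓reduceIte]
  ring

theorem outb3 (D : W4 → ℤ) : out D (phi ![1, 1, 0, 1]) =
    D ![0, 0, 0, 1] + D ![1, 0, 0, 0] + D ![0, 1, 0, 0] + D ![1, 1, 0, 1] + D ![0, 0, 1, 1] + D ![1, 0, 1, 0] + D ![0, 1, 1, 0] + D ![1, 1, 1, 1] := by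
  unfold out
  rw [sumW]
  simp (decide := true) only [↓reduceIte]
  ring

theorem outb4 (D : W4 → ℤ) : out D (phi ![0, 0, 1, 1]) =
    D ![0, 0, 0, 1] + D ![1, 0, 0, 1] + D ![0, 1, 0, 1] + D ![1, 1, 0, 1] + D ![0, 0, 1, 0] + D ![1, 0, 1, 0] + D ![0, 1, 1, 0] + D ![1, 1, 1, 0] := by
  unfold out
  rw [sumW]
  simp (decide := true) only [↓reduceIte]
  ring

theorem outb5 (D : W4 → ℤ) : out D (phi ![1, 0, 1, 1]) =
    D ![0, 0, 0, 1] + D ![1, 0, 0, 0] + D ![0, 1, 0, 1] + D ![1, 1, 0, 0] + D ![0, 0, 1, 0] + D ![1, 0, 1, 1] + D ![0, 1, 1, 0] + D ![1, 1, 1, 1] := by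
  unfold out
  rw [sumW]
  simp (decide := true) only [↓reduceIte]
  ring

theorem outb6 (D : W4 → ℤ) : out D (phi ![0, 1, 1, 1]) =
    D ![0, 0, 0, 1] + D ![1, 0, 0, 1] + D ![0, 1, 0, 0] + D ![1, 1, 0, 0] + D ![0, 0, 1, 0] + D ![1, 0, 1, 0] + D ![0, 1, 1, 1] + D ![1, 1, 1, 1] := by
  unfold out
  rw [sumW]
  simp (decide := true) only [↓reduceIte]
  ring

theorem outb7 (D : W4 → ℤ) : out D (phi ![1, 1, 1, 1]) =
    D ![0, 0, 0, 1] + D ![1, 0, 0, 0] + D ![0, 1, 0, 0] + D ![1, 1, 0, 1] + D ![0, 0, 1, 0] + D ![1, 0, 1, 1] + D ![0, 1, 1, 1] + D ![1, 1, 1, 0] := by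
  unfold out
  rw [sumW]
  simp (decide := true) only [↓reduceIte]
  ring

theorem Lsm_smul {c : ℤ} (hc : 0 ≤ c) {f : W4 → ℤ} (hf : f ∈ Lsm) : (fun v => c * f v) ∈ Lsm := by
  have h1 : (fun v => c * f v) = c.toNat • f := by
    funext v
    rw [Pi.smul_apply, nsmul_eq_mul, Int.toNat_of_nonneg hc]
  rw [h1]
  exact AddSubmonoid.nsmul_mem _ hf _

theorem sum_explicit {D : W4 → ℤ} {N : ℤ} (h : Cn D N) :
    D ![0, 0, 0, 1] + (D ![1, 0, 0, 0] + D ![1, 0, 0, 1]) + (D ![0, 1, 0, 0] + D ![0, 1, 0, 1]) + (D ![1, 1, 0, 0] + D ![1, 1, 0, 1]) + (D ![0, 0, 1, 0] + D ![0, 0, 1, 1]) + (D ![1, 0, 1, 0] + D ![1, 0, 1, 1]) + (D ![0, 1, 1, 0] + D ![0, 1, 1, 1]) + (D ![1, 1, 1, 0] + D ![1, 1, 1, 1]) = 3 * N := by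
  rw [← h.sum, sumW]
  have h0 : D ![0, 0, 0, 0] = 0 := by
    rw [← h.zero]
    exact congrArg D (by decide)
  rw [h0]
  ring

/-- a tight pair -/
theorem Cn.tight {D : W4 → ℤ} {N : ℤ} (h : Cn D N) (ht : out D (phi ![0, 0, 0, 1]) = 2 * D ![0, 0, 0, 1]) :
    D ∈ Lsm := by
  have hs := sum_explicit h
  have h0 : D ![0, 0, 0, 0] = 0 := by
    rw [← h.zero]
    exact congrArg D (by decide)
  rw [outb0] at ht
  obtain ⟨e1, f1, g1, -⟩ := h.hyp (phi ![1, 0, 0, 1]) (by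
    intro h1
    have h2 := DFunLike.congr_fun h1 ![0, 0, 0, 1]
    revert h2; decide)
  rw [outb1] at f1
  obtain ⟨e2, f2, g2, -⟩ := h.hyp (phi ![0, 1, 0, 1]) (by
    intro h1
    have h2 := DFunLike.congr_fun h1 ![0, 0, 0, 1]
    revert h2; decide)
  rw [outb2] at f2
  obtain ⟨e3, f3, g3, -⟩ := h.hyp (phi ![1, 1, 0, 1]) (by
    intro h1
    have h2 := DFunLike.congr_fun h1 ![0, 0, 0, 1]
    revert h2; decide)
  rw [outb3] at f3
  obtain ⟨e4, f4, g4, -⟩ := h.hyp (phi ![0, 0, 1, 1]) (by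
    intro h1
    have h2 := DFunLike.congr_fun h1 ![0, 0, 0, 1]
    revert h2; decide)
  rw [outb4] at f4
  obtain ⟨e5, f5, g5, -⟩ := h.hyp (phi ![1, 0, 1, 1]) (by
    intro h1
    have h2 := DFunLike.congr_fun h1 ![0, 0, 0, 1]
    revert h2; decide)
  rw [outb5] at f5
  obtain ⟨e6, f6, g6, -⟩ := h.hyp (phi ![0, 1, 1, 1]) (by
    intro h1
    have h2 := DFunLike.congr_fun h1 ![0, 0, 0, 1]
    revert h2; decide)
  rw [outb6] at f6
  obtain ⟨e7, f7, g7, -⟩ := h.hyp (phi ![1, 1, 1, 1]) (by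
    intro h1
    have h2 := DFunLike.congr_fun h1 ![0, 0, 0, 1]
    revert h2; decide)
  rw [outb7] at f7
  have key : D = (fun v => D ![1, 0, 0, 1] * lnv ![0, 0, 0, 1] ![1, 0, 0, 0] v) +
    (fun v => D ![0, 1, 0, 1] * lnv ![0, 0, 0, 1] ![0, 1, 0, 0] v) +
    (fun v => D ![1, 1, 0, 1] * lnv ![0, 0, 0, 1] ![1, 1, 0, 0] v) +
    (fun v => D ![0, 0, 1, 1] * lnv ![0, 0, 0, 1] ![0, 0, 1, 0] v) +
    (fun v => D ![1, 0, 1, 1] * lnv ![0, 0, 0, 1] ![1, 0, 1, 0] v) +
    (fun v => D ![0, 1, 1, 1] * lnv ![0, 0, 0, 1] ![0, 1, 1, 0] v) +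
    (fun v => D ![1, 1, 1, 1] * lnv ![0, 0, 0, 1] ![1, 1, 1, 0] v) +
    (fun v => (N - e1) * lnv ![0, 1, 0, 0] ![0, 0, 1, 0] v) +
    (fun v => (N - e2) * lnv ![1, 0, 0, 0] ![0, 0, 1, 0] v) +
    (fun v => (N - e3) * lnv ![1, 1, 0, 0] ![0, 0, 1, 0] v) +
    (fun v => (N - e4) * lnv ![1, 0, 0, 0] ![0, 1, 0, 0] v) +
    (fun v => (N - e5) * lnv ![0, 1, 0, 0] ![1, 0, 1, 0] v) +
    (fun v => (N - e6) * lnv ![1, 0, 0, 0] ![0, 1, 1, 0] v) +
    (fun v => (N - e7) * lnv ![1, 1, 0, 0] ![1, 0, 1, 0] v) := by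
    funext v
    revert v
    apply forallW <;> simp (decide := true) only [Pi.add_apply, lnv, ↓reduceIte, mul_one, mul_zero,
      add_zero, zero_add] <;> linarith
  rw [key]
  refine add_mem (add_mem (add_mem (add_mem (add_mem (add_mem (add_mem (add_mem (add_mem (add_mem (add_mem (add_mem (add_mem (Lsm_smul (h.nn _) (lnv_mem (by decide) (by decide) (by decide)))
    (Lsm_smul (h.nn _) (lnv_mem (by decide) (by decide) (by decide))))
    (Lsm_smul (h.nn _) (lnv_mem (by decide) (by decide) (by decide))))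
    (Lsm_smul (h.nn _) (lnv_mem (by decide) (by decide) (by decide))))
    (Lsm_smul (h.nn _) (lnv_mem (by decide) (by decide) (by decide))))
    (Lsm_smul (h.nn _) (lnv_mem (by decide) (by decide) (by decide))))
    (Lsm_smul (h.nn _) (lnv_mem (by decide) (by decide) (by decide))))
    (Lsm_smul (by linarith only [g1]) (lnv_mem (by decide) (by decide) (by decide))))
    (Lsm_smul (by linarith only [g2]) (lnv_mem (by decide) (by decide) (by decide))))
    (Lsm_smul (by linarith only [g3]) (lnv_mem (by decide) (by decide) (by decide))))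
    (Lsm_smul (by linarith only [g4]) (lnv_mem (by decide) (by decide) (by decide))))
    (Lsm_smul (by linarith only [g5]) (lnv_mem (by decide) (by decide) (by decide))))
    (Lsm_smul (by linarith only [g6]) (lnv_mem (by decide) (by decide) (by decide))))
    (Lsm_smul (by linarith only [g7]) (lnv_mem (by decide) (by decide) (by decide)))

theorem phi_ne {h : W4} (hh : h ≠ 0) : phi h ≠ 0 := by
  intro h1
  apply hh
  funext k
  have h2 := DFunLike.congr_fun h1 (Pi.single k 1)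
  revert h2
  revert k h
  decide +kernel

/-- the explicit form of the good line -/
theorem Cn.good_aux {D : W4 → ℤ} {N : ℤ} (h : Cn D N) (hm : 0 < D e3) (hmax : ∀ v, D v ≤ D e3)
    (hst : ∀ φ : W4 →+ ZMod 2, φ e3 = 1 → 2 * D e3 < out D φ) :
    ∃ q, q ≠ 0 ∧ e3 ≠ q ∧ 0 < D q ∧ 0 < D (e3 + q) ∧
      ∀ φ : W4 →+ ZMod 2, φ ≠ 0 → φ e3 = 0 → φ q = 0 → out D φ < 2 * N := by
  by_contra hcon
  push Not at hcon
  have hs := sum_explicit h
  have hle : ∀ k : W4, k ≠ 0 → out D (phi k) ≤ 2 * N := by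
    intro k hk
    obtain ⟨e, h1, h2, -⟩ := h.hyp _ (phi_ne hk)
    rw [h1]; linarith only [h2]
  have a1 := hle ![1, 0, 0, 0] (by decide)
  rw [outa1] at a1
  have a2 := hle ![0, 1, 0, 0] (by decide)
  rw [outa2] at a2
  have a3 := hle ![1, 1, 0, 0] (by decide)
  rw [outa3] at a3
  have a4 := hle ![0, 0, 1, 0] (by decide)
  rw [outa4] at a4
  have a5 := hle ![1, 0, 1, 0] (by decide)
  rw [outa5] at a5
  have a6 := hle ![0, 1, 1, 0] (by decide)
  rw [outa6] at a6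
  have a7 := hle ![1, 1, 1, 0] (by decide)
  rw [outa7] at a7
  have b0 := hle ![0, 0, 0, 1] (by decide)
  rw [outb0] at b0
  have c0 := hst (phi ![0, 0, 0, 1]) (by decide)
  rw [outb0] at c0
  have b1 := hle ![1, 0, 0, 1] (by decide)
  rw [outb1] at b1
  have c1 := hst (phi ![1, 0, 0, 1]) (by decide)
  rw [outb1] at c1
  have b2 := hle ![0, 1, 0, 1] (by decide)
  rw [outb2] at b2
  have c2 := hst (phi ![0, 1, 0, 1]) (by decide)
  rw [outb2] at c2
  have b3 := hle ![1, 1, 0, 1] (by decide)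
  rw [outb3] at b3
  have c3 := hst (phi ![1, 1, 0, 1]) (by decide)
  rw [outb3] at c3
  have b4 := hle ![0, 0, 1, 1] (by decide)
  rw [outb4] at b4
  have c4 := hst (phi ![0, 0, 1, 1]) (by decide)
  rw [outb4] at c4
  have b5 := hle ![1, 0, 1, 1] (by decide)
  rw [outb5] at b5
  have c5 := hst (phi ![1, 0, 1, 1]) (by decide)
  rw [outb5] at c5
  have b6 := hle ![0, 1, 1, 1] (by decide)
  rw [outb6] at b6
  have c6 := hst (phi ![0, 1, 1, 1]) (by decide)
  rw [outb6] at c6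
  have b7 := hle ![1, 1, 1, 1] (by decide)
  rw [outb7] at b7
  have c7 := hst (phi ![1, 1, 1, 1]) (by decide)
  rw [outb7] at c7
  have key : ∀ q : W4, q ≠ 0 → e3 ≠ q → (∀ φ : W4 →+ ZMod 2, φ ≠ 0 → φ e3 = 0 → φ q = 0 →
      out D φ < 2 * N) → D q = 0 ∨ D (e3 + q) = 0 := by
    intro q h1 h2 h3
    by_contra h4
    push Not at h4
    have h5 := lt_of_le_of_ne (h.nn q) (Ne.symm h4.1)
    have h6 := lt_of_le_of_ne (h.nn (e3 + q)) (Ne.symm h4.2)
    obtain ⟨φ, k1, k2, k3, k4⟩ := hcon q h1 h2 h5 h6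
    have := h3 φ k1 k2 k3
    linarith only [this, k4]
  have k1 : (D ![0, 1, 0, 0] + D ![0, 1, 0, 1]) + (D ![1, 1, 0, 0] + D ![1, 1, 0, 1]) + (D ![0, 1, 1, 0] + D ![0, 1, 1, 1]) + (D ![1, 1, 1, 0] + D ![1, 1, 1, 1]) < 2 * N → (D ![0, 0, 1, 0] + D ![0, 0, 1, 1]) + (D ![1, 0, 1, 0] + D ![1, 0, 1, 1]) + (D ![0, 1, 1, 0] + D ![0, 1, 1, 1]) + (D ![1, 1, 1, 0] + D ![1, 1, 1, 1]) < 2 * N → (D ![0, 1, 0, 0] + D ![0, 1, 0, 1]) + (D ![1, 1, 0, 0] + D ![1, 1, 0, 1]) + (D ![0, 0, 1, 0] + D ![0, 0, 1, 1]) + (D ![1, 0, 1, 0] + D ![1, 0, 1, 1]) < 2 * N →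
      D ![1, 0, 0, 0] = 0 ∨ D ![1, 0, 0, 1] = 0 := by
    intro t2 t4 t6
    rw [← outa2] at t2
    rw [← outa4] at t4
    rw [← outa6] at t6
    have h1 := key ![1, 0, 0, 0] (by decide) (by decide) (by
      intro φ
      rw [phi_of φ]
      generalize ((![φ ![1, 0, 0, 0], φ ![0, 1, 0, 0], φ ![0, 0, 1, 0], φ ![0, 0, 0, 1]] : W4)) = k
      revert k
      apply forallW
      · intro h1; exact absurd (DFunLike.ext _ _ (by decide)) h1
      · intro _ _ h1; exact absurd h1 (by decide)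
      · intro _ _ _; exact t2
      · intro _ _ h1; exact absurd h1 (by decide)
      · intro _ _ _; exact t4
      · intro _ _ h1; exact absurd h1 (by decide)
      · intro _ _ _; exact t6
      · intro _ _ h1; exact absurd h1 (by decide)
      · intro _ h1; exact absurd h1 (by decide)
      · intro _ h1; exact absurd h1 (by decide)
      · intro _ h1; exact absurd h1 (by decide)
      · intro _ h1; exact absurd h1 (by decide)
      · intro _ h1; exact absurd h1 (by decide)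
      · intro _ h1; exact absurd h1 (by decide)
      · intro _ h1; exact absurd h1 (by decide)
      · intro _ h1; exact absurd h1 (by decide)
      )
    have h2 : e3 + ![1, 0, 0, 0] = ![1, 0, 0, 1] := by decide
    rw [h2] at h1
    exact h1
  have k2 : (D ![1, 0, 0, 0] + D ![1, 0, 0, 1]) + (D ![1, 1, 0, 0] + D ![1, 1, 0, 1]) + (D ![1, 0, 1, 0] + D ![1, 0, 1, 1]) + (D ![1, 1, 1, 0] + D ![1, 1, 1, 1]) < 2 * N → (D ![0, 0, 1, 0] + D ![0, 0, 1, 1]) + (D ![1, 0, 1, 0] + D ![1, 0, 1, 1]) + (D ![0, 1, 1, 0] + D ![0, 1, 1, 1]) + (D ![1, 1, 1, 0] + D ![1, 1, 1, 1]) < 2 * N → (D ![1, 0, 0, 0] + D ![1, 0, 0, 1]) + (D ![1, 1, 0, 0] + D ![1, 1, 0, 1]) + (D ![0, 0, 1, 0] + D ![0, 0, 1, 1]) + (D ![0, 1, 1, 0] + D ![0, 1, 1, 1]) < 2 * N →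
      D ![0, 1, 0, 0] = 0 ∨ D ![0, 1, 0, 1] = 0 := by
    intro t1 t4 t5
    rw [← outa1] at t1
    rw [← outa4] at t4
    rw [← outa5] at t5
    have h1 := key ![0, 1, 0, 0] (by decide) (by decide) (by
      intro φ
      rw [phi_of φ]
      generalize ((![φ ![1, 0, 0, 0], φ ![0, 1, 0, 0], φ ![0, 0, 1, 0], φ ![0, 0, 0, 1]] : W4)) = k
      revert k
      apply forallW
      · intro h1; exact absurd (DFunLike.ext _ _ (by decide)) h1
      · intro _ _ _; exact t1
      · intro _ _ h1; exact absurd h1 (by decide)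
      · intro _ _ h1; exact absurd h1 (by decide)
      · intro _ _ _; exact t4
      · intro _ _ _; exact t5
      · intro _ _ h1; exact absurd h1 (by decide)
      · intro _ _ h1; exact absurd h1 (by decide)
      · intro _ h1; exact absurd h1 (by decide)
      · intro _ h1; exact absurd h1 (by decide)
      · intro _ h1; exact absurd h1 (by decide)
      · intro _ h1; exact absurd h1 (by decide)
      · intro _ h1; exact absurd h1 (by decide)
      · intro _ h1; exact absurd h1 (by decide)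
      · intro _ h1; exact absurd h1 (by decide)
      · intro _ h1; exact absurd h1 (by decide)
      )
    have h2 : e3 + ![0, 1, 0, 0] = ![0, 1, 0, 1] := by decide
    rw [h2] at h1
    exact h1
  have k3 : (D ![1, 0, 0, 0] + D ![1, 0, 0, 1]) + (D ![0, 1, 0, 0] + D ![0, 1, 0, 1]) + (D ![1, 0, 1, 0] + D ![1, 0, 1, 1]) + (D ![0, 1, 1, 0] + D ![0, 1, 1, 1]) < 2 * N → (D ![0, 0, 1, 0] + D ![0, 0, 1, 1]) + (D ![1, 0, 1, 0] + D ![1, 0, 1, 1]) + (D ![0, 1, 1, 0] + D ![0, 1, 1, 1]) + (D ![1, 1, 1, 0] + D ![1, 1, 1, 1]) < 2 * N → (D ![1, 0, 0, 0] + D ![1, 0, 0, 1]) + (D ![0, 1, 0, 0] + D ![0, 1, 0, 1]) + (D ![0, 0, 1, 0] + D ![0, 0, 1, 1]) + (D ![1, 1, 1, 0] + D ![1, 1, 1, 1]) < 2 * N →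
      D ![1, 1, 0, 0] = 0 ∨ D ![1, 1, 0, 1] = 0 := by
    intro t3 t4 t7
    rw [← outa3] at t3
    rw [← outa4] at t4
    rw [← outa7] at t7
    have h1 := key ![1, 1, 0, 0] (by decide) (by decide) (by
      intro φ
      rw [phi_of φ]
      generalize ((![φ ![1, 0, 0, 0], φ ![0, 1, 0, 0], φ ![0, 0, 1, 0], φ ![0, 0, 0, 1]] : W4)) = k
      revert k
      apply forallW
      · intro h1; exact absurd (DFunLike.ext _ _ (by decide)) h1
      · intro _ _ h1; exact absurd h1 (by decide)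
      · intro _ _ h1; exact absurd h1 (by decide)
      · intro _ _ _; exact t3
      · intro _ _ _; exact t4
      · intro _ _ h1; exact absurd h1 (by decide)
      · intro _ _ h1; exact absurd h1 (by decide)
      · intro _ _ _; exact t7
      · intro _ h1; exact absurd h1 (by decide)
      · intro _ h1; exact absurd h1 (by decide)
      · intro _ h1; exact absurd h1 (by decide)
      · intro _ h1; exact absurd h1 (by decide)
      · intro _ h1; exact absurd h1 (by decide)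
      · intro _ h1; exact absurd h1 (by decide)
      · intro _ h1; exact absurd h1 (by decide)
      · intro _ h1; exact absurd h1 (by decide)
      )
    have h2 : e3 + ![1, 1, 0, 0] = ![1, 1, 0, 1] := by decide
    rw [h2] at h1
    exact h1
  have k4 : (D ![1, 0, 0, 0] + D ![1, 0, 0, 1]) + (D ![1, 1, 0, 0] + D ![1, 1, 0, 1]) + (D ![1, 0, 1, 0] + D ![1, 0, 1, 1]) + (D ![1, 1, 1, 0] + D ![1, 1, 1, 1]) < 2 * N → (D ![0, 1, 0, 0] + D ![0, 1, 0, 1]) + (D ![1, 1, 0, 0] + D ![1, 1, 0, 1]) + (D ![0, 1, 1, 0] + D ![0, 1, 1, 1]) + (D ![1, 1, 1, 0] + D ![1, 1, 1, 1]) < 2 * N → (D ![1, 0, 0, 0] + D ![1, 0, 0, 1]) + (D ![0, 1, 0, 0] + D ![0, 1, 0, 1]) + (D ![1, 0, 1, 0] + D ![1, 0, 1, 1]) + (D ![0, 1, 1, 0] + D ![0, 1, 1, 1]) < 2 * N →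
      D ![0, 0, 1, 0] = 0 ∨ D ![0, 0, 1, 1] = 0 := by
    intro t1 t2 t3
    rw [← outa1] at t1
    rw [← outa2] at t2
    rw [← outa3] at t3
    have h1 := key ![0, 0, 1, 0] (by decide) (by decide) (by
      intro φ
      rw [phi_of φ]
      generalize ((![φ ![1, 0, 0, 0], φ ![0, 1, 0, 0], φ ![0, 0, 1, 0], φ ![0, 0, 0, 1]] : W4)) = k
      revert k
      apply forallW
      · intro h1; exact absurd (DFunLike.ext _ _ (by decide)) h1
      · intro _ _ _; exact t1
      · intro _ _ _; exact t2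
      · intro _ _ _; exact t3
      · intro _ _ h1; exact absurd h1 (by decide)
      · intro _ _ h1; exact absurd h1 (by decide)
      · intro _ _ h1; exact absurd h1 (by decide)
      · intro _ _ h1; exact absurd h1 (by decide)
      · intro _ h1; exact absurd h1 (by decide)
      · intro _ h1; exact absurd h1 (by decide)
      · intro _ h1; exact absurd h1 (by decide)
      · intro _ h1; exact absurd h1 (by decide)
      · intro _ h1; exact absurd h1 (by decide)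
      · intro _ h1; exact absurd h1 (by decide)
      · intro _ h1; exact absurd h1 (by decide)
      · intro _ h1; exact absurd h1 (by decide)
      )
    have h2 : e3 + ![0, 0, 1, 0] = ![0, 0, 1, 1] := by decide
    rw [h2] at h1
    exact h1
  have k5 : (D ![0, 1, 0, 0] + D ![0, 1, 0, 1]) + (D ![1, 1, 0, 0] + D ![1, 1, 0, 1]) + (D ![0, 1, 1, 0] + D ![0, 1, 1, 1]) + (D ![1, 1, 1, 0] + D ![1, 1, 1, 1]) < 2 * N → (D ![1, 0, 0, 0] + D ![1, 0, 0, 1]) + (D ![1, 1, 0, 0] + D ![1, 1, 0, 1]) + (D ![0, 0, 1, 0] + D ![0, 0, 1, 1]) + (D ![0, 1, 1, 0] + D ![0, 1, 1, 1]) < 2 * N → (D ![1, 0, 0, 0] + D ![1, 0, 0, 1]) + (D ![0, 1, 0, 0] + D ![0, 1, 0, 1]) + (D ![0, 0, 1, 0] + D ![0, 0, 1, 1]) + (D ![1, 1, 1, 0] + D ![1, 1, 1, 1]) < 2 * N →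
      D ![1, 0, 1, 0] = 0 ∨ D ![1, 0, 1, 1] = 0 := by
    intro t2 t5 t7
    rw [← outa2] at t2
    rw [← outa5] at t5
    rw [← outa7] at t7
    have h1 := key ![1, 0, 1, 0] (by decide) (by decide) (by
      intro φ
      rw [phi_of φ]
      generalize ((![φ ![1, 0, 0, 0], φ ![0, 1, 0, 0], φ ![0, 0, 1, 0], φ ![0, 0, 0, 1]] : W4)) = k
      revert k
      apply forallW
      · intro h1; exact absurd (DFunLike.ext _ _ (by decide)) h1
      · intro _ _ h1; exact absurd h1 (by decide)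
      · intro _ _ _; exact t2
      · intro _ _ h1; exact absurd h1 (by decide)
      · intro _ _ h1; exact absurd h1 (by decide)
      · intro _ _ _; exact t5
      · intro _ _ h1; exact absurd h1 (by decide)
      · intro _ _ _; exact t7
      · intro _ h1; exact absurd h1 (by decide)
      · intro _ h1; exact absurd h1 (by decide)
      · intro _ h1; exact absurd h1 (by decide)
      · intro _ h1; exact absurd h1 (by decide)
      · intro _ h1; exact absurd h1 (by decide)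
      · intro _ h1; exact absurd h1 (by decide)
      · intro _ h1; exact absurd h1 (by decide)
      · intro _ h1; exact absurd h1 (by decide)
      )
    have h2 : e3 + ![1, 0, 1, 0] = ![1, 0, 1, 1] := by decide
    rw [h2] at h1
    exact h1
  have k6 : (D ![1, 0, 0, 0] + D ![1, 0, 0, 1]) + (D ![1, 1, 0, 0] + D ![1, 1, 0, 1]) + (D ![1, 0, 1, 0] + D ![1, 0, 1, 1]) + (D ![1, 1, 1, 0] + D ![1, 1, 1, 1]) < 2 * N → (D ![0, 1, 0, 0] + D ![0, 1, 0, 1]) + (D ![1, 1, 0, 0] + D ![1, 1, 0, 1]) + (D ![0, 0, 1, 0] + D ![0, 0, 1, 1]) + (D ![1, 0, 1, 0] + D ![1, 0, 1, 1]) < 2 * N → (D ![1, 0, 0, 0] + D ![1, 0, 0, 1]) + (D ![0, 1, 0, 0] + D ![0, 1, 0, 1]) + (D ![0, 0, 1, 0] + D ![0, 0, 1, 1]) + (D ![1, 1, 1, 0] + D ![1, 1, 1, 1]) < 2 * N →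
      D ![0, 1, 1, 0] = 0 ∨ D ![0, 1, 1, 1] = 0 := by
    intro t1 t6 t7
    rw [← outa1] at t1
    rw [← outa6] at t6
    rw [← outa7] at t7
    have h1 := key ![0, 1, 1, 0] (by decide) (by decide) (by
      intro φ
      rw [phi_of φ]
      generalize ((![φ ![1, 0, 0, 0], φ ![0, 1, 0, 0], φ ![0, 0, 1, 0], φ ![0, 0, 0, 1]] : W4)) = k
      revert k
      apply forallW
      · intro h1; exact absurd (DFunLike.ext _ _ (by decide)) h1
      · intro _ _ _; exact t1
      · intro _ _ h1; exact absurd h1 (by decide)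
      · intro _ _ h1; exact absurd h1 (by decide)
      · intro _ _ h1; exact absurd h1 (by decide)
      · intro _ _ h1; exact absurd h1 (by decide)
      · intro _ _ _; exact t6
      · intro _ _ _; exact t7
      · intro _ h1; exact absurd h1 (by decide)
      · intro _ h1; exact absurd h1 (by decide)
      · intro _ h1; exact absurd h1 (by decide)
      · intro _ h1; exact absurd h1 (by decide)
      · intro _ h1; exact absurd h1 (by decide)
      · intro _ h1; exact absurd h1 (by decide)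
      · intro _ h1; exact absurd h1 (by decide)
      · intro _ h1; exact absurd h1 (by decide)
      )
    have h2 : e3 + ![0, 1, 1, 0] = ![0, 1, 1, 1] := by decide
    rw [h2] at h1
    exact h1
  have k7 : (D ![1, 0, 0, 0] + D ![1, 0, 0, 1]) + (D ![0, 1, 0, 0] + D ![0, 1, 0, 1]) + (D ![1, 0, 1, 0] + D ![1, 0, 1, 1]) + (D ![0, 1, 1, 0] + D ![0, 1, 1, 1]) < 2 * N → (D ![1, 0, 0, 0] + D ![1, 0, 0, 1]) + (D ![1, 1, 0, 0] + D ![1, 1, 0, 1]) + (D ![0, 0, 1, 0] + D ![0, 0, 1, 1]) + (D ![0, 1, 1, 0] + D ![0, 1, 1, 1]) < 2 * N → (D ![0, 1, 0, 0] + D ![0, 1, 0, 1]) + (D ![1, 1, 0, 0] + D ![1, 1, 0, 1]) + (D ![0, 0, 1, 0] + D ![0, 0, 1, 1]) + (D ![1, 0, 1, 0] + D ![1, 0, 1, 1]) < 2 * N →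
      D ![1, 1, 1, 0] = 0 ∨ D ![1, 1, 1, 1] = 0 := by
    intro t3 t5 t6
    rw [← outa3] at t3
    rw [← outa5] at t5
    rw [← outa6] at t6
    have h1 := key ![1, 1, 1, 0] (by decide) (by decide) (by
      intro φ
      rw [phi_of φ]
      generalize ((![φ ![1, 0, 0, 0], φ ![0, 1, 0, 0], φ ![0, 0, 1, 0], φ ![0, 0, 0, 1]] : W4)) = k
      revert k
      apply forallW
      · intro h1; exact absurd (DFunLike.ext _ _ (by decide)) h1
      · intro _ _ h1; exact absurd h1 (by decide)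
      · intro _ _ h1; exact absurd h1 (by decide)
      · intro _ _ _; exact t3
      · intro _ _ h1; exact absurd h1 (by decide)
      · intro _ _ _; exact t5
      · intro _ _ _; exact t6
      · intro _ _ h1; exact absurd h1 (by decide)
      · intro _ h1; exact absurd h1 (by decide)
      · intro _ h1; exact absurd h1 (by decide)
      · intro _ h1; exact absurd h1 (by decide)
      · intro _ h1; exact absurd h1 (by decide)
      · intro _ h1; exact absurd h1 (by decide)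
      · intro _ h1; exact absurd h1 (by decide)
      · intro _ h1; exact absurd h1 (by decide)
      · intro _ h1; exact absurd h1 (by decide)
      )
    have h2 : e3 + ![1, 1, 1, 0] = ![1, 1, 1, 1] := by decide
    rw [h2] at h1
    exact h1
  have hme : D e3 = D ![0, 0, 0, 1] := rfl
  rw [hme] at hm hmax
  exact pgcore N (D ![0, 0, 0, 1]) (D ![1, 0, 0, 0]) (D ![0, 1, 0, 0]) (D ![1, 1, 0, 0]) (D ![0, 0, 1, 0]) (D ![1, 0, 1, 0]) (D ![0, 1, 1, 0]) (D ![1, 1, 1, 0]) (D ![1, 0, 0, 1]) (D ![0, 1, 0, 1]) (D ![1, 1, 0, 1]) (D ![0, 0, 1, 1]) (D ![1, 0, 1, 1]) (D ![0, 1, 1, 1]) (D ![1, 1, 1, 1]) hm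
    (h.nn _) (h.nn _) (hmax _) (hmax _)
    (h.nn _) (h.nn _) (hmax _) (hmax _)
    (h.nn _) (h.nn _) (hmax _) (hmax _)
    (h.nn _) (h.nn _) (hmax _) (hmax _)
    (h.nn _) (h.nn _) (hmax _) (hmax _)
    (h.nn _) (h.nn _) (hmax _) (hmax _)
    (h.nn _) (h.nn _) (hmax _) (hmax _)
    (by linarith only [hs])
    (by linarith only [a1])
    (by linarith only [a2])
    (by linarith only [a3])
    (by linarith only [a4])
    (by linarith only [a5])
    (by linarith only [a6])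
    (by linarith only [a7])
    (by linarith only [b0])
    (by linarith only [b1])
    (by linarith only [b2])
    (by linarith only [b3])
    (by linarith only [b4])
    (by linarith only [b5])
    (by linarith only [b6])
    (by linarith only [b7])
    (by linarith only [c0, hme])
    (by linarith only [c1, hme])
    (by linarith only [c2, hme])
    (by linarith only [c3, hme])
    (by linarith only [c4, hme])
    (by linarith only [c5, hme])
    (by linarith only [c6, hme])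
    (by linarith only [c7, hme])
    (fun t t' t'' => k1 (by linarith only [t]) (by linarith only [t']) (by linarith only [t'']))
    (fun t t' t'' => k2 (by linarith only [t]) (by linarith only [t']) (by linarith only [t'']))
    (fun t t' t'' => k3 (by linarith only [t]) (by linarith only [t']) (by linarith only [t'']))
    (fun t t' t'' => k4 (by linarith only [t]) (by linarith only [t']) (by linarith only [t'']))
    (fun t t' t'' => k5 (by linarith only [t]) (by linarith only [t']) (by linarith only [t'']))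
    (fun t t' t'' => k6 (by linarith only [t]) (by linarith only [t']) (by linarith only [t'']))
    (fun t t' t'' => k7 (by linarith only [t]) (by linarith only [t']) (by linarith only [t'']))

end Pool.Agent.helper25.PV
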