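import Pool.Agent.helper25.PW.PG4b

set_option autoImplicit false
set_option linter.unusedSectionVars false
set_option linter.unusedVariables false

/-!
# Project PW: the complements of the lines of the projective space of dimension three over the
field with two elements form a Hilbert basis
-/

namespace Pool.Agent.helper25.PV

open Finset

theorem phi_ne_of {φ : W4 →+ ZMod 2} {p : W4} (h : φ p = 1) : φ ≠ 0 := by
  intro h1
  rw [h1] at h
  exact zero_ne_one h

theorem Cn.good {D : W4 → ℤ} {N : ℤ} (h : Cn D N) (hN : 0 < N)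
    (hst : ∀ (φ : W4 →+ ZMod 2) (p : W4), φ p = 1 → 2 * D p < out D φ) :
    ∃ p q, p ≠ 0 ∧ q ≠ 0 ∧ p ≠ q ∧ 0 < D p ∧ 0 < D q ∧ 0 < D (p + q) ∧
      ∀ φ : W4 →+ ZMod 2, φ ≠ 0 → φ p = 0 → φ q = 0 → out D φ < 2 * N := by
  obtain ⟨p, -, hp⟩ := (univ : Finset W4).exists_max_image D univ_nonempty
  have hm : 0 < D p := by
    by_contra hcon
    have h1 : ∑ v, D v ≤ 0 := sum_nonpos fun v _ => (hp v (mem_univ v)).trans (not_lt.1 hcon)
    rw [h.sum] at h1
    linarith only [h1, hN]
  have hp0 : p ≠ 0 := by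
    intro h1
    rw [h1, h.zero] at hm
    exact lt_irrefl _ hm
  obtain ⟨g, hg⟩ := exists_g1 hp0
  obtain ⟨q, hq0, hq, h1, h2, h3⟩ := (h.comp g).good_aux (by rw [hg]; exact hm)
    (fun v => by rw [hg]; exact hp _ (mem_univ _))
    (fun φ hφ => by
      rw [out_comp, hg]
      apply hst
      show φ (g.symm p) = 1
      rw [← hg, AddEquiv.symm_apply_apply]; exact hφ)
  refine ⟨p, g q, hp0, fun h4 => hq0 (by simpa using h4), fun h4 => hq (g.injective (hg.trans h4)),
    hm, h1, ?_, fun φ hφ k1 k2 => ?_⟩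
  · rw [map_add, hg] at h2
    exact h2
  · have h4 := h3 (φ.comp g.toAddMonoidHom) (by
      intro h5
      apply hφ
      refine DFunLike.ext _ _ fun v => ?_
      have h6 := DFunLike.congr_fun h5 (g.symm v)
      have h7 : (φ.comp g.toAddMonoidHom) (g.symm v) = φ v := by
        show φ (g (g.symm v)) = φ v
        rw [AddEquiv.apply_symm_apply]
      rw [h7] at h6
      exact h6) (by
      show φ (g e3) = 0
      rw [hg]; exact k1) k2
    rw [out_comp] at h4
    have h5 : (φ.comp g.toAddMonoidHom).comp g.symm.toAddMonoidHom = φ := by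
      refine DFunLike.ext _ _ fun v => ?_
      show φ (g (g.symm v)) = φ v
      rw [AddEquiv.apply_symm_apply]
    rw [h5] at h4
    exact h4

theorem add_ne {p q : W4} (hpq : p ≠ q) : p + q ≠ 0 := by
  intro h
  apply hpq
  have h1 : p = (p + q) + q := by rw [add_assoc, W_add_self, add_zero]
  rw [h1, h, zero_add]

theorem sum_lnv {A : Type*} [AddCommMonoid A] {p q : W4} (hp : p ≠ 0) (hq : q ≠ 0) (hpq : p ≠ q)
    (F : W4 → A) : ∑ v, (if v = p ∨ v = q ∨ v = p + q then F v else 0) = F p + F q + F (p + q) := by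
  have h1 : p ≠ p + q := fun h => hq (add_left_cancel (h.symm.trans (add_zero p).symm))
  have h2 : q ≠ p + q := fun h => hp (add_right_cancel (h.symm.trans (zero_add q).symm))
  have h3 : ∀ v ∈ (univ : Finset W4), (if v = p ∨ v = q ∨ v = p + q then F v else 0) =
      if v ∈ ({p, q, p + q} : Finset W4) then F v else 0 := by
    intro v _
    simp only [mem_insert, mem_singleton]
  rw [sum_congr rfl h3, sum_ite_mem, univ_inter, sum_insert (by simp [hpq, h1]),
    sum_pair h2, add_assoc]

theorem out_lnv {p q : W4} (hp : p ≠ 0) (hq : q ≠ 0) (hpq : p ≠ q) (φ : W4 →+ ZMod 2) :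
    out (lnv p q) φ = if φ p = 0 ∧ φ q = 0 then 0 else 2 := by
  have h1 : out (lnv p q) φ = ∑ v, (if v = p ∨ v = q ∨ v = p + q then
      (if φ v = 1 then (1 : ℤ) else 0) else 0) := by
    unfold out lnv
    refine sum_congr rfl fun v _ => ?_
    split_ifs <;> rfl
  rw [h1, sum_lnv hp hq hpq, map_add]
  rcases z2 (φ p) with h2 | h2 <;> rcases z2 (φ q) with h3 | h3 <;> rw [h2, h3] <;> decide

/-- removing a good line -/
theorem Cn.peel {D : W4 → ℤ} {N : ℤ} (h : Cn D N)
    (hst : ∀ (φ : W4 →+ ZMod 2) (p : W4), φ p = 1 → 2 * D p < out D φ) {p q : W4} (hp : p ≠ 0)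
    (hq : q ≠ 0) (hpq : p ≠ q) (h1 : 0 < D p) (h2 : 0 < D q) (h3 : 0 < D (p + q))
    (h4 : ∀ φ : W4 →+ ZMod 2, φ ≠ 0 → φ p = 0 → φ q = 0 → out D φ < 2 * N) :
    Cn (fun v => D v - lnv p q v) (N - 1) where
  zero := by
    have h5 : lnv p q 0 = 0 := by
      unfold lnv
      rw [if_neg]
      rintro (h5 | h5 | h5)
      · exact hp h5.symm
      · exact hq h5.symm
      · exact add_ne hpq h5.symm
    rw [h.zero, h5, sub_zero]
  nn := by
    intro v
    unfold lnv
    split_ifs with h5
    · rcases h5 with rfl | rfl | rfl <;> linarith only [h1, h2, h3]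
    · rw [sub_zero]; exact h.nn v
  sum := by
    have h5 : ∑ v, lnv p q v = 3 := by
      have := sum_lnv hp hq hpq fun _ => (1 : ℤ)
      rw [show (1 : ℤ) + 1 + 1 = 3 by norm_num] at this
      exact this
    rw [sum_sub_distrib, h.sum, h5]; ring
  hyp := by
    intro φ hφ
    obtain ⟨e, k1, k2, k3⟩ := h.hyp φ hφ
    have h5 : out (fun v => D v - lnv p q v) φ = out D φ - out (lnv p q) φ := by
      unfold out
      rw [← sum_sub_distrib]
      refine sum_congr rfl fun v _ => ?_
      split_ifs <;> simp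
    have h0 : ∀ v, 0 ≤ lnv p q v := fun v => by unfold lnv; split_ifs <;> norm_num
    by_cases h6 : φ p = 0 ∧ φ q = 0
    · refine ⟨e, ?_, ?_, fun v hv => ?_⟩
      · rw [h5, out_lnv hp hq hpq, if_pos h6, sub_zero, k1]
      · have := h4 φ hφ h6.1 h6.2
        rw [k1] at this
        linarith only [this]
      · linarith only [k3 v hv, h0 v]
    · refine ⟨e - 1, ?_, by linarith only [k2], fun v hv => ?_⟩
      · rw [h5, out_lnv hp hq hpq, if_neg h6, k1]; ring
      · have h7 := hst φ v hv
        rw [k1] at h7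
        linarith only [h7, h0 v]

theorem Cn.mem : ∀ (n : ℕ) {D : W4 → ℤ} {N : ℤ}, Cn D N → N = n → D ∈ Lsm := by
  intro n
  induction n with
  | zero =>
    intro D N h hN
    have h1 : ∑ v, D v = 0 := by rw [h.sum, hN]; simp
    have h2 := (sum_eq_zero_iff_of_nonneg fun v _ => h.nn v).1 h1
    have h3 : D = 0 := by
      funext v
      exact h2 v (mem_univ v)
    rw [h3]
    exact zero_mem _
  | succ n ih =>
    intro D N h hN
    by_cases ht : ∃ (φ : W4 →+ ZMod 2) (p : W4), φ p = 1 ∧ out D φ ≤ 2 * D p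
    · obtain ⟨φ, p, hp, ht⟩ := ht
      obtain ⟨g, hg, hφ⟩ := exists_g2 hp
      apply Lsm_of_comp g
      apply (h.comp g).tight
      obtain ⟨e, k1, k2, k3⟩ := h.hyp φ (phi_ne_of hp)
      have h1 : out D φ = 2 * D p := by
        have := k3 p hp
        rw [k1] at ht ⊢
        linarith only [this, ht]
      have h2 : D (g ![0, 0, 0, 1]) = D p := congrArg D hg
      rw [out_comp, h2, ← h1]
      congr 1
      refine DFunLike.ext _ _ fun v => ?_
      show phi ![0, 0, 0, 1] (g.symm v) = φ v
      have h3 := hφ (g.symm v)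
      rw [AddEquiv.apply_symm_apply] at h3
      rw [h3]
      show (0 : ZMod 2) * _ + 0 * _ + 0 * _ + 1 * _ = _
      ring
    · push Not at ht
      have hst : ∀ (φ : W4 →+ ZMod 2) (p : W4), φ p = 1 → 2 * D p < out D φ := fun φ p hp =>
        ht φ p hp
      obtain ⟨p, q, hp, hq, hpq, h1, h2, h3, h4⟩ := h.good (by rw [hN]; positivity) hst
      have h5 := ih (h.peel hst hp hq hpq h1 h2 h3 h4) (by rw [hN]; push_cast; ring)
      have h6 : D = (fun v => D v - lnv p q v) + lnv p q := by
        funext v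
        rw [Pi.add_apply]; ring
      rw [h6]
      exact add_mem h5 (lnv_mem hp hq hpq)

end Pool.Agent.helper25.PV
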