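import Pool.Agent.helper25.PW.Suf3

set_option autoImplicit false
set_option linter.unusedSectionVars false
set_option linter.unusedVariables false
set_option linter.unusedTactic false

/-!
# Project PW: a line in the support, the arithmetic part
-/

namespace Pool.Agent.helper25.PV

/-- `u i`, `w i` are the weights of the points of the seven lines through a point of weight `m`,
the maximal weight; no line through this point is admissible -/
theorem pgcore (N m u1 u2 u3 u4 u5 u6 u7 w1 w2 w3 w4 w5 w6 w7 : ℤ) (hm : 0 < m)
    (nu1 : 0 ≤ u1) (nw1 : 0 ≤ w1) (mu1 : u1 ≤ m) (mw1 : w1 ≤ m)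
    (nu2 : 0 ≤ u2) (nw2 : 0 ≤ w2) (mu2 : u2 ≤ m) (mw2 : w2 ≤ m)
    (nu3 : 0 ≤ u3) (nw3 : 0 ≤ w3) (mu3 : u3 ≤ m) (mw3 : w3 ≤ m)
    (nu4 : 0 ≤ u4) (nw4 : 0 ≤ w4) (mu4 : u4 ≤ m) (mw4 : w4 ≤ m)
    (nu5 : 0 ≤ u5) (nw5 : 0 ≤ w5) (mu5 : u5 ≤ m) (mw5 : w5 ≤ m)
    (nu6 : 0 ≤ u6) (nw6 : 0 ≤ w6) (mu6 : u6 ≤ m) (mw6 : w6 ≤ m)
    (nu7 : 0 ≤ u7) (nw7 : 0 ≤ w7) (mu7 : u7 ≤ m) (mw7 : w7 ≤ m)
    (hs : m + (u1 + w1) + (u2 + w2) + (u3 + w3) + (u4 + w4) + (u5 + w5) + (u6 + w6) + (u7 + w7) = 3 * N)
    (a1 : u1 + w1 + u3 + w3 + u5 + w5 + u7 + w7 ≤ 2 * N)
    (a2 : u2 + w2 + u3 + w3 + u6 + w6 + u7 + w7 ≤ 2 * N)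
    (a3 : u1 + w1 + u2 + w2 + u5 + w5 + u6 + w6 ≤ 2 * N)
    (a4 : u4 + w4 + u5 + w5 + u6 + w6 + u7 + w7 ≤ 2 * N)
    (a5 : u1 + w1 + u3 + w3 + u4 + w4 + u6 + w6 ≤ 2 * N)
    (a6 : u2 + w2 + u3 + w3 + u4 + w4 + u5 + w5 ≤ 2 * N)
    (a7 : u1 + w1 + u2 + w2 + u4 + w4 + u7 + w7 ≤ 2 * N)
    (b0 : m + w1 + w2 + w3 + w4 + w5 + w6 + w7 ≤ 2 * N)
    (b1 : m + u1 + w2 + u3 + w4 + u5 + w6 + u7 ≤ 2 * N)
    (b2 : m + w1 + u2 + u3 + w4 + w5 + u6 + u7 ≤ 2 * N)
    (b3 : m + u1 + u2 + w3 + w4 + u5 + u6 + w7 ≤ 2 * N)
    (b4 : m + w1 + w2 + w3 + u4 + u5 + u6 + u7 ≤ 2 * N)
    (b5 : m + u1 + w2 + u3 + u4 + w5 + u6 + w7 ≤ 2 * N)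
    (b6 : m + w1 + u2 + u3 + u4 + u5 + w6 + w7 ≤ 2 * N)
    (b7 : m + u1 + u2 + w3 + u4 + w5 + w6 + u7 ≤ 2 * N)
    (c0 : 2 * m < m + w1 + w2 + w3 + w4 + w5 + w6 + w7)
    (c1 : 2 * m < m + u1 + w2 + u3 + w4 + u5 + w6 + u7)
    (c2 : 2 * m < m + w1 + u2 + u3 + w4 + w5 + u6 + u7)
    (c3 : 2 * m < m + u1 + u2 + w3 + w4 + u5 + u6 + w7)
    (c4 : 2 * m < m + w1 + w2 + w3 + u4 + u5 + u6 + u7)
    (c5 : 2 * m < m + u1 + w2 + u3 + u4 + w5 + u6 + w7)
    (c6 : 2 * m < m + w1 + u2 + u3 + u4 + u5 + w6 + w7)
    (c7 : 2 * m < m + u1 + u2 + w3 + u4 + w5 + w6 + u7)
    (k1 : u2 + w2 + u3 + w3 + u6 + w6 + u7 + w7 < 2 * N → u4 + w4 + u5 + w5 + u6 + w6 + u7 + w7 < 2 * N → u2 + w2 + u3 + w3 + u4 + w4 + u5 + w5 < 2 * N → u1 = 0 ∨ w1 = 0)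
    (k2 : u1 + w1 + u3 + w3 + u5 + w5 + u7 + w7 < 2 * N → u4 + w4 + u5 + w5 + u6 + w6 + u7 + w7 < 2 * N → u1 + w1 + u3 + w3 + u4 + w4 + u6 + w6 < 2 * N → u2 = 0 ∨ w2 = 0)
    (k3 : u1 + w1 + u2 + w2 + u5 + w5 + u6 + w6 < 2 * N → u4 + w4 + u5 + w5 + u6 + w6 + u7 + w7 < 2 * N → u1 + w1 + u2 + w2 + u4 + w4 + u7 + w7 < 2 * N → u3 = 0 ∨ w3 = 0)
    (k4 : u1 + w1 + u3 + w3 + u5 + w5 + u7 + w7 < 2 * N → u2 + w2 + u3 + w3 + u6 + w6 + u7 + w7 < 2 * N → u1 + w1 + u2 + w2 + u5 + w5 + u6 + w6 < 2 * N → u4 = 0 ∨ w4 = 0)
    (k5 : u2 + w2 + u3 + w3 + u6 + w6 + u7 + w7 < 2 * N → u1 + w1 + u3 + w3 + u4 + w4 + u6 + w6 < 2 * N → u1 + w1 + u2 + w2 + u4 + w4 + u7 + w7 < 2 * N → u5 = 0 ∨ w5 = 0)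
    (k6 : u1 + w1 + u3 + w3 + u5 + w5 + u7 + w7 < 2 * N → u2 + w2 + u3 + w3 + u4 + w4 + u5 + w5 < 2 * N → u1 + w1 + u2 + w2 + u4 + w4 + u7 + w7 < 2 * N → u6 = 0 ∨ w6 = 0)
    (k7 : u1 + w1 + u2 + w2 + u5 + w5 + u6 + w6 < 2 * N → u1 + w1 + u3 + w3 + u4 + w4 + u6 + w6 < 2 * N → u2 + w2 + u3 + w3 + u4 + w4 + u5 + w5 < 2 * N → u7 = 0 ∨ w7 = 0)
    : False := by
  have hmN : m < N := by linarith only [b0, c0]
  rcases lt_or_ge (u1 + w1 + u3 + w3 + u5 + w5 + u7 + w7) (2 * N) with t1 | t1
  · skip
    rcases lt_or_ge (u2 + w2 + u3 + w3 + u6 + w6 + u7 + w7) (2 * N) with t2 | t2
    · skip
      rcases lt_or_ge (u1 + w1 + u2 + w2 + u5 + w5 + u6 + w6) (2 * N) with t3 | t3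
      · skip
        rcases lt_or_ge (u4 + w4 + u5 + w5 + u6 + w6 + u7 + w7) (2 * N) with t4 | t4
        · skip
          rcases lt_or_ge (u1 + w1 + u3 + w3 + u4 + w4 + u6 + w6) (2 * N) with t5 | t5
          · skip
            rcases lt_or_ge (u2 + w2 + u3 + w3 + u4 + w4 + u5 + w5) (2 * N) with t6 | t6
            · skip
              rcases lt_or_ge (u1 + w1 + u2 + w2 + u4 + w4 + u7 + w7) (2 * N) with t7 | t7
              · skip
                have z1 := k1 t2 t4 t6
                have z2 := k2 t1 t4 t5
                have z3 := k3 t3 t4 t7
                have z4 := k4 t1 t2 t3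
                have z5 := k5 t2 t5 t7
                have z6 := k6 t1 t6 t7
                have z7 := k7 t3 t5 t6
                rcases z1 with y1 | y1
                · skip
                  rcases z2 with y2 | y2
                  · skip
                    rcases z3 with y3 | y3
                    · skip
                      rcases z4 with y4 | y4
                      · skip
                        rcases z5 with y5 | y5
                        · skip
                          rcases z6 with y6 | y6
                          · skip
                            rcases z7 with y7 | y7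
                            · skip
                              linarith only [b0, hmN, hm, hs, y1, y2, y3, y4, y5, y6, y7]
                            · skip
                              linarith only [b0, hmN, hm, hs, mu7, y1, y2, y3, y4, y5, y6, y7]
                          · skip
                            rcases z7 with y7 | y7
                            · skip
                              linarith only [b0, hmN, hm, hs, mu6, y1, y2, y3, y4, y5, y6, y7]
                            · skip
                              linarith only [c6, hm, mw1, y1, y2, y3, y4, y5, y6, y7]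
                        · skip
                          rcases z6 with y6 | y6
                          · skip
                            rcases z7 with y7 | y7
                            · skip
                              linarith only [b0, hmN, hm, hs, mu5, y1, y2, y3, y4, y5, y6, y7]
                            · skip
                              linarith only [c5, hm, mw2, y1, y2, y3, y4, y5, y6, y7]
                          · skip
                            rcases z7 with y7 | y7
                            · skip
                              linarith only [c7, hm, mw3, y1, y2, y3, y4, y5, y6, y7]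
                            · skip
                              linarith only [b4, hmN, hm, hs, mw4, y1, y2, y3, y4, y5, y6, y7]
                      · skip
                        rcases z5 with y5 | y5
                        · skip
                          rcases z6 with y6 | y6
                          · skip
                            rcases z7 with y7 | y7
                            · skip
                              linarith only [b0, hmN, hm, hs, mu4, y1, y2, y3, y4, y5, y6, y7]
                            · skip
                              linarith only [c3, hm, mw3, y1, y2, y3, y4, y5, y6, y7]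
                          · skip
                            rcases z7 with y7 | y7
                            · skip
                              linarith only [c1, hm, mw2, y1, y2, y3, y4, y5, y6, y7]
                            · skip
                              linarith only [b4, hmN, hm, hs, mw5, y1, y2, y3, y4, y5, y6, y7]
                        · skip
                          rcases z6 with y6 | y6
                          · skip
                            rcases z7 with y7 | y7
                            · skip
                              linarith only [c2, hm, mw1, y1, y2, y3, y4, y5, y6, y7]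
                            · skip
                              linarith only [b4, hmN, hm, hs, mw6, y1, y2, y3, y4, y5, y6, y7]
                          · skip
                            rcases z7 with y7 | y7
                            · skip
                              linarith only [b4, hmN, hm, hs, mw7, y1, y2, y3, y4, y5, y6, y7]
                            · skip
                              linarith only [b4, hmN, hm, hs, y1, y2, y3, y4, y5, y6, y7]
                    · skip
                      rcases z4 with y4 | y4
                      · skip
                        rcases z5 with y5 | y5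
                        · skip
                          rcases z6 with y6 | y6
                          · skip
                            rcases z7 with y7 | y7
                            · skip
                              linarith only [b0, hmN, hm, hs, mu3, y1, y2, y3, y4, y5, y6, y7]
                            · skip
                              linarith only [c3, hm, mw4, y1, y2, y3, y4, y5, y6, y7]
                          · skip
                            rcases z7 with y7 | y7
                            · skip
                              linarith only [c7, hm, mw5, y1, y2, y3, y4, y5, y6, y7]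
                            · skip
                              linarith only [b2, hmN, hm, hs, mw2, y1, y2, y3, y4, y5, y6, y7]
                        · skip
                          rcases z6 with y6 | y6
                          · skip
                            rcases z7 with y7 | y7
                            · skip
                              linarith only [c7, hm, mw6, y1, y2, y3, y4, y5, y6, y7]
                            · skip
                              linarith only [b1, hmN, hm, hs, mw1, y1, y2, y3, y4, y5, y6, y7]
                          · skip
                            rcases z7 with y7 | y7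
                            · skip
                              linarith only [c7, hm, y1, y2, y3, y4, y5, y6, y7]
                            · skip
                              linarith only [c7, hm, mu7, y1, y2, y3, y4, y5, y6, y7]
                      · skip
                        rcases z5 with y5 | y5
                        · skip
                          rcases z6 with y6 | y6
                          · skip
                            rcases z7 with y7 | y7
                            · skip
                              linarith only [c3, hm, mw7, y1, y2, y3, y4, y5, y6, y7]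
                            · skip
                              linarith only [c3, hm, y1, y2, y3, y4, y5, y6, y7]
                          · skip
                            rcases z7 with y7 | y7
                            · skip
                              linarith only [b5, hmN, hm, hs, mw1, y1, y2, y3, y4, y5, y6, y7]
                            · skip
                              linarith only [c3, hm, mu6, y1, y2, y3, y4, y5, y6, y7]
                        · skip
                          rcases z6 with y6 | y6
                          · skip
                            rcases z7 with y7 | y7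
                            · skip
                              linarith only [b6, hmN, hm, hs, mw2, y1, y2, y3, y4, y5, y6, y7]
                            · skip
                              linarith only [c3, hm, mu5, y1, y2, y3, y4, y5, y6, y7]
                          · skip
                            rcases z7 with y7 | y7
                            · skip
                              linarith only [c7, hm, mu4, y1, y2, y3, y4, y5, y6, y7]
                            · skip
                              linarith only [b4, hmN, hm, hs, mu3, y1, y2, y3, y4, y5, y6, y7]
                  · skip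
                    rcases z3 with y3 | y3
                    · skip
                      rcases z4 with y4 | y4
                      · skip
                        rcases z5 with y5 | y5
                        · skip
                          rcases z6 with y6 | y6
                          · skip
                            rcases z7 with y7 | y7
                            · skip
                              linarith only [b0, hmN, hm, hs, mu2, y1, y2, y3, y4, y5, y6, y7]
                            · skip
                              linarith only [c5, hm, mw5, y1, y2, y3, y4, y5, y6, y7]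
                          · skip
                            rcases z7 with y7 | y7
                            · skip
                              linarith only [c1, hm, mw4, y1, y2, y3, y4, y5, y6, y7]
                            · skip
                              linarith only [b2, hmN, hm, hs, mw3, y1, y2, y3, y4, y5, y6, y7]
                        · skip
                          rcases z6 with y6 | y6
                          · skip
                            rcases z7 with y7 | y7
                            · skip
                              linarith only [c5, hm, mw7, y1, y2, y3, y4, y5, y6, y7]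
                            · skip
                              linarith only [c5, hm, y1, y2, y3, y4, y5, y6, y7]
                          · skip
                            rcases z7 with y7 | y7
                            · skip
                              linarith only [b3, hmN, hm, hs, mw1, y1, y2, y3, y4, y5, y6, y7]
                            · skip
                              linarith only [c5, hm, mu6, y1, y2, y3, y4, y5, y6, y7]
                      · skip
                        rcases z5 with y5 | y5
                        · skip
                          rcases z6 with y6 | y6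
                          · skip
                            rcases z7 with y7 | y7
                            · skip
                              linarith only [c1, hm, mw6, y1, y2, y3, y4, y5, y6, y7]
                            · skip
                              linarith only [b7, hmN, hm, hs, mw1, y1, y2, y3, y4, y5, y6, y7]
                          · skip
                            rcases z7 with y7 | y7
                            · skip
                              linarith only [c1, hm, y1, y2, y3, y4, y5, y6, y7]
                            · skip
                              linarith only [c1, hm, mu7, y1, y2, y3, y4, y5, y6, y7]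
                        · skip
                          rcases z6 with y6 | y6
                          · skip
                            rcases z7 with y7 | y7
                            · skip
                              linarith only [b6, hmN, hm, hs, mw3, y1, y2, y3, y4, y5, y6, y7]
                            · skip
                              linarith only [c5, hm, mu4, y1, y2, y3, y4, y5, y6, y7]
                          · skip
                            rcases z7 with y7 | y7
                            · skip
                              linarith only [c1, hm, mu5, y1, y2, y3, y4, y5, y6, y7]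
                            · skip
                              linarith only [b4, hmN, hm, hs, mu2, y1, y2, y3, y4, y5, y6, y7]
                    · skip
                      rcases z4 with y4 | y4
                      · skip
                        rcases z5 with y5 | y5
                        · skip
                          rcases z6 with y6 | y6
                          · skip
                            rcases z7 with y7 | y7
                            · skip
                              linarith only [c4, hm, mw1, y1, y2, y3, y4, y5, y6, y7]
                            · skip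
                              linarith only [b2, hmN, hm, hs, mw6, y1, y2, y3, y4, y5, y6, y7]
                          · skip
                            rcases z7 with y7 | y7
                            · skip
                              linarith only [b2, hmN, hm, hs, mw7, y1, y2, y3, y4, y5, y6, y7]
                            · skip
                              linarith only [b2, hmN, hm, hs, y1, y2, y3, y4, y5, y6, y7]
                        · skip
                          rcases z6 with y6 | y6
                          · skip
                            rcases z7 with y7 | y7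
                            · skip
                              linarith only [b6, hmN, hm, hs, mw4, y1, y2, y3, y4, y5, y6, y7]
                            · skip
                              linarith only [c5, hm, mu3, y1, y2, y3, y4, y5, y6, y7]
                          · skip
                            rcases z7 with y7 | y7
                            · skip
                              linarith only [c7, hm, mu2, y1, y2, y3, y4, y5, y6, y7]
                            · skip
                              linarith only [b2, hmN, hm, hs, mu5, y1, y2, y3, y4, y5, y6, y7]
                      · skip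
                        rcases z5 with y5 | y5
                        · skip
                          rcases z6 with y6 | y6
                          · skip
                            rcases z7 with y7 | y7
                            · skip
                              linarith only [b6, hmN, hm, hs, mw5, y1, y2, y3, y4, y5, y6, y7]
                            · skip
                              linarith only [c3, hm, mu2, y1, y2, y3, y4, y5, y6, y7]
                          · skip
                            rcases z7 with y7 | y7
                            · skip
                              linarith only [c1, hm, mu3, y1, y2, y3, y4, y5, y6, y7]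
                            · skip
                              linarith only [b2, hmN, hm, hs, mu4, y1, y2, y3, y4, y5, y6, y7]
                        · skip
                          rcases z6 with y6 | y6
                          · skip
                            rcases z7 with y7 | y7
                            · skip
                              linarith only [b6, hmN, hm, hs, y1, y2, y3, y4, y5, y6, y7]
                            · skip
                              linarith only [b6, hmN, hm, hs, mu7, y1, y2, y3, y4, y5, y6, y7]
                          · skip
                            rcases z7 with y7 | y7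
                            · skip
                              linarith only [b6, hmN, hm, hs, mu6, y1, y2, y3, y4, y5, y6, y7]
                            · skip
                              linarith only [c0, hm, mw1, y1, y2, y3, y4, y5, y6, y7]
                · skip
                  rcases z2 with y2 | y2
                  · skip
                    rcases z3 with y3 | y3
                    · skip
                      rcases z4 with y4 | y4
                      · skip
                        rcases z5 with y5 | y5
                        · skip
                          rcases z6 with y6 | y6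
                          · skip
                            rcases z7 with y7 | y7
                            · skip
                              linarith only [b0, hmN, hm, hs, mu1, y1, y2, y3, y4, y5, y6, y7]
                            · skip
                              linarith only [c6, hm, mw6, y1, y2, y3, y4, y5, y6, y7]
                          · skip
                            rcases z7 with y7 | y7
                            · skip
                              linarith only [c6, hm, mw7, y1, y2, y3, y4, y5, y6, y7]
                            · skip
                              linarith only [c6, hm, y1, y2, y3, y4, y5, y6, y7]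
                        · skip
                          rcases z6 with y6 | y6
                          · skip
                            rcases z7 with y7 | y7
                            · skip
                              linarith only [c2, hm, mw4, y1, y2, y3, y4, y5, y6, y7]
                            · skip
                              linarith only [b1, hmN, hm, hs, mw3, y1, y2, y3, y4, y5, y6, y7]
                          · skip
                            rcases z7 with y7 | y7
                            · skip
                              linarith only [b3, hmN, hm, hs, mw2, y1, y2, y3, y4, y5, y6, y7]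
                            · skip
                              linarith only [c6, hm, mu5, y1, y2, y3, y4, y5, y6, y7]
                      · skip
                        rcases z5 with y5 | y5
                        · skip
                          rcases z6 with y6 | y6
                          · skip
                            rcases z7 with y7 | y7
                            · skip
                              linarith only [c2, hm, mw5, y1, y2, y3, y4, y5, y6, y7]
                            · skip
                              linarith only [b7, hmN, hm, hs, mw2, y1, y2, y3, y4, y5, y6, y7]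
                          · skip
                            rcases z7 with y7 | y7
                            · skip
                              linarith only [b5, hmN, hm, hs, mw3, y1, y2, y3, y4, y5, y6, y7]
                            · skip
                              linarith only [c6, hm, mu4, y1, y2, y3, y4, y5, y6, y7]
                        · skip
                          rcases z6 with y6 | y6
                          · skip
                            rcases z7 with y7 | y7
                            · skip
                              linarith only [c2, hm, y1, y2, y3, y4, y5, y6, y7]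
                            · skip
                              linarith only [c2, hm, mu7, y1, y2, y3, y4, y5, y6, y7]
                          · skip
                            rcases z7 with y7 | y7
                            · skip
                              linarith only [c2, hm, mu6, y1, y2, y3, y4, y5, y6, y7]
                            · skip
                              linarith only [b4, hmN, hm, hs, mu1, y1, y2, y3, y4, y5, y6, y7]
                    · skip
                      rcases z4 with y4 | y4
                      · skip
                        rcases z5 with y5 | y5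
                        · skip
                          rcases z6 with y6 | y6
                          · skip
                            rcases z7 with y7 | y7
                            · skip
                              linarith only [c4, hm, mw2, y1, y2, y3, y4, y5, y6, y7]
                            · skip
                              linarith only [b1, hmN, hm, hs, mw5, y1, y2, y3, y4, y5, y6, y7]
                          · skip
                            rcases z7 with y7 | y7
                            · skip
                              linarith only [b5, hmN, hm, hs, mw4, y1, y2, y3, y4, y5, y6, y7]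
                            · skip
                              linarith only [c6, hm, mu3, y1, y2, y3, y4, y5, y6, y7]
                        · skip
                          rcases z6 with y6 | y6
                          · skip
                            rcases z7 with y7 | y7
                            · skip
                              linarith only [b1, hmN, hm, hs, mw7, y1, y2, y3, y4, y5, y6, y7]
                            · skip
                              linarith only [b1, hmN, hm, hs, y1, y2, y3, y4, y5, y6, y7]
                          · skip
                            rcases z7 with y7 | y7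
                            · skip
                              linarith only [c7, hm, mu1, y1, y2, y3, y4, y5, y6, y7]
                            · skip
                              linarith only [b1, hmN, hm, hs, mu6, y1, y2, y3, y4, y5, y6, y7]
                      · skip
                        rcases z5 with y5 | y5
                        · skip
                          rcases z6 with y6 | y6
                          · skip
                            rcases z7 with y7 | y7
                            · skip
                              linarith only [b5, hmN, hm, hs, mw6, y1, y2, y3, y4, y5, y6, y7]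
                            · skip
                              linarith only [c3, hm, mu1, y1, y2, y3, y4, y5, y6, y7]
                          · skip
                            rcases z7 with y7 | y7
                            · skip
                              linarith only [b5, hmN, hm, hs, y1, y2, y3, y4, y5, y6, y7]
                            · skip
                              linarith only [b5, hmN, hm, hs, mu7, y1, y2, y3, y4, y5, y6, y7]
                        · skip
                          rcases z6 with y6 | y6
                          · skip
                            rcases z7 with y7 | y7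
                            · skip
                              linarith only [c2, hm, mu3, y1, y2, y3, y4, y5, y6, y7]
                            · skip
                              linarith only [b1, hmN, hm, hs, mu4, y1, y2, y3, y4, y5, y6, y7]
                          · skip
                            rcases z7 with y7 | y7
                            · skip
                              linarith only [b5, hmN, hm, hs, mu5, y1, y2, y3, y4, y5, y6, y7]
                            · skip
                              linarith only [c0, hm, mw2, y1, y2, y3, y4, y5, y6, y7]
                  · skip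
                    rcases z3 with y3 | y3
                    · skip
                      rcases z4 with y4 | y4
                      · skip
                        rcases z5 with y5 | y5
                        · skip
                          rcases z6 with y6 | y6
                          · skip
                            rcases z7 with y7 | y7
                            · skip
                              linarith only [c4, hm, mw3, y1, y2, y3, y4, y5, y6, y7]
                            · skip
                              linarith only [b7, hmN, hm, hs, mw4, y1, y2, y3, y4, y5, y6, y7]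
                          · skip
                            rcases z7 with y7 | y7
                            · skip
                              linarith only [b3, hmN, hm, hs, mw5, y1, y2, y3, y4, y5, y6, y7]
                            · skip
                              linarith only [c6, hm, mu2, y1, y2, y3, y4, y5, y6, y7]
                        · skip
                          rcases z6 with y6 | y6
                          · skip
                            rcases z7 with y7 | y7
                            · skip
                              linarith only [b3, hmN, hm, hs, mw6, y1, y2, y3, y4, y5, y6, y7]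
                            · skip
                              linarith only [c5, hm, mu1, y1, y2, y3, y4, y5, y6, y7]
                          · skip
                            rcases z7 with y7 | y7
                            · skip
                              linarith only [b3, hmN, hm, hs, y1, y2, y3, y4, y5, y6, y7]
                            · skip
                              linarith only [b3, hmN, hm, hs, mu7, y1, y2, y3, y4, y5, y6, y7]
                      · skip
                        rcases z5 with y5 | y5
                        · skip
                          rcases z6 with y6 | y6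
                          · skip
                            rcases z7 with y7 | y7
                            · skip
                              linarith only [b7, hmN, hm, hs, mw7, y1, y2, y3, y4, y5, y6, y7]
                            · skip
                              linarith only [b7, hmN, hm, hs, y1, y2, y3, y4, y5, y6, y7]
                          · skip
                            rcases z7 with y7 | y7
                            · skip
                              linarith only [c1, hm, mu1, y1, y2, y3, y4, y5, y6, y7]
                            · skip
                              linarith only [b7, hmN, hm, hs, mu6, y1, y2, y3, y4, y5, y6, y7]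
                        · skip
                          rcases z6 with y6 | y6
                          · skip
                            rcases z7 with y7 | y7
                            · skip
                              linarith only [c2, hm, mu2, y1, y2, y3, y4, y5, y6, y7]
                            · skip
                              linarith only [b7, hmN, hm, hs, mu5, y1, y2, y3, y4, y5, y6, y7]
                          · skip
                            rcases z7 with y7 | y7
                            · skip
                              linarith only [b3, hmN, hm, hs, mu4, y1, y2, y3, y4, y5, y6, y7]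
                            · skip
                              linarith only [c0, hm, mw3, y1, y2, y3, y4, y5, y6, y7]
                    · skip
                      rcases z4 with y4 | y4
                      · skip
                        rcases z5 with y5 | y5
                        · skip
                          rcases z6 with y6 | y6
                          · skip
                            rcases z7 with y7 | y7
                            · skip
                              linarith only [c4, hm, y1, y2, y3, y4, y5, y6, y7]
                            · skip
                              linarith only [c4, hm, mu7, y1, y2, y3, y4, y5, y6, y7]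
                          · skip
                            rcases z7 with y7 | y7
                            · skip
                              linarith only [c4, hm, mu6, y1, y2, y3, y4, y5, y6, y7]
                            · skip
                              linarith only [b2, hmN, hm, hs, mu1, y1, y2, y3, y4, y5, y6, y7]
                        · skip
                          rcases z6 with y6 | y6
                          · skip
                            rcases z7 with y7 | y7
                            · skip
                              linarith only [c4, hm, mu5, y1, y2, y3, y4, y5, y6, y7]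
                            · skip
                              linarith only [b1, hmN, hm, hs, mu2, y1, y2, y3, y4, y5, y6, y7]
                          · skip
                            rcases z7 with y7 | y7
                            · skip
                              linarith only [b3, hmN, hm, hs, mu3, y1, y2, y3, y4, y5, y6, y7]
                            · skip
                              linarith only [c0, hm, mw4, y1, y2, y3, y4, y5, y6, y7]
                      · skip
                        rcases z5 with y5 | y5
                        · skip
                          rcases z6 with y6 | y6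
                          · skip
                            rcases z7 with y7 | y7
                            · skip
                              linarith only [c4, hm, mu4, y1, y2, y3, y4, y5, y6, y7]
                            · skip
                              linarith only [b7, hmN, hm, hs, mu3, y1, y2, y3, y4, y5, y6, y7]
                          · skip
                            rcases z7 with y7 | y7
                            · skip
                              linarith only [b5, hmN, hm, hs, mu2, y1, y2, y3, y4, y5, y6, y7]
                            · skip
                              linarith only [c0, hm, mw5, y1, y2, y3, y4, y5, y6, y7]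
                        · skip
                          rcases z6 with y6 | y6
                          · skip
                            rcases z7 with y7 | y7
                            · skip
                              linarith only [b6, hmN, hm, hs, mu1, y1, y2, y3, y4, y5, y6, y7]
                            · skip
                              linarith only [c0, hm, mw6, y1, y2, y3, y4, y5, y6, y7]
                          · skip
                            rcases z7 with y7 | y7
                            · skip
                              linarith only [c0, hm, mw7, y1, y2, y3, y4, y5, y6, y7]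
                            · skip
                              linarith only [c0, hm, y1, y2, y3, y4, y5, y6, y7]
              · skip
                have z1 := k1 t2 t4 t6
                have z2 := k2 t1 t4 t5
                have z4 := k4 t1 t2 t3
                rcases z1 with y1 | y1
                · skip
                  rcases z2 with y2 | y2
                  · skip
                    rcases z4 with y4 | y4
                    · skip
                      linarith only [t7, hs, c7, b0, mu7, y1, y2, y4, nu1, nw1, nu2, nw2, nu3, nw3, nu4, nw4, nu5, nw5, nu6, nw6, nu7, nw7]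
                    · skip
                      linarith only [t7, hs, c3, b4, mw7, y1, y2, y4, nu1, nw1, nu2, nw2, nu3, nw3, nu4, nw4, nu5, nw5, nu6, nw6, nu7, nw7]
                  · skip
                    rcases z4 with y4 | y4
                    · skip
                      linarith only [t7, hs, c5, b2, mw7, y1, y2, y4, nu1, nw1, nu2, nw2, nu3, nw3, nu4, nw4, nu5, nw5, nu6, nw6, nu7, nw7]
                    · skip
                      linarith only [t7, hs, c1, b6, mu7, y1, y2, y4, nu1, nw1, nu2, nw2, nu3, nw3, nu4, nw4, nu5, nw5, nu6, nw6, nu7, nw7]
                · skip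
                  rcases z2 with y2 | y2
                  · skip
                    rcases z4 with y4 | y4
                    · skip
                      linarith only [t7, hs, c6, b1, mw7, y1, y2, y4, nu1, nw1, nu2, nw2, nu3, nw3, nu4, nw4, nu5, nw5, nu6, nw6, nu7, nw7]
                    · skip
                      linarith only [t7, hs, c2, b5, mu7, y1, y2, y4, nu1, nw1, nu2, nw2, nu3, nw3, nu4, nw4, nu5, nw5, nu6, nw6, nu7, nw7]
                  · skip
                    rcases z4 with y4 | y4
                    · skip
                      linarith only [t7, hs, c4, b3, mu7, y1, y2, y4, nu1, nw1, nu2, nw2, nu3, nw3, nu4, nw4, nu5, nw5, nu6, nw6, nu7, nw7]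
                    · skip
                      linarith only [t7, hs, c0, b7, mw7, y1, y2, y4, nu1, nw1, nu2, nw2, nu3, nw3, nu4, nw4, nu5, nw5, nu6, nw6, nu7, nw7]
            · skip
              rcases lt_or_ge (u1 + w1 + u2 + w2 + u4 + w4 + u7 + w7) (2 * N) with t7 | t7
              · skip
                have z2 := k2 t1 t4 t5
                have z3 := k3 t3 t4 t7
                have z4 := k4 t1 t2 t3
                rcases z2 with y2 | y2
                · skip
                  rcases z3 with y3 | y3
                  · skip
                    rcases z4 with y4 | y4
                    · skip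
                      linarith only [t6, hs, c6, b0, mu5, y2, y3, y4, nu1, nw1, nu2, nw2, nu3, nw3, nu4, nw4, nu5, nw5, nu6, nw6, nu7, nw7]
                    · skip
                      linarith only [t6, hs, c2, b4, mw5, y2, y3, y4, nu1, nw1, nu2, nw2, nu3, nw3, nu4, nw4, nu5, nw5, nu6, nw6, nu7, nw7]
                  · skip
                    rcases z4 with y4 | y4
                    · skip
                      linarith only [t6, hs, c7, b1, mw5, y2, y3, y4, nu1, nw1, nu2, nw2, nu3, nw3, nu4, nw4, nu5, nw5, nu6, nw6, nu7, nw7]
                    · skip
                      linarith only [t6, hs, c3, b5, mu5, y2, y3, y4, nu1, nw1, nu2, nw2, nu3, nw3, nu4, nw4, nu5, nw5, nu6, nw6, nu7, nw7]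
                · skip
                  rcases z3 with y3 | y3
                  · skip
                    rcases z4 with y4 | y4
                    · skip
                      linarith only [t6, hs, c5, b3, mw5, y2, y3, y4, nu1, nw1, nu2, nw2, nu3, nw3, nu4, nw4, nu5, nw5, nu6, nw6, nu7, nw7]
                    · skip
                      linarith only [t6, hs, c1, b7, mu5, y2, y3, y4, nu1, nw1, nu2, nw2, nu3, nw3, nu4, nw4, nu5, nw5, nu6, nw6, nu7, nw7]
                  · skip
                    rcases z4 with y4 | y4
                    · skip
                      linarith only [t6, hs, c4, b2, mu5, y2, y3, y4, nu1, nw1, nu2, nw2, nu3, nw3, nu4, nw4, nu5, nw5, nu6, nw6, nu7, nw7]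
                    · skip
                      linarith only [t6, hs, c0, b6, mw5, y2, y3, y4, nu1, nw1, nu2, nw2, nu3, nw3, nu4, nw4, nu5, nw5, nu6, nw6, nu7, nw7]
              · skip
                have z2 : u2 + w2 ≤ m := by rcases k2 t1 t4 t5 with y | y <;> linarith only [y, mu2, mw2, nu2, nw2]
                have z4 : u4 + w4 ≤ m := by rcases k4 t1 t2 t3 with y | y <;> linarith only [y, mu4, mw4, nu4, nw4]
                linarith only [t6, t7, hs, hmN, z2, z4, nu1, nw1, nu2, nw2, nu3, nw3, nu4, nw4, nu5, nw5, nu6, nw6, nu7, nw7]
          · skip
            rcases lt_or_ge (u2 + w2 + u3 + w3 + u4 + w4 + u5 + w5) (2 * N) with t6 | t6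
            · skip
              rcases lt_or_ge (u1 + w1 + u2 + w2 + u4 + w4 + u7 + w7) (2 * N) with t7 | t7
              · skip
                have z1 := k1 t2 t4 t6
                have z3 := k3 t3 t4 t7
                have z4 := k4 t1 t2 t3
                rcases z1 with y1 | y1
                · skip
                  rcases z3 with y3 | y3
                  · skip
                    rcases z4 with y4 | y4
                    · skip
                      linarith only [t5, hs, c5, b0, mu6, y1, y3, y4, nu1, nw1, nu2, nw2, nu3, nw3, nu4, nw4, nu5, nw5, nu6, nw6, nu7, nw7]
                    · skip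
                      linarith only [t5, hs, c1, b4, mw6, y1, y3, y4, nu1, nw1, nu2, nw2, nu3, nw3, nu4, nw4, nu5, nw5, nu6, nw6, nu7, nw7]
                  · skip
                    rcases z4 with y4 | y4
                    · skip
                      linarith only [t5, hs, c7, b2, mw6, y1, y3, y4, nu1, nw1, nu2, nw2, nu3, nw3, nu4, nw4, nu5, nw5, nu6, nw6, nu7, nw7]
                    · skip
                      linarith only [t5, hs, c3, b6, mu6, y1, y3, y4, nu1, nw1, nu2, nw2, nu3, nw3, nu4, nw4, nu5, nw5, nu6, nw6, nu7, nw7]
                · skip
                  rcases z3 with y3 | y3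
                  · skip
                    rcases z4 with y4 | y4
                    · skip
                      linarith only [t5, hs, c6, b3, mw6, y1, y3, y4, nu1, nw1, nu2, nw2, nu3, nw3, nu4, nw4, nu5, nw5, nu6, nw6, nu7, nw7]
                    · skip
                      linarith only [t5, hs, c2, b7, mu6, y1, y3, y4, nu1, nw1, nu2, nw2, nu3, nw3, nu4, nw4, nu5, nw5, nu6, nw6, nu7, nw7]
                  · skip
                    rcases z4 with y4 | y4
                    · skip
                      linarith only [t5, hs, c4, b1, mu6, y1, y3, y4, nu1, nw1, nu2, nw2, nu3, nw3, nu4, nw4, nu5, nw5, nu6, nw6, nu7, nw7]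
                    · skip
                      linarith only [t5, hs, c0, b5, mw6, y1, y3, y4, nu1, nw1, nu2, nw2, nu3, nw3, nu4, nw4, nu5, nw5, nu6, nw6, nu7, nw7]
              · skip
                have z1 : u1 + w1 ≤ m := by rcases k1 t2 t4 t6 with y | y <;> linarith only [y, mu1, mw1, nu1, nw1]
                have z4 : u4 + w4 ≤ m := by rcases k4 t1 t2 t3 with y | y <;> linarith only [y, mu4, mw4, nu4, nw4]
                linarith only [t5, t7, hs, hmN, z1, z4, nu1, nw1, nu2, nw2, nu3, nw3, nu4, nw4, nu5, nw5, nu6, nw6, nu7, nw7]
            · skip
              rcases lt_or_ge (u1 + w1 + u2 + w2 + u4 + w4 + u7 + w7) (2 * N) with t7 | t7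
              · skip
                have z3 : u3 + w3 ≤ m := by rcases k3 t3 t4 t7 with y | y <;> linarith only [y, mu3, mw3, nu3, nw3]
                have z4 : u4 + w4 ≤ m := by rcases k4 t1 t2 t3 with y | y <;> linarith only [y, mu4, mw4, nu4, nw4]
                linarith only [t5, t6, hs, hmN, z3, z4, nu1, nw1, nu2, nw2, nu3, nw3, nu4, nw4, nu5, nw5, nu6, nw6, nu7, nw7]
              · skip
                rcases k4 (by linarith only [t6, t7, a1, hs, hm, nu1, nw1, nu2, nw2, nu3, nw3, nu4, nw4, nu5, nw5, nu6, nw6, nu7, nw7]) (by linarith only [t5, t7, a2, hs, hm, nu1, nw1, nu2, nw2, nu3, nw3, nu4, nw4, nu5, nw5, nu6, nw6, nu7, nw7]) (by linarith only [t5, t6, a3, hs, hm, nu1, nw1, nu2, nw2, nu3, nw3, nu4, nw4, nu5, nw5, nu6, nw6, nu7, nw7]) with y | y <;> linarith only [y, t5, t6, t7, hs, hm, mu4, mw4, nu1, nw1, nu2, nw2, nu3, nw3, nu4, nw4, nu5, nw5, nu6, nw6, nu7, nw7]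
        · skip
          rcases lt_or_ge (u1 + w1 + u3 + w3 + u4 + w4 + u6 + w6) (2 * N) with t5 | t5
          · skip
            rcases lt_or_ge (u2 + w2 + u3 + w3 + u4 + w4 + u5 + w5) (2 * N) with t6 | t6
            · skip
              rcases lt_or_ge (u1 + w1 + u2 + w2 + u4 + w4 + u7 + w7) (2 * N) with t7 | t7
              · skip
                have z4 := k4 t1 t2 t3
                have z5 := k5 t2 t5 t7
                have z6 := k6 t1 t6 t7
                rcases z4 with y4 | y4
                · skip
                  rcases z5 with y5 | y5
                  · skip
                    rcases z6 with y6 | y6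
                    · skip
                      linarith only [t4, hs, c4, b0, mu7, y4, y5, y6, nu1, nw1, nu2, nw2, nu3, nw3, nu4, nw4, nu5, nw5, nu6, nw6, nu7, nw7]
                    · skip
                      linarith only [t4, hs, c6, b2, mw7, y4, y5, y6, nu1, nw1, nu2, nw2, nu3, nw3, nu4, nw4, nu5, nw5, nu6, nw6, nu7, nw7]
                  · skip
                    rcases z6 with y6 | y6
                    · skip
                      linarith only [t4, hs, c5, b1, mw7, y4, y5, y6, nu1, nw1, nu2, nw2, nu3, nw3, nu4, nw4, nu5, nw5, nu6, nw6, nu7, nw7]
                    · skip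
                      linarith only [t4, hs, c7, b3, mu7, y4, y5, y6, nu1, nw1, nu2, nw2, nu3, nw3, nu4, nw4, nu5, nw5, nu6, nw6, nu7, nw7]
                · skip
                  rcases z5 with y5 | y5
                  · skip
                    rcases z6 with y6 | y6
                    · skip
                      linarith only [t4, hs, c3, b7, mw7, y4, y5, y6, nu1, nw1, nu2, nw2, nu3, nw3, nu4, nw4, nu5, nw5, nu6, nw6, nu7, nw7]
                    · skip
                      linarith only [t4, hs, c1, b5, mu7, y4, y5, y6, nu1, nw1, nu2, nw2, nu3, nw3, nu4, nw4, nu5, nw5, nu6, nw6, nu7, nw7]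
                  · skip
                    rcases z6 with y6 | y6
                    · skip
                      linarith only [t4, hs, c2, b6, mu7, y4, y5, y6, nu1, nw1, nu2, nw2, nu3, nw3, nu4, nw4, nu5, nw5, nu6, nw6, nu7, nw7]
                    · skip
                      linarith only [t4, hs, c0, b4, mw7, y4, y5, y6, nu1, nw1, nu2, nw2, nu3, nw3, nu4, nw4, nu5, nw5, nu6, nw6, nu7, nw7]
              · skip
                have z4 : u4 + w4 ≤ m := by rcases k4 t1 t2 t3 with y | y <;> linarith only [y, mu4, mw4, nu4, nw4]
                have z7 : u7 + w7 ≤ m := by rcases k7 t3 t5 t6 with y | y <;> linarith only [y, mu7, mw7, nu7, nw7]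
                linarith only [t4, t7, hs, hmN, z4, z7, nu1, nw1, nu2, nw2, nu3, nw3, nu4, nw4, nu5, nw5, nu6, nw6, nu7, nw7]
            · skip
              rcases lt_or_ge (u1 + w1 + u2 + w2 + u4 + w4 + u7 + w7) (2 * N) with t7 | t7
              · skip
                have z4 : u4 + w4 ≤ m := by rcases k4 t1 t2 t3 with y | y <;> linarith only [y, mu4, mw4, nu4, nw4]
                have z5 : u5 + w5 ≤ m := by rcases k5 t2 t5 t7 with y | y <;> linarith only [y, mu5, mw5, nu5, nw5]
                linarith only [t4, t6, hs, hmN, z4, z5, nu1, nw1, nu2, nw2, nu3, nw3, nu4, nw4, nu5, nw5, nu6, nw6, nu7, nw7]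
              · skip
                rcases k4 (by linarith only [t6, t7, a1, hs, hm, nu1, nw1, nu2, nw2, nu3, nw3, nu4, nw4, nu5, nw5, nu6, nw6, nu7, nw7]) (by linarith only [t4, t6, a2, hs, hm, nu1, nw1, nu2, nw2, nu3, nw3, nu4, nw4, nu5, nw5, nu6, nw6, nu7, nw7]) (by linarith only [t4, t7, a3, hs, hm, nu1, nw1, nu2, nw2, nu3, nw3, nu4, nw4, nu5, nw5, nu6, nw6, nu7, nw7]) with y | y <;> linarith only [y, t4, t6, t7, hs, hm, mu4, mw4, nu1, nw1, nu2, nw2, nu3, nw3, nu4, nw4, nu5, nw5, nu6, nw6, nu7, nw7]
          · skip
            rcases lt_or_ge (u2 + w2 + u3 + w3 + u4 + w4 + u5 + w5) (2 * N) with t6 | t6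
            · skip
              rcases lt_or_ge (u1 + w1 + u2 + w2 + u4 + w4 + u7 + w7) (2 * N) with t7 | t7
              · skip
                have z4 : u4 + w4 ≤ m := by rcases k4 t1 t2 t3 with y | y <;> linarith only [y, mu4, mw4, nu4, nw4]
                have z6 : u6 + w6 ≤ m := by rcases k6 t1 t6 t7 with y | y <;> linarith only [y, mu6, mw6, nu6, nw6]
                linarith only [t4, t5, hs, hmN, z4, z6, nu1, nw1, nu2, nw2, nu3, nw3, nu4, nw4, nu5, nw5, nu6, nw6, nu7, nw7]
              · skip
                rcases k4 (by linarith only [t4, t5, a1, hs, hm, nu1, nw1, nu2, nw2, nu3, nw3, nu4, nw4, nu5, nw5, nu6, nw6, nu7, nw7]) (by linarith only [t5, t7, a2, hs, hm, nu1, nw1, nu2, nw2, nu3, nw3, nu4, nw4, nu5, nw5, nu6, nw6, nu7, nw7]) (by linarith only [t4, t7, a3, hs, hm, nu1, nw1, nu2, nw2, nu3, nw3, nu4, nw4, nu5, nw5, nu6, nw6, nu7, nw7]) with y | y <;> linarith only [y, t4, t5, t7, hs, hm, mu4, mw4, nu1, nw1, nu2, nw2, nu3, nw3, nu4, nw4, nu5, nw5, nu6, nw6, nu7, nw7]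
            · skip
              rcases k4 (by linarith only [t4, t5, a1, hs, hm, nu1, nw1, nu2, nw2, nu3, nw3, nu4, nw4, nu5, nw5, nu6, nw6, nu7, nw7]) (by linarith only [t4, t6, a2, hs, hm, nu1, nw1, nu2, nw2, nu3, nw3, nu4, nw4, nu5, nw5, nu6, nw6, nu7, nw7]) (by linarith only [t5, t6, a3, hs, hm, nu1, nw1, nu2, nw2, nu3, nw3, nu4, nw4, nu5, nw5, nu6, nw6, nu7, nw7]) with y | y <;> linarith only [y, t4, t5, t6, hs, hm, mu4, mw4, nu1, nw1, nu2, nw2, nu3, nw3, nu4, nw4, nu5, nw5, nu6, nw6, nu7, nw7]
      · skip
        rcases lt_or_ge (u4 + w4 + u5 + w5 + u6 + w6 + u7 + w7) (2 * N) with t4 | t4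
        · skip
          rcases lt_or_ge (u1 + w1 + u3 + w3 + u4 + w4 + u6 + w6) (2 * N) with t5 | t5
          · skip
            rcases lt_or_ge (u2 + w2 + u3 + w3 + u4 + w4 + u5 + w5) (2 * N) with t6 | t6
            · skip
              rcases lt_or_ge (u1 + w1 + u2 + w2 + u4 + w4 + u7 + w7) (2 * N) with t7 | t7
              · skip
                have z1 := k1 t2 t4 t6
                have z2 := k2 t1 t4 t5
                have z5 := k5 t2 t5 t7
                rcases z1 with y1 | y1
                · skip
                  rcases z2 with y2 | y2
                  · skip
                    rcases z5 with y5 | y5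
                    · skip
                      linarith only [t3, hs, c3, b0, mu6, y1, y2, y5, nu1, nw1, nu2, nw2, nu3, nw3, nu4, nw4, nu5, nw5, nu6, nw6, nu7, nw7]
                    · skip
                      linarith only [t3, hs, c7, b4, mw6, y1, y2, y5, nu1, nw1, nu2, nw2, nu3, nw3, nu4, nw4, nu5, nw5, nu6, nw6, nu7, nw7]
                  · skip
                    rcases z5 with y5 | y5
                    · skip
                      linarith only [t3, hs, c1, b2, mw6, y1, y2, y5, nu1, nw1, nu2, nw2, nu3, nw3, nu4, nw4, nu5, nw5, nu6, nw6, nu7, nw7]
                    · skip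
                      linarith only [t3, hs, c5, b6, mu6, y1, y2, y5, nu1, nw1, nu2, nw2, nu3, nw3, nu4, nw4, nu5, nw5, nu6, nw6, nu7, nw7]
                · skip
                  rcases z2 with y2 | y2
                  · skip
                    rcases z5 with y5 | y5
                    · skip
                      linarith only [t3, hs, c6, b5, mw6, y1, y2, y5, nu1, nw1, nu2, nw2, nu3, nw3, nu4, nw4, nu5, nw5, nu6, nw6, nu7, nw7]
                    · skip
                      linarith only [t3, hs, c2, b1, mu6, y1, y2, y5, nu1, nw1, nu2, nw2, nu3, nw3, nu4, nw4, nu5, nw5, nu6, nw6, nu7, nw7]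
                  · skip
                    rcases z5 with y5 | y5
                    · skip
                      linarith only [t3, hs, c4, b7, mu6, y1, y2, y5, nu1, nw1, nu2, nw2, nu3, nw3, nu4, nw4, nu5, nw5, nu6, nw6, nu7, nw7]
                    · skip
                      linarith only [t3, hs, c0, b3, mw6, y1, y2, y5, nu1, nw1, nu2, nw2, nu3, nw3, nu4, nw4, nu5, nw5, nu6, nw6, nu7, nw7]
              · skip
                have z1 : u1 + w1 ≤ m := by rcases k1 t2 t4 t6 with y | y <;> linarith only [y, mu1, mw1, nu1, nw1]
                have z2 : u2 + w2 ≤ m := by rcases k2 t1 t4 t5 with y | y <;> linarith only [y, mu2, mw2, nu2, nw2]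
                linarith only [t3, t7, hs, hmN, z1, z2, nu1, nw1, nu2, nw2, nu3, nw3, nu4, nw4, nu5, nw5, nu6, nw6, nu7, nw7]
            · skip
              rcases lt_or_ge (u1 + w1 + u2 + w2 + u4 + w4 + u7 + w7) (2 * N) with t7 | t7
              · skip
                have z2 : u2 + w2 ≤ m := by rcases k2 t1 t4 t5 with y | y <;> linarith only [y, mu2, mw2, nu2, nw2]
                have z5 : u5 + w5 ≤ m := by rcases k5 t2 t5 t7 with y | y <;> linarith only [y, mu5, mw5, nu5, nw5]
                linarith only [t3, t6, hs, hmN, z2, z5, nu1, nw1, nu2, nw2, nu3, nw3, nu4, nw4, nu5, nw5, nu6, nw6, nu7, nw7]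
              · skip
                rcases k2 (by linarith only [t6, t7, a1, hs, hm, nu1, nw1, nu2, nw2, nu3, nw3, nu4, nw4, nu5, nw5, nu6, nw6, nu7, nw7]) (by linarith only [t3, t7, a4, hs, hm, nu1, nw1, nu2, nw2, nu3, nw3, nu4, nw4, nu5, nw5, nu6, nw6, nu7, nw7]) (by linarith only [t3, t6, a5, hs, hm, nu1, nw1, nu2, nw2, nu3, nw3, nu4, nw4, nu5, nw5, nu6, nw6, nu7, nw7]) with y | y <;> linarith only [y, t3, t6, t7, hs, hm, mu2, mw2, nu1, nw1, nu2, nw2, nu3, nw3, nu4, nw4, nu5, nw5, nu6, nw6, nu7, nw7]
          · skip
            rcases lt_or_ge (u2 + w2 + u3 + w3 + u4 + w4 + u5 + w5) (2 * N) with t6 | t6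
            · skip
              rcases lt_or_ge (u1 + w1 + u2 + w2 + u4 + w4 + u7 + w7) (2 * N) with t7 | t7
              · skip
                have z1 : u1 + w1 ≤ m := by rcases k1 t2 t4 t6 with y | y <;> linarith only [y, mu1, mw1, nu1, nw1]
                have z6 : u6 + w6 ≤ m := by rcases k6 t1 t6 t7 with y | y <;> linarith only [y, mu6, mw6, nu6, nw6]
                linarith only [t3, t5, hs, hmN, z1, z6, nu1, nw1, nu2, nw2, nu3, nw3, nu4, nw4, nu5, nw5, nu6, nw6, nu7, nw7]
              · skip
                rcases k1 (by linarith only [t5, t7, a2, hs, hm, nu1, nw1, nu2, nw2, nu3, nw3, nu4, nw4, nu5, nw5, nu6, nw6, nu7, nw7]) (by linarith only [t3, t7, a4, hs, hm, nu1, nw1, nu2, nw2, nu3, nw3, nu4, nw4, nu5, nw5, nu6, nw6, nu7, nw7]) (by linarith only [t3, t5, a6, hs, hm, nu1, nw1, nu2, nw2, nu3, nw3, nu4, nw4, nu5, nw5, nu6, nw6, nu7, nw7]) with y | y <;> linarith only [y, t3, t5, t7, hs, hm, mu1, mw1, nu1, nw1, nu2, nw2, nu3, nw3, nu4, nw4, nu5, nw5, nu6, nw6, nu7, nw7]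
            · skip
              linarith only [t3, t5, t6, hs, hm, nu1, nu2, nu3, nu4, nu5, nu6, nu7, nw1, nw2, nw3, nw4, nw5, nw6, nw7]
        · skip
          rcases lt_or_ge (u1 + w1 + u3 + w3 + u4 + w4 + u6 + w6) (2 * N) with t5 | t5
          · skip
            rcases lt_or_ge (u2 + w2 + u3 + w3 + u4 + w4 + u5 + w5) (2 * N) with t6 | t6
            · skip
              rcases lt_or_ge (u1 + w1 + u2 + w2 + u4 + w4 + u7 + w7) (2 * N) with t7 | t7
              · skip
                have z5 : u5 + w5 ≤ m := by rcases k5 t2 t5 t7 with y | y <;> linarith only [y, mu5, mw5, nu5, nw5]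
                have z6 : u6 + w6 ≤ m := by rcases k6 t1 t6 t7 with y | y <;> linarith only [y, mu6, mw6, nu6, nw6]
                linarith only [t3, t4, hs, hmN, z5, z6, nu1, nw1, nu2, nw2, nu3, nw3, nu4, nw4, nu5, nw5, nu6, nw6, nu7, nw7]
              · skip
                linarith only [t3, t4, t7, hs, hm, nu1, nu2, nu3, nu4, nu5, nu6, nu7, nw1, nw2, nw3, nw4, nw5, nw6, nw7]
            · skip
              rcases k5 (by linarith only [t4, t6, a2, hs, hm, nu1, nw1, nu2, nw2, nu3, nw3, nu4, nw4, nu5, nw5, nu6, nw6, nu7, nw7]) (by linarith only [t3, t6, a5, hs, hm, nu1, nw1, nu2, nw2, nu3, nw3, nu4, nw4, nu5, nw5, nu6, nw6, nu7, nw7]) (by linarith only [t3, t4, a7, hs, hm, nu1, nw1, nu2, nw2, nu3, nw3, nu4, nw4, nu5, nw5, nu6, nw6, nu7, nw7]) with y | y <;> linarith only [y, t3, t4, t6, hs, hm, mu5, mw5, nu1, nw1, nu2, nw2, nu3, nw3, nu4, nw4, nu5, nw5, nu6, nw6, nu7, nw7]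
          · skip
            rcases k6 (by linarith only [t4, t5, a1, hs, hm, nu1, nw1, nu2, nw2, nu3, nw3, nu4, nw4, nu5, nw5, nu6, nw6, nu7, nw7]) (by linarith only [t3, t5, a6, hs, hm, nu1, nw1, nu2, nw2, nu3, nw3, nu4, nw4, nu5, nw5, nu6, nw6, nu7, nw7]) (by linarith only [t3, t4, a7, hs, hm, nu1, nw1, nu2, nw2, nu3, nw3, nu4, nw4, nu5, nw5, nu6, nw6, nu7, nw7]) with y | y <;> linarith only [y, t3, t4, t5, hs, hm, mu6, mw6, nu1, nw1, nu2, nw2, nu3, nw3, nu4, nw4, nu5, nw5, nu6, nw6, nu7, nw7]
    · skip
      rcases lt_or_ge (u1 + w1 + u2 + w2 + u5 + w5 + u6 + w6) (2 * N) with t3 | t3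
      · skip
        rcases lt_or_ge (u4 + w4 + u5 + w5 + u6 + w6 + u7 + w7) (2 * N) with t4 | t4
        · skip
          rcases lt_or_ge (u1 + w1 + u3 + w3 + u4 + w4 + u6 + w6) (2 * N) with t5 | t5
          · skip
            rcases lt_or_ge (u2 + w2 + u3 + w3 + u4 + w4 + u5 + w5) (2 * N) with t6 | t6
            · skip
              rcases lt_or_ge (u1 + w1 + u2 + w2 + u4 + w4 + u7 + w7) (2 * N) with t7 | t7
              · skip
                have z2 := k2 t1 t4 t5
                have z3 := k3 t3 t4 t7
                have z6 := k6 t1 t6 t7
                rcases z2 with y2 | y2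
                · skip
                  rcases z3 with y3 | y3
                  · skip
                    rcases z6 with y6 | y6
                    · skip
                      linarith only [t2, hs, c2, b0, mu7, y2, y3, y6, nu1, nw1, nu2, nw2, nu3, nw3, nu4, nw4, nu5, nw5, nu6, nw6, nu7, nw7]
                    · skip
                      linarith only [t2, hs, c6, b4, mw7, y2, y3, y6, nu1, nw1, nu2, nw2, nu3, nw3, nu4, nw4, nu5, nw5, nu6, nw6, nu7, nw7]
                  · skip
                    rcases z6 with y6 | y6
                    · skip
                      linarith only [t2, hs, c3, b1, mw7, y2, y3, y6, nu1, nw1, nu2, nw2, nu3, nw3, nu4, nw4, nu5, nw5, nu6, nw6, nu7, nw7]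
                    · skip
                      linarith only [t2, hs, c7, b5, mu7, y2, y3, y6, nu1, nw1, nu2, nw2, nu3, nw3, nu4, nw4, nu5, nw5, nu6, nw6, nu7, nw7]
                · skip
                  rcases z3 with y3 | y3
                  · skip
                    rcases z6 with y6 | y6
                    · skip
                      linarith only [t2, hs, c5, b7, mw7, y2, y3, y6, nu1, nw1, nu2, nw2, nu3, nw3, nu4, nw4, nu5, nw5, nu6, nw6, nu7, nw7]
                    · skip
                      linarith only [t2, hs, c1, b3, mu7, y2, y3, y6, nu1, nw1, nu2, nw2, nu3, nw3, nu4, nw4, nu5, nw5, nu6, nw6, nu7, nw7]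
                  · skip
                    rcases z6 with y6 | y6
                    · skip
                      linarith only [t2, hs, c4, b6, mu7, y2, y3, y6, nu1, nw1, nu2, nw2, nu3, nw3, nu4, nw4, nu5, nw5, nu6, nw6, nu7, nw7]
                    · skip
                      linarith only [t2, hs, c0, b2, mw7, y2, y3, y6, nu1, nw1, nu2, nw2, nu3, nw3, nu4, nw4, nu5, nw5, nu6, nw6, nu7, nw7]
              · skip
                have z2 : u2 + w2 ≤ m := by rcases k2 t1 t4 t5 with y | y <;> linarith only [y, mu2, mw2, nu2, nw2]
                have z7 : u7 + w7 ≤ m := by rcases k7 t3 t5 t6 with y | y <;> linarith only [y, mu7, mw7, nu7, nw7]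
                linarith only [t2, t7, hs, hmN, z2, z7, nu1, nw1, nu2, nw2, nu3, nw3, nu4, nw4, nu5, nw5, nu6, nw6, nu7, nw7]
            · skip
              rcases lt_or_ge (u1 + w1 + u2 + w2 + u4 + w4 + u7 + w7) (2 * N) with t7 | t7
              · skip
                have z2 : u2 + w2 ≤ m := by rcases k2 t1 t4 t5 with y | y <;> linarith only [y, mu2, mw2, nu2, nw2]
                have z3 : u3 + w3 ≤ m := by rcases k3 t3 t4 t7 with y | y <;> linarith only [y, mu3, mw3, nu3, nw3]
                linarith only [t2, t6, hs, hmN, z2, z3, nu1, nw1, nu2, nw2, nu3, nw3, nu4, nw4, nu5, nw5, nu6, nw6, nu7, nw7]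
              · skip
                rcases k2 (by linarith only [t6, t7, a1, hs, hm, nu1, nw1, nu2, nw2, nu3, nw3, nu4, nw4, nu5, nw5, nu6, nw6, nu7, nw7]) (by linarith only [t2, t6, a4, hs, hm, nu1, nw1, nu2, nw2, nu3, nw3, nu4, nw4, nu5, nw5, nu6, nw6, nu7, nw7]) (by linarith only [t2, t7, a5, hs, hm, nu1, nw1, nu2, nw2, nu3, nw3, nu4, nw4, nu5, nw5, nu6, nw6, nu7, nw7]) with y | y <;> linarith only [y, t2, t6, t7, hs, hm, mu2, mw2, nu1, nw1, nu2, nw2, nu3, nw3, nu4, nw4, nu5, nw5, nu6, nw6, nu7, nw7]
          · skip
            rcases lt_or_ge (u2 + w2 + u3 + w3 + u4 + w4 + u5 + w5) (2 * N) with t6 | t6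
            · skip
              rcases lt_or_ge (u1 + w1 + u2 + w2 + u4 + w4 + u7 + w7) (2 * N) with t7 | t7
              · skip
                have z3 : u3 + w3 ≤ m := by rcases k3 t3 t4 t7 with y | y <;> linarith only [y, mu3, mw3, nu3, nw3]
                have z6 : u6 + w6 ≤ m := by rcases k6 t1 t6 t7 with y | y <;> linarith only [y, mu6, mw6, nu6, nw6]
                linarith only [t2, t5, hs, hmN, z3, z6, nu1, nw1, nu2, nw2, nu3, nw3, nu4, nw4, nu5, nw5, nu6, nw6, nu7, nw7]
              · skip
                linarith only [t2, t5, t7, hs, hm, nu1, nu2, nu3, nu4, nu5, nu6, nu7, nw1, nw2, nw3, nw4, nw5, nw6, nw7]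
            · skip
              rcases k3 (by linarith only [t5, t6, a3, hs, hm, nu1, nw1, nu2, nw2, nu3, nw3, nu4, nw4, nu5, nw5, nu6, nw6, nu7, nw7]) (by linarith only [t2, t6, a4, hs, hm, nu1, nw1, nu2, nw2, nu3, nw3, nu4, nw4, nu5, nw5, nu6, nw6, nu7, nw7]) (by linarith only [t2, t5, a7, hs, hm, nu1, nw1, nu2, nw2, nu3, nw3, nu4, nw4, nu5, nw5, nu6, nw6, nu7, nw7]) with y | y <;> linarith only [y, t2, t5, t6, hs, hm, mu3, mw3, nu1, nw1, nu2, nw2, nu3, nw3, nu4, nw4, nu5, nw5, nu6, nw6, nu7, nw7]
        · skip
          rcases lt_or_ge (u1 + w1 + u3 + w3 + u4 + w4 + u6 + w6) (2 * N) with t5 | t5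
          · skip
            rcases lt_or_ge (u2 + w2 + u3 + w3 + u4 + w4 + u5 + w5) (2 * N) with t6 | t6
            · skip
              rcases lt_or_ge (u1 + w1 + u2 + w2 + u4 + w4 + u7 + w7) (2 * N) with t7 | t7
              · skip
                have z6 : u6 + w6 ≤ m := by rcases k6 t1 t6 t7 with y | y <;> linarith only [y, mu6, mw6, nu6, nw6]
                have z7 : u7 + w7 ≤ m := by rcases k7 t3 t5 t6 with y | y <;> linarith only [y, mu7, mw7, nu7, nw7]
                linarith only [t2, t4, hs, hmN, z6, z7, nu1, nw1, nu2, nw2, nu3, nw3, nu4, nw4, nu5, nw5, nu6, nw6, nu7, nw7]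
              · skip
                rcases k7 (by linarith only [t4, t7, a3, hs, hm, nu1, nw1, nu2, nw2, nu3, nw3, nu4, nw4, nu5, nw5, nu6, nw6, nu7, nw7]) (by linarith only [t2, t7, a5, hs, hm, nu1, nw1, nu2, nw2, nu3, nw3, nu4, nw4, nu5, nw5, nu6, nw6, nu7, nw7]) (by linarith only [t2, t4, a6, hs, hm, nu1, nw1, nu2, nw2, nu3, nw3, nu4, nw4, nu5, nw5, nu6, nw6, nu7, nw7]) with y | y <;> linarith only [y, t2, t4, t7, hs, hm, mu7, mw7, nu1, nw1, nu2, nw2, nu3, nw3, nu4, nw4, nu5, nw5, nu6, nw6, nu7, nw7]
            · skip
              linarith only [t2, t4, t6, hs, hm, nu1, nu2, nu3, nu4, nu5, nu6, nu7, nw1, nw2, nw3, nw4, nw5, nw6, nw7]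
          · skip
            rcases k6 (by linarith only [t4, t5, a1, hs, hm, nu1, nw1, nu2, nw2, nu3, nw3, nu4, nw4, nu5, nw5, nu6, nw6, nu7, nw7]) (by linarith only [t2, t4, a6, hs, hm, nu1, nw1, nu2, nw2, nu3, nw3, nu4, nw4, nu5, nw5, nu6, nw6, nu7, nw7]) (by linarith only [t2, t5, a7, hs, hm, nu1, nw1, nu2, nw2, nu3, nw3, nu4, nw4, nu5, nw5, nu6, nw6, nu7, nw7]) with y | y <;> linarith only [y, t2, t4, t5, hs, hm, mu6, mw6, nu1, nw1, nu2, nw2, nu3, nw3, nu4, nw4, nu5, nw5, nu6, nw6, nu7, nw7]
      · skip
        rcases lt_or_ge (u4 + w4 + u5 + w5 + u6 + w6 + u7 + w7) (2 * N) with t4 | t4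
        · skip
          rcases lt_or_ge (u1 + w1 + u3 + w3 + u4 + w4 + u6 + w6) (2 * N) with t5 | t5
          · skip
            rcases lt_or_ge (u2 + w2 + u3 + w3 + u4 + w4 + u5 + w5) (2 * N) with t6 | t6
            · skip
              rcases lt_or_ge (u1 + w1 + u2 + w2 + u4 + w4 + u7 + w7) (2 * N) with t7 | t7
              · skip
                have z2 : u2 + w2 ≤ m := by rcases k2 t1 t4 t5 with y | y <;> linarith only [y, mu2, mw2, nu2, nw2]
                have z6 : u6 + w6 ≤ m := by rcases k6 t1 t6 t7 with y | y <;> linarith only [y, mu6, mw6, nu6, nw6]
                linarith only [t2, t3, hs, hmN, z2, z6, nu1, nw1, nu2, nw2, nu3, nw3, nu4, nw4, nu5, nw5, nu6, nw6, nu7, nw7]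
              · skip
                rcases k2 (by linarith only [t2, t3, a1, hs, hm, nu1, nw1, nu2, nw2, nu3, nw3, nu4, nw4, nu5, nw5, nu6, nw6, nu7, nw7]) (by linarith only [t3, t7, a4, hs, hm, nu1, nw1, nu2, nw2, nu3, nw3, nu4, nw4, nu5, nw5, nu6, nw6, nu7, nw7]) (by linarith only [t2, t7, a5, hs, hm, nu1, nw1, nu2, nw2, nu3, nw3, nu4, nw4, nu5, nw5, nu6, nw6, nu7, nw7]) with y | y <;> linarith only [y, t2, t3, t7, hs, hm, mu2, mw2, nu1, nw1, nu2, nw2, nu3, nw3, nu4, nw4, nu5, nw5, nu6, nw6, nu7, nw7]
            · skip
              rcases k2 (by linarith only [t2, t3, a1, hs, hm, nu1, nw1, nu2, nw2, nu3, nw3, nu4, nw4, nu5, nw5, nu6, nw6, nu7, nw7]) (by linarith only [t2, t6, a4, hs, hm, nu1, nw1, nu2, nw2, nu3, nw3, nu4, nw4, nu5, nw5, nu6, nw6, nu7, nw7]) (by linarith only [t3, t6, a5, hs, hm, nu1, nw1, nu2, nw2, nu3, nw3, nu4, nw4, nu5, nw5, nu6, nw6, nu7, nw7]) with y | y <;> linarith only [y, t2, t3, t6, hs, hm, mu2, mw2, nu1, nw1, nu2, nw2, nu3, nw3, nu4, nw4, nu5, nw5, nu6, nw6, nu7, nw7]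
          · skip
            rcases k6 (by linarith only [t2, t3, a1, hs, hm, nu1, nw1, nu2, nw2, nu3, nw3, nu4, nw4, nu5, nw5, nu6, nw6, nu7, nw7]) (by linarith only [t3, t5, a6, hs, hm, nu1, nw1, nu2, nw2, nu3, nw3, nu4, nw4, nu5, nw5, nu6, nw6, nu7, nw7]) (by linarith only [t2, t5, a7, hs, hm, nu1, nw1, nu2, nw2, nu3, nw3, nu4, nw4, nu5, nw5, nu6, nw6, nu7, nw7]) with y | y <;> linarith only [y, t2, t3, t5, hs, hm, mu6, mw6, nu1, nw1, nu2, nw2, nu3, nw3, nu4, nw4, nu5, nw5, nu6, nw6, nu7, nw7]
        · skip
          rcases k6 (by linarith only [t2, t3, a1, hs, hm, nu1, nw1, nu2, nw2, nu3, nw3, nu4, nw4, nu5, nw5, nu6, nw6, nu7, nw7]) (by linarith only [t2, t4, a6, hs, hm, nu1, nw1, nu2, nw2, nu3, nw3, nu4, nw4, nu5, nw5, nu6, nw6, nu7, nw7]) (by linarith only [t3, t4, a7, hs, hm, nu1, nw1, nu2, nw2, nu3, nw3, nu4, nw4, nu5, nw5, nu6, nw6, nu7, nw7]) with y | y <;> linarith only [y, t2, t3, t4, hs, hm, mu6, mw6, nu1, nw1, nu2, nw2, nu3, nw3, nu4, nw4, nu5, nw5, nu6, nw6, nu7, nw7]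
  · skip
    rcases lt_or_ge (u2 + w2 + u3 + w3 + u6 + w6 + u7 + w7) (2 * N) with t2 | t2
    · skip
      rcases lt_or_ge (u1 + w1 + u2 + w2 + u5 + w5 + u6 + w6) (2 * N) with t3 | t3
      · skip
        rcases lt_or_ge (u4 + w4 + u5 + w5 + u6 + w6 + u7 + w7) (2 * N) with t4 | t4
        · skip
          rcases lt_or_ge (u1 + w1 + u3 + w3 + u4 + w4 + u6 + w6) (2 * N) with t5 | t5
          · skip
            rcases lt_or_ge (u2 + w2 + u3 + w3 + u4 + w4 + u5 + w5) (2 * N) with t6 | t6
            · skip
              rcases lt_or_ge (u1 + w1 + u2 + w2 + u4 + w4 + u7 + w7) (2 * N) with t7 | t7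
              · skip
                have z1 := k1 t2 t4 t6
                have z3 := k3 t3 t4 t7
                have z5 := k5 t2 t5 t7
                rcases z1 with y1 | y1
                · skip
                  rcases z3 with y3 | y3
                  · skip
                    rcases z5 with y5 | y5
                    · skip
                      linarith only [t1, hs, c1, b0, mu7, y1, y3, y5, nu1, nw1, nu2, nw2, nu3, nw3, nu4, nw4, nu5, nw5, nu6, nw6, nu7, nw7]
                    · skip
                      linarith only [t1, hs, c5, b4, mw7, y1, y3, y5, nu1, nw1, nu2, nw2, nu3, nw3, nu4, nw4, nu5, nw5, nu6, nw6, nu7, nw7]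
                  · skip
                    rcases z5 with y5 | y5
                    · skip
                      linarith only [t1, hs, c3, b2, mw7, y1, y3, y5, nu1, nw1, nu2, nw2, nu3, nw3, nu4, nw4, nu5, nw5, nu6, nw6, nu7, nw7]
                    · skip
                      linarith only [t1, hs, c7, b6, mu7, y1, y3, y5, nu1, nw1, nu2, nw2, nu3, nw3, nu4, nw4, nu5, nw5, nu6, nw6, nu7, nw7]
                · skip
                  rcases z3 with y3 | y3
                  · skip
                    rcases z5 with y5 | y5
                    · skip
                      linarith only [t1, hs, c6, b7, mw7, y1, y3, y5, nu1, nw1, nu2, nw2, nu3, nw3, nu4, nw4, nu5, nw5, nu6, nw6, nu7, nw7]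
                    · skip
                      linarith only [t1, hs, c2, b3, mu7, y1, y3, y5, nu1, nw1, nu2, nw2, nu3, nw3, nu4, nw4, nu5, nw5, nu6, nw6, nu7, nw7]
                  · skip
                    rcases z5 with y5 | y5
                    · skip
                      linarith only [t1, hs, c4, b5, mu7, y1, y3, y5, nu1, nw1, nu2, nw2, nu3, nw3, nu4, nw4, nu5, nw5, nu6, nw6, nu7, nw7]
                    · skip
                      linarith only [t1, hs, c0, b1, mw7, y1, y3, y5, nu1, nw1, nu2, nw2, nu3, nw3, nu4, nw4, nu5, nw5, nu6, nw6, nu7, nw7]
              · skip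
                have z1 : u1 + w1 ≤ m := by rcases k1 t2 t4 t6 with y | y <;> linarith only [y, mu1, mw1, nu1, nw1]
                have z7 : u7 + w7 ≤ m := by rcases k7 t3 t5 t6 with y | y <;> linarith only [y, mu7, mw7, nu7, nw7]
                linarith only [t1, t7, hs, hmN, z1, z7, nu1, nw1, nu2, nw2, nu3, nw3, nu4, nw4, nu5, nw5, nu6, nw6, nu7, nw7]
            · skip
              rcases lt_or_ge (u1 + w1 + u2 + w2 + u4 + w4 + u7 + w7) (2 * N) with t7 | t7
              · skip
                have z3 : u3 + w3 ≤ m := by rcases k3 t3 t4 t7 with y | y <;> linarith only [y, mu3, mw3, nu3, nw3]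
                have z5 : u5 + w5 ≤ m := by rcases k5 t2 t5 t7 with y | y <;> linarith only [y, mu5, mw5, nu5, nw5]
                linarith only [t1, t6, hs, hmN, z3, z5, nu1, nw1, nu2, nw2, nu3, nw3, nu4, nw4, nu5, nw5, nu6, nw6, nu7, nw7]
              · skip
                linarith only [t1, t6, t7, hs, hm, nu1, nu2, nu3, nu4, nu5, nu6, nu7, nw1, nw2, nw3, nw4, nw5, nw6, nw7]
          · skip
            rcases lt_or_ge (u2 + w2 + u3 + w3 + u4 + w4 + u5 + w5) (2 * N) with t6 | t6
            · skip
              rcases lt_or_ge (u1 + w1 + u2 + w2 + u4 + w4 + u7 + w7) (2 * N) with t7 | t7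
              · skip
                have z1 : u1 + w1 ≤ m := by rcases k1 t2 t4 t6 with y | y <;> linarith only [y, mu1, mw1, nu1, nw1]
                have z3 : u3 + w3 ≤ m := by rcases k3 t3 t4 t7 with y | y <;> linarith only [y, mu3, mw3, nu3, nw3]
                linarith only [t1, t5, hs, hmN, z1, z3, nu1, nw1, nu2, nw2, nu3, nw3, nu4, nw4, nu5, nw5, nu6, nw6, nu7, nw7]
              · skip
                rcases k1 (by linarith only [t5, t7, a2, hs, hm, nu1, nw1, nu2, nw2, nu3, nw3, nu4, nw4, nu5, nw5, nu6, nw6, nu7, nw7]) (by linarith only [t1, t5, a4, hs, hm, nu1, nw1, nu2, nw2, nu3, nw3, nu4, nw4, nu5, nw5, nu6, nw6, nu7, nw7]) (by linarith only [t1, t7, a6, hs, hm, nu1, nw1, nu2, nw2, nu3, nw3, nu4, nw4, nu5, nw5, nu6, nw6, nu7, nw7]) with y | y <;> linarith only [y, t1, t5, t7, hs, hm, mu1, mw1, nu1, nw1, nu2, nw2, nu3, nw3, nu4, nw4, nu5, nw5, nu6, nw6, nu7, nw7]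
            · skip
              rcases k3 (by linarith only [t5, t6, a3, hs, hm, nu1, nw1, nu2, nw2, nu3, nw3, nu4, nw4, nu5, nw5, nu6, nw6, nu7, nw7]) (by linarith only [t1, t5, a4, hs, hm, nu1, nw1, nu2, nw2, nu3, nw3, nu4, nw4, nu5, nw5, nu6, nw6, nu7, nw7]) (by linarith only [t1, t6, a7, hs, hm, nu1, nw1, nu2, nw2, nu3, nw3, nu4, nw4, nu5, nw5, nu6, nw6, nu7, nw7]) with y | y <;> linarith only [y, t1, t5, t6, hs, hm, mu3, mw3, nu1, nw1, nu2, nw2, nu3, nw3, nu4, nw4, nu5, nw5, nu6, nw6, nu7, nw7]
        · skip
          rcases lt_or_ge (u1 + w1 + u3 + w3 + u4 + w4 + u6 + w6) (2 * N) with t5 | t5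
          · skip
            rcases lt_or_ge (u2 + w2 + u3 + w3 + u4 + w4 + u5 + w5) (2 * N) with t6 | t6
            · skip
              rcases lt_or_ge (u1 + w1 + u2 + w2 + u4 + w4 + u7 + w7) (2 * N) with t7 | t7
              · skip
                have z5 : u5 + w5 ≤ m := by rcases k5 t2 t5 t7 with y | y <;> linarith only [y, mu5, mw5, nu5, nw5]
                have z7 : u7 + w7 ≤ m := by rcases k7 t3 t5 t6 with y | y <;> linarith only [y, mu7, mw7, nu7, nw7]
                linarith only [t1, t4, hs, hmN, z5, z7, nu1, nw1, nu2, nw2, nu3, nw3, nu4, nw4, nu5, nw5, nu6, nw6, nu7, nw7]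
              · skip
                rcases k7 (by linarith only [t4, t7, a3, hs, hm, nu1, nw1, nu2, nw2, nu3, nw3, nu4, nw4, nu5, nw5, nu6, nw6, nu7, nw7]) (by linarith only [t1, t4, a5, hs, hm, nu1, nw1, nu2, nw2, nu3, nw3, nu4, nw4, nu5, nw5, nu6, nw6, nu7, nw7]) (by linarith only [t1, t7, a6, hs, hm, nu1, nw1, nu2, nw2, nu3, nw3, nu4, nw4, nu5, nw5, nu6, nw6, nu7, nw7]) with y | y <;> linarith only [y, t1, t4, t7, hs, hm, mu7, mw7, nu1, nw1, nu2, nw2, nu3, nw3, nu4, nw4, nu5, nw5, nu6, nw6, nu7, nw7]
            · skip
              rcases k5 (by linarith only [t4, t6, a2, hs, hm, nu1, nw1, nu2, nw2, nu3, nw3, nu4, nw4, nu5, nw5, nu6, nw6, nu7, nw7]) (by linarith only [t1, t4, a5, hs, hm, nu1, nw1, nu2, nw2, nu3, nw3, nu4, nw4, nu5, nw5, nu6, nw6, nu7, nw7]) (by linarith only [t1, t6, a7, hs, hm, nu1, nw1, nu2, nw2, nu3, nw3, nu4, nw4, nu5, nw5, nu6, nw6, nu7, nw7]) with y | y <;> linarith only [y, t1, t4, t6, hs, hm, mu5, mw5, nu1, nw1, nu2, nw2, nu3, nw3, nu4, nw4, nu5, nw5, nu6, nw6, nu7, nw7]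
          · skip
            linarith only [t1, t4, t5, hs, hm, nu1, nu2, nu3, nu4, nu5, nu6, nu7, nw1, nw2, nw3, nw4, nw5, nw6, nw7]
      · skip
        rcases lt_or_ge (u4 + w4 + u5 + w5 + u6 + w6 + u7 + w7) (2 * N) with t4 | t4
        · skip
          rcases lt_or_ge (u1 + w1 + u3 + w3 + u4 + w4 + u6 + w6) (2 * N) with t5 | t5
          · skip
            rcases lt_or_ge (u2 + w2 + u3 + w3 + u4 + w4 + u5 + w5) (2 * N) with t6 | t6
            · skip
              rcases lt_or_ge (u1 + w1 + u2 + w2 + u4 + w4 + u7 + w7) (2 * N) with t7 | t7
              · skip
                have z1 : u1 + w1 ≤ m := by rcases k1 t2 t4 t6 with y | y <;> linarith only [y, mu1, mw1, nu1, nw1]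
                have z5 : u5 + w5 ≤ m := by rcases k5 t2 t5 t7 with y | y <;> linarith only [y, mu5, mw5, nu5, nw5]
                linarith only [t1, t3, hs, hmN, z1, z5, nu1, nw1, nu2, nw2, nu3, nw3, nu4, nw4, nu5, nw5, nu6, nw6, nu7, nw7]
              · skip
                rcases k1 (by linarith only [t1, t3, a2, hs, hm, nu1, nw1, nu2, nw2, nu3, nw3, nu4, nw4, nu5, nw5, nu6, nw6, nu7, nw7]) (by linarith only [t3, t7, a4, hs, hm, nu1, nw1, nu2, nw2, nu3, nw3, nu4, nw4, nu5, nw5, nu6, nw6, nu7, nw7]) (by linarith only [t1, t7, a6, hs, hm, nu1, nw1, nu2, nw2, nu3, nw3, nu4, nw4, nu5, nw5, nu6, nw6, nu7, nw7]) with y | y <;> linarith only [y, t1, t3, t7, hs, hm, mu1, mw1, nu1, nw1, nu2, nw2, nu3, nw3, nu4, nw4, nu5, nw5, nu6, nw6, nu7, nw7]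
            · skip
              rcases k5 (by linarith only [t1, t3, a2, hs, hm, nu1, nw1, nu2, nw2, nu3, nw3, nu4, nw4, nu5, nw5, nu6, nw6, nu7, nw7]) (by linarith only [t3, t6, a5, hs, hm, nu1, nw1, nu2, nw2, nu3, nw3, nu4, nw4, nu5, nw5, nu6, nw6, nu7, nw7]) (by linarith only [t1, t6, a7, hs, hm, nu1, nw1, nu2, nw2, nu3, nw3, nu4, nw4, nu5, nw5, nu6, nw6, nu7, nw7]) with y | y <;> linarith only [y, t1, t3, t6, hs, hm, mu5, mw5, nu1, nw1, nu2, nw2, nu3, nw3, nu4, nw4, nu5, nw5, nu6, nw6, nu7, nw7]
          · skip
            rcases k1 (by linarith only [t1, t3, a2, hs, hm, nu1, nw1, nu2, nw2, nu3, nw3, nu4, nw4, nu5, nw5, nu6, nw6, nu7, nw7]) (by linarith only [t1, t5, a4, hs, hm, nu1, nw1, nu2, nw2, nu3, nw3, nu4, nw4, nu5, nw5, nu6, nw6, nu7, nw7]) (by linarith only [t3, t5, a6, hs, hm, nu1, nw1, nu2, nw2, nu3, nw3, nu4, nw4, nu5, nw5, nu6, nw6, nu7, nw7]) with y | y <;> linarith only [y, t1, t3, t5, hs, hm, mu1, mw1, nu1, nw1, nu2, nw2, nu3, nw3, nu4, nw4, nu5, nw5, nu6, nw6, nu7, nw7]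
        · skip
          rcases k5 (by linarith only [t1, t3, a2, hs, hm, nu1, nw1, nu2, nw2, nu3, nw3, nu4, nw4, nu5, nw5, nu6, nw6, nu7, nw7]) (by linarith only [t1, t4, a5, hs, hm, nu1, nw1, nu2, nw2, nu3, nw3, nu4, nw4, nu5, nw5, nu6, nw6, nu7, nw7]) (by linarith only [t3, t4, a7, hs, hm, nu1, nw1, nu2, nw2, nu3, nw3, nu4, nw4, nu5, nw5, nu6, nw6, nu7, nw7]) with y | y <;> linarith only [y, t1, t3, t4, hs, hm, mu5, mw5, nu1, nw1, nu2, nw2, nu3, nw3, nu4, nw4, nu5, nw5, nu6, nw6, nu7, nw7]
    · skip
      rcases lt_or_ge (u1 + w1 + u2 + w2 + u5 + w5 + u6 + w6) (2 * N) with t3 | t3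
      · skip
        rcases lt_or_ge (u4 + w4 + u5 + w5 + u6 + w6 + u7 + w7) (2 * N) with t4 | t4
        · skip
          rcases lt_or_ge (u1 + w1 + u3 + w3 + u4 + w4 + u6 + w6) (2 * N) with t5 | t5
          · skip
            rcases lt_or_ge (u2 + w2 + u3 + w3 + u4 + w4 + u5 + w5) (2 * N) with t6 | t6
            · skip
              rcases lt_or_ge (u1 + w1 + u2 + w2 + u4 + w4 + u7 + w7) (2 * N) with t7 | t7
              · skip
                have z3 : u3 + w3 ≤ m := by rcases k3 t3 t4 t7 with y | y <;> linarith only [y, mu3, mw3, nu3, nw3]
                have z7 : u7 + w7 ≤ m := by rcases k7 t3 t5 t6 with y | y <;> linarith only [y, mu7, mw7, nu7, nw7]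
                linarith only [t1, t2, hs, hmN, z3, z7, nu1, nw1, nu2, nw2, nu3, nw3, nu4, nw4, nu5, nw5, nu6, nw6, nu7, nw7]
              · skip
                rcases k7 (by linarith only [t1, t2, a3, hs, hm, nu1, nw1, nu2, nw2, nu3, nw3, nu4, nw4, nu5, nw5, nu6, nw6, nu7, nw7]) (by linarith only [t2, t7, a5, hs, hm, nu1, nw1, nu2, nw2, nu3, nw3, nu4, nw4, nu5, nw5, nu6, nw6, nu7, nw7]) (by linarith only [t1, t7, a6, hs, hm, nu1, nw1, nu2, nw2, nu3, nw3, nu4, nw4, nu5, nw5, nu6, nw6, nu7, nw7]) with y | y <;> linarith only [y, t1, t2, t7, hs, hm, mu7, mw7, nu1, nw1, nu2, nw2, nu3, nw3, nu4, nw4, nu5, nw5, nu6, nw6, nu7, nw7]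
            · skip
              rcases k3 (by linarith only [t1, t2, a3, hs, hm, nu1, nw1, nu2, nw2, nu3, nw3, nu4, nw4, nu5, nw5, nu6, nw6, nu7, nw7]) (by linarith only [t2, t6, a4, hs, hm, nu1, nw1, nu2, nw2, nu3, nw3, nu4, nw4, nu5, nw5, nu6, nw6, nu7, nw7]) (by linarith only [t1, t6, a7, hs, hm, nu1, nw1, nu2, nw2, nu3, nw3, nu4, nw4, nu5, nw5, nu6, nw6, nu7, nw7]) with y | y <;> linarith only [y, t1, t2, t6, hs, hm, mu3, mw3, nu1, nw1, nu2, nw2, nu3, nw3, nu4, nw4, nu5, nw5, nu6, nw6, nu7, nw7]
          · skip
            rcases k3 (by linarith only [t1, t2, a3, hs, hm, nu1, nw1, nu2, nw2, nu3, nw3, nu4, nw4, nu5, nw5, nu6, nw6, nu7, nw7]) (by linarith only [t1, t5, a4, hs, hm, nu1, nw1, nu2, nw2, nu3, nw3, nu4, nw4, nu5, nw5, nu6, nw6, nu7, nw7]) (by linarith only [t2, t5, a7, hs, hm, nu1, nw1, nu2, nw2, nu3, nw3, nu4, nw4, nu5, nw5, nu6, nw6, nu7, nw7]) with y | y <;> linarith only [y, t1, t2, t5, hs, hm, mu3, mw3, nu1, nw1, nu2, nw2, nu3, nw3, nu4, nw4, nu5, nw5, nu6, nw6, nu7, nw7]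
        · skip
          rcases k7 (by linarith only [t1, t2, a3, hs, hm, nu1, nw1, nu2, nw2, nu3, nw3, nu4, nw4, nu5, nw5, nu6, nw6, nu7, nw7]) (by linarith only [t1, t4, a5, hs, hm, nu1, nw1, nu2, nw2, nu3, nw3, nu4, nw4, nu5, nw5, nu6, nw6, nu7, nw7]) (by linarith only [t2, t4, a6, hs, hm, nu1, nw1, nu2, nw2, nu3, nw3, nu4, nw4, nu5, nw5, nu6, nw6, nu7, nw7]) with y | y <;> linarith only [y, t1, t2, t4, hs, hm, mu7, mw7, nu1, nw1, nu2, nw2, nu3, nw3, nu4, nw4, nu5, nw5, nu6, nw6, nu7, nw7]
      · skip
        linarith only [t1, t2, t3, hs, hm, nu1, nu2, nu3, nu4, nu5, nu6, nu7, nw1, nw2, nw3, nw4, nw5, nw6, nw7]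

end Pool.Agent.helper25.PV
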