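import Pool.Agent.helper25.PW.Coord2

set_option autoImplicit false
set_option linter.unusedSectionVars false
set_option linter.unusedVariables false

/-!
# Project PW: projective spaces over the field with two elements
-/

namespace Pool.Agent.helper25.PV

open Finset Pool.Agent.helper9.HB49

/-- the circuits of `M` are the complements of the lines of the projective space of dimension
`d - 1` over the field with two elements -/
def PGT {α : Type*} (M : Matroid α) (d : ℕ) : Prop :=
  ∃ f : α → (Fin d → ZMod 2), Set.BijOn f M.E {v | v ≠ 0} ∧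
    ∀ C, M.IsCircuit C ↔ ∃ p q, p ≠ 0 ∧ q ≠ 0 ∧ p ≠ q ∧
      C = {x ∈ M.E | f x ≠ p ∧ f x ≠ q ∧ f x ≠ p + q}

variable {α : Type*} [DecidableEq α] {M : Matroid α} [M.Finite] {r : ℕ}

/-- circuits, when all lines have three points -/
theorem Pv.circ3 (h : Pv M r) (hr0 : 0 < r) {X : Finset α} (hXE : (X : Set α) = M.E)
    (hXc : X.card = r + 3) {S : LS X} (hS : GX M r X S)
    (h3 : ∀ x y, x ≠ y → (S.ln x y).card = 3) (C : Set α) :
    M.IsCircuit C ↔ ∃ L ∈ S.lines, C = ((X \ L.image Subtype.val : Finset α) : Set α) := by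
  classical
  have hL3 : ∀ L ∈ S.lines, L.card = 3 := by
    intro L hL
    obtain ⟨a, b, hab, rfl⟩ := LS.mem_lines.1 hL
    exact h3 a b hab
  constructor
  · intro hC
    obtain ⟨D, rfl⟩ : ∃ D : Finset α, C = D :=
      ⟨(M.ground_finite.subset hC.subset_ground).toFinset, by simp⟩
    have hDX : D ⊆ X := by
      rw [← Finset.coe_subset, hXE]
      exact hC.subset_ground
    rw [h.circuit_iff hr0] at hC
    rcases hC.2 with ⟨h4, h5⟩ | ⟨h4, h5⟩
    · set L : Finset X := univ.filter fun v : X => (v : α) ∉ D with hL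
      have h1 : D = X \ L.image Subtype.val := by
        ext x
        rw [mem_sdiff]
        constructor
        · intro hx
          refine ⟨hDX hx, ?_⟩
          rw [mem_image_val (hDX hx), hL, mem_filter]
          exact fun h2 => h2.2 hx
        · rintro ⟨hx, h2⟩
          rw [mem_image_val hx, hL, mem_filter] at h2
          by_contra h4
          exact h2 ⟨mem_univ _, h4⟩
      have h2 := sdiff_val_card L
      rw [← h1, hXc] at h2
      refine ⟨L, (hS.tri L (by omega)).1 (by rw [← h1]; exact h5), by rw [← h1]⟩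
    · exfalso
      have h1 : (X \ D).card = 2 := by
        rw [card_sdiff_of_subset hDX, hXc, h4]
        omega
      obtain ⟨u, v, huv, huvD⟩ := card_eq_two.1 h1
      have mu : u ∈ X \ D := by rw [huvD]; simp
      have mv : v ∈ X \ D := by rw [huvD]; simp
      obtain ⟨muX, muD⟩ := mem_sdiff.1 mu
      obtain ⟨mvX, mvD⟩ := mem_sdiff.1 mv
      have hne : (⟨u, muX⟩ : X) ≠ ⟨v, mvX⟩ := by simp [huv]
      have hc := h3 _ _ hne
      obtain ⟨w1, w2, w3⟩ := LS.th_spec hne hc
      set w := S.th ⟨u, muX⟩ ⟨v, mvX⟩ with hw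
      have hwD : (w : α) ∈ D := by
        by_contra h6
        have h7 : (w : α) ∈ X \ D := mem_sdiff.2 ⟨w.2, h6⟩
        rw [huvD, mem_insert, mem_singleton] at h7
        rcases h7 with h7 | h7
        · exact w1 (Subtype.ext h7)
        · exact w2 (Subtype.ext h7)
      apply h5 w hwD
      have hsm := (hS.tri (S.ln ⟨u, muX⟩ ⟨v, mvX⟩) hc).2 (LS.ln_mem hne)
      refine sm_mono ?_ hsm
      intro x hx
      rw [mem_erase] at hx
      rw [mem_sdiff, mem_image_val (hDX hx.2), w3, mem_insert, mem_insert, mem_singleton]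
      refine ⟨hDX hx.2, ?_⟩
      rintro (h6 | h6 | h6)
      · have h7 : x = u := congrArg Subtype.val h6
        exact muD (h7 ▸ hx.2)
      · have h7 : x = v := congrArg Subtype.val h6
        exact mvD (h7 ▸ hx.2)
      · exact hx.1 (congrArg Subtype.val h6)
  · rintro ⟨L, hL, rfl⟩
    rw [h.circuit_iff hr0]
    refine ⟨by rw [← hXE]; exact Finset.coe_subset.2 sdiff_subset, Or.inl ⟨?_, ?_⟩⟩
    · have := sdiff_val_card L
      rw [hL3 _ hL, hXc] at this
      omega
    · exact (hS.tri _ (hL3 _ hL)).2 hL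

/-- projective coordinates of a set of `r + 3` elements, `r = 4` or `r = 12` -/
theorem HP.pco {V : Type*} [Fintype V] [DecidableEq V] {S : LS V} {A : Type*} [AddCommGroup A]
    {e : V → A} (h : HP S e) (hn : Fintype.card V = 7 ∨ Fintype.card V = 15)
    (hinj : Function.Injective e) (h3 : ∀ x y, x ≠ y → (S.ln x y).card = 3) {d : ℕ}
    (hd : Fintype.card V + 1 = 2 ^ d) :
    ∃ F : V → (Fin d → ZMod 2), Function.Injective F ∧ (∀ x, F x ≠ 0) ∧
      (∀ v, v ≠ 0 → ∃ x, F x = v) ∧ ∀ x y, x ≠ y → F (S.th x y) = F x + F y := by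
  obtain ⟨u, h2, hu⟩ := h.dich' hn hinj h3
  set τ : A := ∑ y, e y with hτ
  set σ : A := τ - u with hσ
  set H : V → A := fun x => e x - σ with hH
  have hth : ∀ x y, x ≠ y → e (S.th x y) = τ - e x - e y := fun x y hxy =>
    h.third_eq hxy (h3 x y hxy)
  have hHH : ∀ x, H x + H x = 0 := by
    intro x
    have h1 : H x + H x = (e x + e x) + u + u - (τ + τ) := by
      rw [hH]
      dsimp only
      rw [hσ]; abel
    rw [h1, h2, hu, sub_self]
  have hHadd : ∀ x y, x ≠ y → H x + H y = H (S.th x y) := by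
    intro x y hxy
    have h1 : H x + H y - H (S.th x y) = (e x + e x) + (e y + e y) + u - (τ + τ) := by
      rw [hH]
      dsimp only
      rw [hth x y hxy, hσ]; abel
    rw [h2, h2, hu, sub_self] at h1
    exact sub_eq_zero.1 h1
  have hHinj : Function.Injective H := fun x y hxy => hinj (sub_left_injective hxy)
  have hH0 : ∀ x, H x ≠ 0 := by
    intro x hx
    obtain ⟨y, hyx⟩ : ∃ y, y ≠ x := by
      by_contra h1
      push Not at h1
      have h3 : (univ : Finset V) ⊆ {x} := fun z _ => mem_singleton.2 (h1 z)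
      have h4 := card_le_card h3
      rw [card_univ, card_singleton] at h4
      omega
    have h1 := hHadd x y hyx.symm
    rw [hx, zero_add] at h1
    exact LS.th_ne_right hyx.symm (h3 x y hyx.symm) (hHinj h1).symm
  obtain ⟨F, f1, f2, f3, f4⟩ := pcoord H hHH hHinj hH0 (fun x y hxy => ⟨_, hHadd x y hxy⟩) hd
  exact ⟨F, f1, f2, f3, fun x y hxy => ((f4 _ _ _).1 (hHadd x y hxy)).symm⟩

theorem Pv.pgt (h : Pv M r) (hH : CircuitsHilbert M) (hr : r = 4 ∨ r = 12) {d : ℕ}
    (hd : r + 4 = 2 ^ d) (hE : M.E.ncard = r + 3) {X : Finset α} (hX : Gd M r X) : PGT M d := by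
  classical
  have hXE : (X : Set α) = M.E := by
    apply Set.eq_of_subset_of_ncard_le hX.1 _ M.ground_finite
    rw [Set.ncard_coe_finset, hX.2.1, hE]
  obtain ⟨S, hS, hinj, h3⟩ := h.gd_ls4 hH (by omega) hX
  have hc : Fintype.card X = r + 3 := by rw [Fintype.card_coe, hX.2.1]
  obtain ⟨F, f1, f2, f3, f4⟩ := hS.hp.pco (by omega) hinj h3 (d := d) (by omega)
  set f : α → (Fin d → ZMod 2) := fun x => if hx : x ∈ X then F ⟨x, hx⟩ else 0 with hf
  have hfx : ∀ x (hx : x ∈ X), f x = F ⟨x, hx⟩ := by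
    intro x hx
    rw [hf]
    dsimp only
    rw [dif_pos hx]
  have hset : ∀ a b : X, a ≠ b → {x ∈ M.E | f x ≠ F a ∧ f x ≠ F b ∧ f x ≠ F a + F b} =
      ((X \ (S.ln a b).image Subtype.val : Finset α) : Set α) := by
    intro a b hab
    ext x
    rw [mem_coe, mem_sdiff]
    constructor
    · rintro ⟨h1, h2, h4, h5⟩
      have hx : x ∈ X := by rw [← mem_coe, hXE]; exact h1
      refine ⟨hx, ?_⟩
      rw [hfx x hx] at h2 h4 h5
      rw [mem_image_val hx, LS.ln_eq_th hab (h3 a b hab), mem_insert, mem_insert, mem_singleton]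
      rintro (h6 | h6 | h6)
      · exact h2 (by rw [h6])
      · exact h4 (by rw [h6])
      · exact h5 (by rw [h6, f4 a b hab])
    · rintro ⟨hx, h1⟩
      rw [mem_image_val hx, LS.ln_eq_th hab (h3 a b hab), mem_insert, mem_insert,
        mem_singleton] at h1
      refine ⟨by rw [← hXE]; exact hx, fun h2 => h1 ?_, fun h2 => h1 ?_, fun h2 => h1 ?_⟩
      · left; rw [hfx x hx] at h2; exact f1 h2
      · right; left; rw [hfx x hx] at h2; exact f1 h2
      · right; right; rw [hfx x hx, ← f4 a b hab] at h2; exact f1 h2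
  refine ⟨f, ⟨?_, ?_, ?_⟩, fun C => ?_⟩
  · intro x hx
    rw [← hXE, mem_coe] at hx
    show f x ≠ 0
    rw [hfx x hx]
    exact f2 _
  · intro x hx y hy hxy
    rw [← hXE, mem_coe] at hx hy
    rw [hfx x hx, hfx y hy] at hxy
    exact congrArg Subtype.val (f1 hxy)
  · intro v hv
    obtain ⟨x, hx⟩ := f3 v hv
    exact ⟨x, by rw [← hXE]; exact x.2, by rw [hfx _ x.2]; exact hx⟩
  · rw [h.circ3 (by omega) hXE hX.2.1 hS h3]
    constructor
    · rintro ⟨L, hL, rfl⟩
      obtain ⟨a, b, hab, rfl⟩ := LS.mem_lines.1 hL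
      exact ⟨F a, F b, f2 a, f2 b, fun h1 => hab (f1 h1), (hset a b hab).symm⟩
    · rintro ⟨p, q, hp, hq, hpq, rfl⟩
      obtain ⟨a, rfl⟩ := f3 p hp
      obtain ⟨b, rfl⟩ := f3 q hq
      have hab : a ≠ b := fun h1 => hpq (by rw [h1])
      exact ⟨S.ln a b, LS.ln_mem hab, hset a b hab⟩

end Pool.Agent.helper25.PV
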