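import Pool.Agent.helper25.PW.Six

set_option autoImplicit false
set_option linter.unusedSectionVars false
set_option linter.unusedVariables false

/-!
# Project PW: linear spaces of seven points
-/

namespace Pool.Agent.helper25.PV

open Finset

variable {V : Type*} [Fintype V] [DecidableEq V] {S : LS V}
variable {A : Type*} [AddCommGroup A] {e : V → A}

theorem sp1_kill' (h : HP S e) (hn : 7 ≤ Fintype.card V) {z : V} (hz : e z = 0)
    (hz3 : ∀ y, y ≠ z → (S.ln z y).card = 3)
    (ho : ∀ x y, x ≠ y → z ∉ S.ln x y → (S.ln x y).card = 2) {b : A}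
    (hb : ∀ y, y ≠ z → e y = b) (h2 : b + b = ∑ y, e y) : False := by
  obtain ⟨x, hxz⟩ : ∃ x, x ≠ z := by
    by_contra h1
    push Not at h1
    have h3 : (univ : Finset V) ⊆ {z} := fun y _ => mem_singleton.2 (h1 y)
    have h4 := card_le_card h3
    rw [card_univ, card_singleton] at h4
    omega
  set x' := S.th z x with hx'
  obtain ⟨hx'z, hx'x, hT⟩ := LS.th_spec hxz.symm (hz3 x hxz)
  rw [← hx'] at hx'z hx'x hT
  obtain ⟨y, hy⟩ : ∃ y, y ∉ ({z, x, x'} : Finset V) := by
    by_contra h1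
    push Not at h1
    have h3 : (univ : Finset V) ⊆ {z, x, x'} := fun y _ => h1 y
    have h4 := card_le_card h3
    have h5 : ({z, x, x'} : Finset V).card ≤ 3 := card_le_three
    rw [card_univ] at h4
    omega
  simp only [mem_insert, mem_singleton, not_or] at hy
  obtain ⟨hyz, hyx, hyx'⟩ : y ≠ z ∧ y ≠ x ∧ y ≠ x' := hy
  set y' := S.th z y with hy'
  obtain ⟨hy'z, hy'y, hT'⟩ := LS.th_spec hyz.symm (hz3 y hyz)
  rw [← hy'] at hy'z hy'y hT'
  have hTT : S.ln z x ≠ S.ln z y := by
    intro h1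
    have h3 : y ∈ S.ln z x := by rw [h1]; exact S.right hyz.symm
    rw [hT] at h3
    simp only [mem_insert, mem_singleton] at h3
    clear * - h3 hyz hyx hyx'
    tauto
  have hy'x : y' ≠ x := by
    intro h1
    apply hTT
    apply LS.eq_ln (LS.ln_mem hyz.symm) hxz.symm (S.left hyz.symm)
    rw [hT', h1]; simp
  have hy'x' : y' ≠ x' := by
    intro h1
    apply hTT
    exact LS.line_unique (LS.ln_mem hxz.symm) (LS.ln_mem hyz.symm) hx'z (by rw [hT]; simp)
      (S.left hxz.symm) (by rw [hT', h1]; simp) (S.left hyz.symm)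
  have hzA : z ∉ S.ln x y := by
    intro h1
    have h3 := LS.eq_ln (LS.ln_mem hyx.symm) hxz.symm h1 (S.left hyx.symm)
    have h4 := LS.eq_ln (LS.ln_mem hyx.symm) hyz.symm h1 (S.right hyx.symm)
    exact hTT (h3.trans h4.symm)
  have hzB : z ∉ S.ln x' y' := by
    intro h1
    have h3 := LS.line_unique (LS.ln_mem hy'x'.symm) (LS.ln_mem hxz.symm) hx'z
      (S.left hy'x'.symm) h1 (by rw [hT]; simp) (S.left hxz.symm)
    have h4 := LS.line_unique (LS.ln_mem hy'x'.symm) (LS.ln_mem hyz.symm) hy'z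
      (S.right hy'x'.symm) h1 (by rw [hT']; simp) (S.left hyz.symm)
    exact hTT (h3.symm.trans h4)
  have lA : S.ln x y = {x, y} := LS.ln_eq_pair hyx.symm (ho x y hyx.symm hzA)
  have lB : S.ln x' y' = {x', y'} := LS.ln_eq_pair hy'x'.symm (ho x' y' hy'x'.symm hzB)
  set Q : Finset V := {z, x, x', y, y'} with hQ
  have hQc : Q.card = 5 := by
    rw [hQ, card_insert_of_notMem (by simp [hxz.symm, hx'z.symm, hyz.symm, hy'z.symm]),
      card_insert_of_notMem (by simp [hx'x.symm, hyx.symm, hy'x.symm]),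
      card_insert_of_notMem (by simp [hyx'.symm, hy'x'.symm]),
      card_insert_of_notMem (by simp [hy'y.symm]), card_singleton]
  have hcls : ∑ w, (if w ∈ Q then (2 : ℤ) - 1 else 2) • e w = 0 := by
    rw [sum_sub_Q, hQ, sum_insert (by simp [hxz.symm, hx'z.symm, hyz.symm, hy'z.symm]),
      sum_insert (by simp [hx'x.symm, hyx.symm, hy'x.symm]),
      sum_insert (by simp [hyx'.symm, hy'x'.symm]), sum_pair hy'y.symm, hz, hb x hxz, hb x' hx'z,
      hb y hyz, hb y' hy'z, ← h2]
    rw [two_smul]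
    abel
  have hcone : S.ConeP fun w => if w ∈ Q then (2 : ℤ) - 1 else 2 := by
    refine LS.ConeP.div (N := 2) (by norm_num) ?_
    have h1 := ((LS.ConeP.line (S := S) (LS.ln_mem hxz.symm)).add
      (LS.ConeP.line (S := S) (LS.ln_mem hyz.symm))).add
      ((LS.ConeP.line (S := S) (LS.ln_mem hyx.symm)).add
        (LS.ConeP.line (S := S) (LS.ln_mem hy'x'.symm)))
    rw [hT, hT', lA, lB] at h1
    convert h1 using 2 with w
    clear h1
    simp only [hQ, mem_insert, mem_singleton]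
    by_cases h1 : w = z
    · rw [h1]; simp [hxz.symm, hx'z.symm, hyz.symm, hy'z.symm]
    by_cases h2 : w = x
    · rw [h2]; simp [hxz, hx'x.symm, hyx.symm, hy'x.symm]
    by_cases h3 : w = x'
    · rw [h3]; simp [hx'z, hx'x, hyx'.symm, hy'x'.symm]
    by_cases h4 : w = y
    · rw [h4]; simp [hyz, hyx, hyx', hy'y.symm]
    by_cases h5 : w = y'
    · rw [h5]; simp [hy'z, hy'x, hy'x', hy'y]
    simp [h1, h2, h3, h4, h5]
  obtain ⟨lam, hd⟩ := h.dec _ hcls hcone
  have ht := hd.total
  set s : ℤ := ∑ L ∈ S.lines, (lam L : ℤ) with hs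
  have hg : ∑ w : V, (if w ∈ Q then (2 : ℤ) - 1 else 2) = 2 * Fintype.card V - 5 := by
    have h1 : ∀ w ∈ (univ : Finset V), (if w ∈ Q then (2 : ℤ) - 1 else 2) =
        2 - if w ∈ Q then 1 else 0 := by
      intro w _; split_ifs <;> norm_num
    rw [sum_congr rfl h1, sum_sub_distrib, sum_ite_mem, univ_inter, sum_const, sum_const, hQc,
      card_univ]
    simp
    ring
  have hdz : ∑ L ∈ S.thr z, (lam L : ℤ) = s - 1 := by
    have h1 := hd z
    dsimp only at h1
    rw [if_pos (by simp [hQ])] at h1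
    linarith
  have hcard : ∑ L ∈ S.lines, (lam L : ℤ) * L.card = 2 * s + ∑ L ∈ S.thr z, (lam L : ℤ) := by
    have h1 : ∀ L ∈ S.lines, (lam L : ℤ) * L.card = 2 * lam L + if z ∈ L then (lam L : ℤ) else 0 := by
      intro L hL
      by_cases h2 : z ∈ L
      · obtain ⟨w, hw, hwo⟩ : ∃ w ∈ L, w ≠ z := by
          apply exists_mem_ne
          have := LS.two_le hL
          omega
        have h3 : L.card = 3 := by
          rw [← LS.eq_ln hL hwo.symm h2 hw]; exact hz3 w hwo
        rw [if_pos h2, h3]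
        push_cast
        ring
      · obtain ⟨a, b, hab, rfl⟩ := LS.mem_lines.1 hL
        have h3 : (S.ln a b).card = 2 := ho a b hab h2
        rw [if_neg h2, h3]
        push_cast
        ring
    rw [sum_congr rfl h1, sum_add_distrib, ← mul_sum, ← sum_filter]
    rfl
  rw [hg, hcard, hdz] at ht
  have h5 : (7 : ℤ) ≤ Fintype.card V := by exact_mod_cast hn
  have hs2 : s = 2 := by
    have : ((Fintype.card V : ℤ) - 3) * (s - 2) = 0 := by linarith
    rcases mul_eq_zero.1 this with h6 | h6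
    · linarith
    · linarith
  have hdeg1 : ∀ w ∈ Q, ∑ L ∈ S.thr w, (lam L : ℤ) = 1 := by
    intro w hw
    have h1 := hd w
    dsimp only at h1
    rw [if_pos hw] at h1
    linarith
  have hdeg0 : ∀ w, w ∉ Q → ∑ L ∈ S.thr w, (lam L : ℤ) = 0 := by
    intro w hw
    have h1 := hd w
    dsimp only at h1
    rw [if_neg hw] at h1
    linarith
  obtain ⟨M, hM, hzM, hM0⟩ := LS.exists_of_deg (lam := lam) (w := z) (by
    rw [hdeg1 z (by simp [hQ])]; norm_num)
  obtain ⟨w, hw, hwz⟩ : ∃ w ∈ M, w ≠ z := by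
    apply exists_mem_ne
    have := LS.two_le hM
    omega
  have hwQ : w ∈ Q := by
    by_contra h1
    exact hM0 (LS.lam_zero (hdeg0 w h1) hM hw)
  have hMe := LS.eq_ln hM hwz.symm hzM hw
  have key : M = S.ln z x ∨ M = S.ln z y := by
    rw [hQ] at hwQ
    simp only [mem_insert, mem_singleton] at hwQ
    rcases hwQ with h1 | h1 | h1 | h1 | h1
    · exact absurd h1 hwz
    · left; rw [← hMe, h1]
    · left
      exact LS.line_unique hM (LS.ln_mem hxz.symm) hwz hw hzM (by rw [hT, h1]; simp)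
        (S.left hxz.symm)
    · right; rw [← hMe, h1]
    · right
      exact LS.line_unique hM (LS.ln_mem hyz.symm) hwz hw hzM (by rw [hT', h1]; simp)
        (S.left hyz.symm)
  rcases key with h1 | h1
  · exact sp1_half hz3 ho hQ hdeg1 hdeg0 hT hT' hxz hyz hy'y.symm hy'z hyx hyx' (h1 ▸ hM0)
  · refine sp1_half (x := y) (x' := y') (y := x) (y' := x') (Q := Q) hz3 ho ?_ hdeg1 hdeg0 hT' hT
      hyz hxz hx'x.symm hx'z hyx.symm hy'x.symm (h1 ▸ hM0)
    rw [hQ]
    ext v
    simp only [mem_insert, mem_singleton]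
    clear * -
    tauto


theorem HP.seven_order (h : HP S e) (hn : Fintype.card V = 7) (x : V) :
    2 * addOrderOf ((∑ y, e y) - e x) = 4 + (S.O x).card := by
  have := h.two_order (by omega) x
  omega

theorem HP.seven_same (h : HP S e) (hn : Fintype.card V = 7) {x y z : V} (hy : y ∈ S.O x)
    (hz : z ∈ S.O x) : (S.O y).card = (S.O z).card := by
  have h1 := LS.mem_O.1 hy
  have h2 := LS.mem_O.1 hz
  have h3 := h.pair_eq h1.1.symm h1.2
  have h4 := h.pair_eq h2.1.symm h2.2
  have h5 : e y = e z := add_left_cancel (h3.trans h4.symm)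
  have h6 := h.seven_order hn y
  have h7 := h.seven_order hn z
  rw [h5] at h6
  omega

theorem HP.seven_no6 (h : HP S e) (hn : Fintype.card V = 7) {a b : V} (hab : a ≠ b)
    (hc : (S.ln a b).card = 3) (x : V) : (S.O x).card ≤ 4 := by
  have h1 := LS.t3_count (S := S) x
  by_contra h2
  have h3 : (S.O x).card = 6 := by omega
  have h4 : S.O x = univ.erase x := by
    apply eq_of_subset_of_card_le
    · intro v hv
      exact mem_erase.2 ⟨(LS.mem_O.1 hv).1, mem_univ _⟩
    · rw [card_erase_of_mem (mem_univ _), card_univ, hn, h3]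
  refine h.free (by omega) (o := x) ?_ hab hc
  intro v hv
  have h5 : v ∈ S.O x := by rw [h4]; exact mem_erase.2 ⟨hv, mem_univ _⟩
  exact (LS.mem_O.1 h5).2

/-- a three-point line through a point with only one three-point line -/
theorem LS.t3_one {u b : V} (hu : S.t3 u = 1) (hb : b ≠ u) (hbu : (S.ln b u).card = 3)
    {L : Finset V} (hL : L ∈ S.lines) (hL3 : L.card = 3) (huL : u ∈ L) : b ∈ L := by
  obtain ⟨L0, hL0⟩ := card_eq_one.1 hu
  have h1 : L ∈ (S.thr u).filter fun L => L.card = 3 :=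
    mem_filter.2 ⟨LS.mem_thr.2 ⟨hL, huL⟩, hL3⟩
  have h2 : S.ln b u ∈ (S.thr u).filter fun L => L.card = 3 :=
    mem_filter.2 ⟨LS.mem_thr.2 ⟨LS.ln_mem hb, S.right hb⟩, hbu⟩
  rw [hL0, mem_singleton] at h1 h2
  rw [h1, ← h2]
  exact S.left hb

theorem HP.seven_no4 (h : HP S e) (hn : Fintype.card V = 7) {a b : V} (hab : a ≠ b)
    (hc : (S.ln a b).card = 3) (x : V) : (S.O x).card ≠ 4 := by
  intro hx4
  set τ : A := ∑ y, e y with hτ
  obtain ⟨y1, hy1⟩ : (S.O x).Nonempty := card_pos.1 (by omega)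
  have hxy1 : x ∈ S.O y1 := LS.O_symm.1 hy1
  have hpos : 1 ≤ (S.O y1).card := card_pos.2 ⟨x, hxy1⟩
  have hle := h.seven_no6 hn hab hc
  have hpar := fun v => LS.t3_count (S := S) v
  have hγ : ∀ y ∈ S.O x, e y = τ - e x := by
    intro y hy
    have h1 := LS.mem_O.1 hy
    rw [hτ, ← h.pair_eq h1.1.symm h1.2]; abel
  have hd : (S.O y1).card = 2 ∨ (S.O y1).card = 4 := by
    have h1 := hle y1
    have h2 := hpar y1
    omega
  have hRc : ((univ.erase x) \ S.O x).card = 2 := by
    have hsub : S.O x ⊆ univ.erase x := fun v hv =>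
      mem_erase.2 ⟨(LS.mem_O.1 hv).1, mem_univ _⟩
    rw [card_sdiff_of_subset hsub, card_erase_of_mem (mem_univ _), card_univ, hn, hx4]
  rcases hd with hd | hd
  · have o1 := h.seven_order hn y1
    have o2 := h.seven_order hn x
    rw [hd] at o1
    rw [hx4] at o2
    have hf1 : τ - e y1 = e x := by rw [hγ y1 hy1]; abel
    rw [← hτ, hf1] at o1
    rw [← hτ] at o2
    have ho1 : addOrderOf (e x) = 3 := by omega
    have ho2 : addOrderOf (τ - e x) = 4 := by omega
    have h3 : (3 : ℕ) • e x = 0 := by rw [← ho1]; exact addOrderOf_nsmul_eq_zero _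
    have h4 : (4 : ℕ) • (τ - e x) = 0 := by rw [← ho2]; exact addOrderOf_nsmul_eq_zero _
    have hne : e x ≠ 0 := by
      intro h5
      rw [h5, addOrderOf_zero] at ho1
      omega
    have hc3 : ∀ y ∈ S.O x, y ≠ y1 → (S.ln y1 y).card = 3 := by
      intro y hy hne'
      rcases LS.card_cases (S := S) (Ne.symm hne') with h5 | h5
      · exfalso
        have h6 : y ∈ S.O y1 := LS.mem_O.2 ⟨hne', h5⟩
        have h7 := h.seven_same hn h6 hxy1
        have h8 := h.seven_same hn hy hy1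
        omega
      · exact h5
    have hmaps : ∀ y ∈ (S.O x).erase y1, S.th y1 y ∈ (univ.erase x) \ S.O x := by
      intro y hy
      obtain ⟨hyy, hy⟩ := mem_erase.1 hy
      have h5 := hc3 y hy hyy
      rw [mem_sdiff, mem_erase]
      refine ⟨⟨?_, mem_univ _⟩, ?_⟩
      · intro h6
        have h7 : S.ln y1 x = S.ln y1 y := LS.eq_ln (LS.ln_mem (Ne.symm hyy))
          (LS.mem_O.1 hy1).1 (S.left (Ne.symm hyy)) (by rw [← h6]; exact LS.th_mem (Ne.symm hyy) h5)
        have h8 := (LS.mem_O.1 hxy1).2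
        rw [h7, h5] at h8
        omega
      · intro h6
        have h7 := h.third_sum (Ne.symm hyy) h5
        rw [hγ y1 hy1, hγ y hy, hγ _ h6, ← hτ] at h7
        have h8 : τ + τ = (3 : ℕ) • e x := by
          have h9 : τ + τ = (τ - e x + (τ - e x) + (τ - e x)) - τ + (3 : ℕ) • e x := by abel
          rw [h9, h7, sub_self, zero_add]
        rw [h3] at h8
        apply hne
        have h9 : e x = (τ + τ) + (τ + τ) - (3 : ℕ) • e x - (4 : ℕ) • (τ - e x) := by abel
        rw [h9, h8, h3, h4, sub_zero, sub_zero, zero_add]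
    have hlt : ((univ.erase x) \ S.O x).card < ((S.O x).erase y1).card := by
      rw [hRc, card_erase_of_mem hy1, hx4]
      norm_num
    obtain ⟨y, hy, y', hy', hyy', heq⟩ := exists_ne_map_eq_of_card_lt_of_maps_to hlt
      (f := fun y => S.th y1 y) (fun y hy => hmaps y hy)
    obtain ⟨k1, k2⟩ := mem_erase.1 hy
    obtain ⟨k3, k4⟩ := mem_erase.1 hy'
    apply hyy'
    have c1 := hc3 y k2 k1
    have c2 := hc3 y' k4 k3
    apply LS.th_inj k1 k3 (by rw [LS.ln_symm k1]; exact c1) (by rw [LS.ln_symm k3]; exact c2)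
    rw [LS.th_symm (Ne.symm k1) c1, LS.th_symm (Ne.symm k3) c2]
    exact heq
  · -- all neighbours have degree four
    have h4y : ∀ y ∈ S.O x, (S.O y).card = 4 := fun y hy => by
      rw [h.seven_same hn hy hy1, hd]
    have h4n : ∀ y ∈ S.O x, ∀ w ∈ S.O y, (S.O w).card = 4 := fun y hy w hw => by
      rw [h.seven_same hn hw (LS.O_symm.1 hy), hx4]
    obtain ⟨b, hb4⟩ : ∃ b, (S.O b).card ≠ 4 := by
      by_contra hcon
      push Not at hcon
      have h1 := LS.t3_sum (S := S)
      have h2 : ∀ v ∈ (univ : Finset V), S.t3 v = 1 := by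
        intro v _
        have h3 := hpar v
        rw [hcon v] at h3
        omega
      rw [sum_congr rfl h2, sum_const, card_univ, hn] at h1
      simp only [smul_eq_mul] at h1
      omega
    have hbx : b ≠ x := fun h1 => hb4 (by rw [h1]; exact hx4)
    have hbO : b ∉ S.O x := fun h1 => hb4 (h4y b h1)
    have hbR : b ∈ (univ.erase x) \ S.O x := mem_sdiff.2 ⟨mem_erase.2 ⟨hbx, mem_univ _⟩, hbO⟩
    -- the other points of degree four
    have hcov : ∀ u v, u ≠ b → v ≠ b → u ≠ v → u = x ∨ u ∈ S.O x ∨ v = x ∨ v ∈ S.O x := by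
      intro u v hu hv huv
      by_contra hcon
      push Not at hcon
      have h1 : ({b, u, v} : Finset V) ⊆ (univ.erase x) \ S.O x := by
        intro w hw
        simp only [mem_insert, mem_singleton] at hw
        rcases hw with rfl | rfl | rfl
        · exact hbR
        · exact mem_sdiff.2 ⟨mem_erase.2 ⟨hcon.1, mem_univ _⟩, hcon.2.1⟩
        · exact mem_sdiff.2 ⟨mem_erase.2 ⟨hcon.2.2.1, mem_univ _⟩, hcon.2.2.2⟩
      have h2 := card_le_card h1
      rw [hRc, card_insert_of_notMem (by simp [Ne.symm hu, Ne.symm hv]), card_pair huv] at h2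
      omega
    have hdeg : ∀ u, u = x ∨ u ∈ S.O x → (S.O u).card = 4 := by
      rintro u (rfl | h1)
      · exact hx4
      · exact h4y u h1
    have hbno : ∀ u, u = x ∨ u ∈ S.O x → u ∉ S.O b := by
      rintro u (rfl | h1) h2
      · exact hbO (LS.O_symm.1 h2)
      · exact hb4 (h4n u h1 b (LS.O_symm.1 h2))
    have hOb : S.O b = ∅ := by
      have h1 : (S.O b).card ≤ 1 := by
        by_contra h2
        obtain ⟨u, hu, v, hv, huv⟩ := one_lt_card.1 (by omega : 1 < (S.O b).card)
        have h3 := hcov u v (LS.mem_O.1 hu).1 (LS.mem_O.1 hv).1 huv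
        rcases h3 with h3 | h3 | h3 | h3
        · exact hbno u (Or.inl h3) hu
        · exact hbno u (Or.inr h3) hu
        · exact hbno v (Or.inl h3) hv
        · exact hbno v (Or.inr h3) hv
      have h2 := hpar b
      exact card_eq_zero.1 (by omega)
    have hb3 : ∀ w, w ≠ b → (S.ln b w).card = 3 := by
      intro w hw
      rcases LS.card_cases (S := S) (Ne.symm hw) with h1 | h1
      · exfalso
        have h2 : w ∈ S.O b := LS.mem_O.2 ⟨hw, h1⟩
        rw [hOb] at h2
        exact notMem_empty _ h2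
      · exact h1
    have ht1 : ∀ u, u = x ∨ u ∈ S.O x → S.t3 u = 1 := by
      intro u hu
      have h1 := hpar u
      rw [hdeg u hu] at h1
      omega
    have hub : ∀ u, u = x ∨ u ∈ S.O x → b ≠ u := by
      rintro u (rfl | h1)
      · exact hbx
      · exact fun h2 => hbO (h2 ▸ h1)
    -- the three-point lines contain `b`
    have hthb : ∀ L ∈ S.lines, L.card = 3 → b ∈ L := by
      intro L hL hL3
      by_contra hbL
      obtain ⟨u, v, hu, hv, huv⟩ : ∃ u v, u ∈ L ∧ v ∈ L ∧ u ≠ v := by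
        obtain ⟨u, hu, v, hv, huv⟩ := one_lt_card.1 (by omega : 1 < L.card)
        exact ⟨u, v, hu, hv, huv⟩
      have h1 := hcov u v (fun h2 => hbL (h2 ▸ hu)) (fun h2 => hbL (h2 ▸ hv)) huv
      have key : ∀ w, w = x ∨ w ∈ S.O x → w ∈ L → False := fun w hw hwL =>
        hbL (LS.t3_one (ht1 w hw) (hub w hw) (hb3 w (hub w hw).symm) hL hL3 hwL)
      rcases h1 with h1 | h1 | h1 | h1
      · exact key u (Or.inl h1) hu
      · exact key u (Or.inr h1) hu
      · exact key v (Or.inl h1) hv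
      · exact key v (Or.inr h1) hv
    have ho : ∀ u v, u ≠ v → b ∉ S.ln u v → (S.ln u v).card = 2 := by
      intro u v huv h1
      rcases LS.card_cases (S := S) huv with h2 | h2
      · exact h2
      · exact absurd (hthb _ (LS.ln_mem huv) h2) h1
    -- a two-point line through a given point
    have hex : ∀ w, w ≠ b → w ≠ x → ∃ y ∈ S.O x, y ≠ w ∧ (S.ln w y).card = 2 := by
      intro w hw hwx
      obtain ⟨y, hy⟩ : ((S.O x) \ {w, S.th b w}).Nonempty := by
        rw [← card_pos]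
        have h1 := le_card_sdiff ({w, S.th b w} : Finset V) (S.O x)
        have h2 : ({w, S.th b w} : Finset V).card ≤ 2 := card_le_two
        omega
      rw [mem_sdiff, mem_insert, mem_singleton, not_or] at hy
      obtain ⟨hyO, hyw, hyt⟩ := hy
      refine ⟨y, hyO, hyw, ho _ _ (Ne.symm hyw) fun h1 => hyt ?_⟩
      have h2 : S.ln b w = S.ln w y := LS.eq_ln (LS.ln_mem (Ne.symm hyw)) (Ne.symm hw) h1
        (S.left (Ne.symm hyw))
      have h3 : y ∈ S.ln b w := by rw [h2]; exact S.right (Ne.symm hyw)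
      exact (LS.th_unique (Ne.symm hw) h3 (fun h4 => hbO (h4 ▸ hyO)) hyw).2.symm
    have hy1b : y1 ≠ b := (hub y1 (Or.inr hy1)).symm
    obtain ⟨y2, hy2, hy21, hc2⟩ := hex y1 hy1b (LS.mem_O.1 hy1).1
    have h2γ : e x + e x = τ := by
      have h1 := h.pair_eq (Ne.symm hy21) hc2
      rw [hγ y1 hy1, hγ y2 hy2, ← hτ] at h1
      have h2 : e x + e x = (τ + τ) - (τ - e x + (τ - e x)) := by abel
      rw [h2, h1]; abel
    have hall : ∀ w, w ≠ b → e w = e x := by
      intro w hw
      by_cases hwx : w = x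
      · rw [hwx]
      obtain ⟨y, hy, hyw, hcy⟩ := hex w hw hwx
      have h1 := h.pair_eq (Ne.symm hyw) hcy
      rw [hγ y hy, ← hτ] at h1
      have h2 : e w = (e w + (τ - e x)) - τ + e x := by abel
      rw [h2, h1, sub_self, zero_add]
    have hb0 : e b = 0 := by
      have h1 := h.third_sum hbx (hb3 x hbx.symm)
      rw [hall _ (LS.th_ne_left hbx (hb3 x hbx.symm)), ← hτ] at h1
      have h2 : e b = (e b + e x + e x) - (e x + e x) := by abel
      rw [h2, h1, h2γ, sub_self]
    exact sp1_kill' h (by omega) hb0 (fun y hy => hb3 y hy) ho (b := e x) hall h2γ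

/-- a Hilbert linear space with seven points and a three-point line is the Fano plane -/
theorem HP.seven (h : HP S e) (hn : Fintype.card V = 7) {a b : V} (hab : a ≠ b)
    (hc : (S.ln a b).card = 3) : ∀ x y, x ≠ y → (S.ln x y).card = 3 := by
  by_contra hcon
  push Not at hcon
  obtain ⟨x0, y0, hxy0, hne0⟩ := hcon
  have hc0 : (S.ln x0 y0).card = 2 := (LS.card_cases hxy0).resolve_right hne0
  set τ : A := ∑ y, e y with hτ
  have hpar := fun v => LS.t3_count (S := S) v
  have hdeg : ∀ v, (S.O v).card = 0 ∨ (S.O v).card = 2 := by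
    intro v
    have h1 := h.seven_no6 hn hab hc v
    have h2 := h.seven_no4 hn hab hc v
    have h3 := hpar v
    omega
  have hτ0 : τ ≠ 0 := h.tau_ne (by omega)
  have hPn : ∀ x y, y ∈ S.O x → (S.O x).card = 2 := by
    intro x y hy
    have h1 : 1 ≤ (S.O x).card := card_pos.2 ⟨y, hy⟩
    have h2 := hdeg x
    omega
  have hP3 : ∀ x, (S.O x).card = 2 → (3 : ℕ) • (τ - e x) = 0 := by
    intro x hx
    have h1 := h.seven_order hn x
    rw [hx, ← hτ] at h1
    have h2 : addOrderOf (τ - e x) = 3 := by omega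
    rw [← h2]; exact addOrderOf_nsmul_eq_zero _
  have hZ2 : ∀ z, (S.O z).card = 0 → (2 : ℕ) • (τ - e z) = 0 ∧ τ - e z ≠ 0 := by
    intro z hz
    have h1 := h.seven_order hn z
    rw [hz, ← hτ] at h1
    have h2 : addOrderOf (τ - e z) = 2 := by omega
    constructor
    · rw [← h2]; exact addOrderOf_nsmul_eq_zero _
    · intro h3
      rw [h3, addOrderOf_zero] at h2
      omega
  have hO0 : y0 ∈ S.O x0 := LS.mem_O.2 ⟨hxy0.symm, hc0⟩
  have h3τ : (3 : ℕ) • τ = 0 := by
    have h1 := hP3 x0 (hPn _ _ hO0)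
    have h2 := hP3 y0 (hPn _ _ (LS.O_symm.1 hO0))
    have h4 := h.pair_eq hxy0 hc0
    rw [← hτ] at h4
    have h5 : (3 : ℕ) • τ = (3 : ℕ) • (τ - e x0) + (3 : ℕ) • (τ - e y0) -
        (3 : ℕ) • (τ - (e x0 + e y0)) := by abel
    rw [h5, h1, h2, h4, sub_self, smul_zero, add_zero, sub_zero]
  have hline : ∀ x y, x ≠ y → (S.ln x y).card = 3 →
      (τ - e x) + (τ - e y) + (τ - e (S.th x y)) = τ + τ := by
    intro x y hxy hc
    have h1 := h.third_sum hxy hc
    have h2 : (τ - e x) + (τ - e y) + (τ - e (S.th x y)) =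
        τ + τ + τ - (e x + e y + e (S.th x y)) := by abel
    rw [h2, h1, ← hτ]; abel
  set P : Finset V := univ.filter fun x => (S.O x).card = 2 with hP
  have hmP : ∀ x, x ∈ P ↔ (S.O x).card = 2 := fun x => by simp [hP]
  have hmZ : ∀ x, x ∉ P → (S.O x).card = 0 := fun x hx => by
    rw [hmP] at hx
    exact (hdeg x).resolve_right hx
  have hx0P : x0 ∈ P := (hmP _).2 (hPn _ _ hO0)
  -- lines through points of degree zero
  have hz3 : ∀ z, z ∉ P → ∀ w, w ≠ z → (S.ln z w).card = 3 := by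
    intro z hz w hw
    rcases LS.card_cases (S := S) (Ne.symm hw) with h1 | h1
    · exfalso
      have h2 : w ∈ S.O z := LS.mem_O.2 ⟨hw, h1⟩
      have h3 := hPn z w h2
      have h4 := hmZ z hz
      omega
    · exact h1
  have hPZ : ∀ z, z ∉ P → ∀ p, p ∈ P → S.th z p ∉ P := by
    intro z hz p hp hr
    have hpz : z ≠ p := fun h1 => hz (h1 ▸ hp)
    have h1 := hline z p hpz (hz3 z hz p hpz.symm)
    have h2 := hP3 _ ((hmP _).1 hr)
    have h4 := hP3 _ ((hmP _).1 hp)
    obtain ⟨h5, h6⟩ := hZ2 z (hmZ z hz)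
    apply h6
    have h7 : τ - e z = (3 : ℕ) • ((τ - e z) + (τ - e p) + (τ - e (S.th z p))) -
        (3 : ℕ) • (τ - e p) - (3 : ℕ) • (τ - e (S.th z p)) - (2 : ℕ) • (τ - e z) := by abel
    rw [h7, h1, h2, h4, h5, sub_zero, sub_zero, sub_zero]
    have h8 : (3 : ℕ) • (τ + τ) = (3 : ℕ) • τ + (3 : ℕ) • τ := by abel
    rw [h8, h3τ, zero_add]
  have hZZ : ∀ z, z ∉ P → ∀ q, q ∉ P → z ≠ q → S.th z q ∈ P := by
    intro z hz q hq hzq
    by_contra hr
    have h1 := hline z q hzq (hz3 z hz q hzq.symm)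
    have h2 := (hZ2 _ (hmZ _ hz)).1
    have h4 := (hZ2 _ (hmZ _ hq)).1
    have h5 := (hZ2 _ (hmZ _ hr)).1
    apply hτ0
    have h6 : τ = (2 : ℕ) • ((τ - e z) + (τ - e q) + (τ - e (S.th z q))) +
        (2 : ℕ) • (τ + τ - ((τ - e z) + (τ - e q) + (τ - e (S.th z q)))) - (3 : ℕ) • τ := by abel
    rw [h6, h1, h3τ, sub_self, smul_zero, add_zero, sub_zero, ← h1, smul_add, smul_add, h2, h4, h5,
      add_zero, add_zero]
  obtain ⟨z, hz⟩ : ∃ z, z ∉ P := by
    by_contra hcon
    push Not at hcon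
    have h1 := LS.t3_sum (S := S)
    have h2 : ∀ v ∈ (univ : Finset V), S.t3 v = 2 := by
      intro v _
      have h3 := hpar v
      rw [(hmP v).1 (hcon v)] at h3
      omega
    rw [sum_congr rfl h2, sum_const, card_univ, hn] at h1
    simp only [smul_eq_mul] at h1
    omega
  have hZc : (Pᶜ : Finset V).card + P.card = 7 := by rw [card_compl, hn]; have := card_le_univ P; omega
  have hPc : P.card = 3 := by
    have hzC : z ∈ Pᶜ := mem_compl.2 hz
    have h1 : P.card ≤ (Pᶜ.erase z).card := by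
      apply card_le_card_of_injOn (fun p => S.th z p)
      · intro p hp
        have hp := mem_coe.1 hp
        have hzp : z ≠ p := fun h1 => hz (h1 ▸ hp)
        rw [mem_coe, mem_erase, mem_compl]
        exact ⟨LS.th_ne_left hzp (hz3 z hz p hzp.symm), hPZ z hz p hp⟩
      · intro p hp q hq heq
        have hp := mem_coe.1 hp
        have hq := mem_coe.1 hq
        have hzp : p ≠ z := fun h1 => hz (h1 ▸ hp)
        have hzq : q ≠ z := fun h1 => hz (h1 ▸ hq)
        have c1 := hz3 z hz p hzp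
        have c2 := hz3 z hz q hzq
        apply LS.th_inj hzp hzq (by rw [LS.ln_symm hzp]; exact c1)
          (by rw [LS.ln_symm hzq]; exact c2)
        rw [LS.th_symm hzp.symm c1, LS.th_symm hzq.symm c2]
        exact heq
    have h2 : (Pᶜ.erase z).card ≤ P.card := by
      apply card_le_card_of_injOn (fun p => S.th z p)
      · intro q hq
        rw [mem_coe, mem_erase, mem_compl] at hq
        exact mem_coe.2 (hZZ z hz q hq.2 hq.1.symm)
      · intro p hp q hq heq
        rw [mem_coe, mem_erase, mem_compl] at hp hq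
        have c1 := hz3 z hz p hp.1
        have c2 := hz3 z hz q hq.1
        apply LS.th_inj hp.1 hq.1 (by rw [LS.ln_symm hp.1]; exact c1)
          (by rw [LS.ln_symm hq.1]; exact c2)
        rw [LS.th_symm hp.1.symm c1, LS.th_symm hq.1.symm c2]
        exact heq
    rw [card_erase_of_mem hzC] at h1 h2
    have h3 : 0 < (Pᶜ : Finset V).card := card_pos.2 ⟨z, hzC⟩
    omega
  have hOP : ∀ x ∈ P, S.O x = P.erase x := by
    intro x hx
    apply eq_of_subset_of_card_le
    · intro y hy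
      exact mem_erase.2 ⟨(LS.mem_O.1 hy).1, (hmP _).2 (hPn _ _ (LS.O_symm.1 hy))⟩
    · rw [card_erase_of_mem hx, hPc, (hmP _).1 hx]
  -- the three points
  obtain ⟨x, y, y', hxy, hxy', hyy', hPe⟩ := card_eq_three.1 hPc
  have hxP : x ∈ P := by rw [hPe]; simp
  have hyP : y ∈ P := by rw [hPe]; simp
  have hy'P : y' ∈ P := by rw [hPe]; simp
  have hO2 : ∀ u ∈ P, ∀ v ∈ P, u ≠ v → (S.ln u v).card = 2 := by
    intro u hu v hv huv
    have h1 : v ∈ S.O u := by rw [hOP u hu]; exact mem_erase.2 ⟨huv.symm, hv⟩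
    exact (LS.mem_O.1 h1).2
  have hO3 : ∀ u ∈ P, ∀ v ∉ P, u ≠ v → (S.ln u v).card = 3 := by
    intro u hu v hv huv
    rw [LS.ln_symm huv]
    exact hz3 v hv u huv
  -- the class of `x`
  have hex : e x + τ = 0 := by
    have hxz : z ≠ x := fun h1 => hz (h1 ▸ hxP)
    have h1 := hline z x hxz (hz3 z hz x hxz.symm)
    have h2 := hP3 _ ((hmP _).1 hxP)
    obtain ⟨h4, -⟩ := hZ2 _ (hmZ _ (hPZ z hz x hxP))
    obtain ⟨h5, -⟩ := hZ2 z (hmZ z hz)
    have h6 : e x + τ = (3 : ℕ) • ((τ - e z) + (τ - e x) + (τ - e (S.th z x))) -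
        ((τ - e z) + (τ - e x) + (τ - e (S.th z x))) - (3 : ℕ) • (τ - e x)
         - (2 : ℕ) • (τ - e z) - (2 : ℕ) • (τ - e (S.th z x)) + τ + τ := by abel
    rw [h6, h1, h2, h4, h5]
    have h7 : (3 : ℕ) • (τ + τ) - (τ + τ) - 0 - 0 - 0 + τ + τ = (3 : ℕ) • τ + (3 : ℕ) • τ := by abel
    rw [h7, h3τ, zero_add]
  -- the three-point lines avoiding `x`
  set 𝓛 : Finset (Finset V) := S.lines.filter fun L => L.card = 3 ∧ x ∉ L with h𝓛
  have ht3P : S.t3 y = 2 ∧ S.t3 y' = 2 := by
    have h1 := hpar y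
    have h2 := hpar y'
    rw [(hmP _).1 hyP] at h1
    rw [(hmP _).1 hy'P] at h2
    omega
  have h𝓛w : ∀ w, w ≠ x → (𝓛.filter fun L => w ∈ L).card = 2 := by
    intro w hwx
    have h0 := hpar w
    by_cases hw : w ∈ P
    · rw [(hmP _).1 hw] at h0
      have h1 : (𝓛.filter fun L => w ∈ L) = (S.thr w).filter fun L => L.card = 3 := by
        ext L
        simp only [h𝓛, mem_filter, LS.mem_thr]
        constructor
        · rintro ⟨⟨h1, h2, h3⟩, h4⟩
          exact ⟨⟨h1, h4⟩, h2⟩
        · rintro ⟨⟨h1, h4⟩, h2⟩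
          refine ⟨⟨h1, h2, fun h5 => ?_⟩, h4⟩
          have h6 := hO2 w hw x hxP hwx
          rw [LS.eq_ln h1 hwx h4 h5, h2] at h6
          omega
      rw [h1]
      show S.t3 w = 2
      omega
    · rw [hmZ w hw] at h0
      have hc := hz3 w hw x (Ne.symm hwx)
      have h1 : (𝓛.filter fun L => w ∈ L) =
          ((S.thr w).filter fun L => L.card = 3).erase (S.ln w x) := by
        ext L
        simp only [h𝓛, mem_filter, LS.mem_thr, mem_erase]
        constructor
        · rintro ⟨⟨h1, h2, h3⟩, h4⟩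
          exact ⟨fun h5 => h3 (h5 ▸ S.right hwx), ⟨h1, h4⟩, h2⟩
        · rintro ⟨h5, ⟨h1, h4⟩, h2⟩
          exact ⟨⟨h1, h2, fun h6 => h5 (LS.eq_ln h1 hwx h4 h6).symm⟩, h4⟩
      rw [h1, card_erase_of_mem (mem_filter.2 ⟨LS.ln_mem_thr hwx, hc⟩)]
      show S.t3 w - 1 = 2
      omega
  have h𝓛x : (𝓛.filter fun L => x ∈ L).card = 0 := by
    rw [card_eq_zero, filter_eq_empty_iff]
    intro L hL h1
    rw [h𝓛, mem_filter] at hL
    exact hL.2.2 h1
  have h𝓛c : 𝓛.card = 4 := by
    have h1 : ∑ L ∈ 𝓛, L.card = ∑ w, (𝓛.filter fun L => w ∈ L).card := by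
      have h2 : ∀ L ∈ 𝓛, L.card = ∑ w : V, if w ∈ L then 1 else 0 := by
        intro L _
        rw [← card_filter, filter_mem_eq_inter, univ_inter]
      rw [sum_congr rfl h2, sum_comm]
      exact sum_congr rfl fun w _ => by rw [card_filter]
    have h2 : ∀ L ∈ 𝓛, L.card = 3 := fun L hL => (mem_filter.1 hL).2.1
    have h3 : ∀ w ∈ (univ : Finset V), (𝓛.filter fun L => w ∈ L).card =
        2 - if w = x then 2 else 0 := by
      intro w _
      by_cases hw : w = x
      · rw [hw, h𝓛x, if_pos rfl]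
      · rw [h𝓛w w hw, if_neg hw]
    rw [sum_congr rfl h2, sum_const, ← add_sum_erase univ _ (mem_univ x), h𝓛x,
      sum_congr rfl fun w hw => h𝓛w w (ne_of_mem_erase hw), sum_const,
      card_erase_of_mem (mem_univ x), card_univ, hn] at h1
    simp only [smul_eq_mul] at h1
    omega
  have hcone : S.ConeP fun w => if w = x then 2 else 1 := by
    refine LS.ConeP.div (N := 2) (by norm_num) ?_
    have h1 : S.ConeP fun w => ∑ L ∈ 𝓛, if w ∈ L then (0 : ℤ) else 1 :=
      LS.ConeP.sum _ fun L hL => LS.ConeP.line (mem_filter.1 hL).1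
    convert h1 using 2 with w
    have h2 : ∑ L ∈ 𝓛, (if w ∈ L then (0 : ℤ) else 1) =
        (𝓛.card : ℤ) - ((𝓛.filter fun L => w ∈ L).card : ℤ) := by
      have h3 : ∀ L ∈ 𝓛, (if w ∈ L then (0 : ℤ) else 1) = 1 - if w ∈ L then 1 else 0 := by
        intro L _
        split_ifs <;> rfl
      rw [sum_congr rfl h3, sum_sub_distrib, sum_const, nsmul_eq_mul, mul_one,
        card_filter (fun L => w ∈ L) 𝓛]
      push_cast
      rfl
    rw [h2, h𝓛c]
    by_cases hw : w = x
    · rw [hw, h𝓛x, if_pos rfl]; norm_num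
    · rw [h𝓛w w hw, if_neg hw]; norm_num
  obtain ⟨lam, hd⟩ := h.dec (fun w => if w = x then 2 else 1) (by
    have h1 : ∀ w ∈ (univ : Finset V), (if w = x then (2 : ℤ) else 1) • e w =
        e w + if w = x then e w else 0 := by
      intro w _
      split_ifs
      · rw [two_smul]
      · rw [one_smul, add_zero]
    rw [sum_congr rfl h1, sum_add_distrib, sum_ite_eq', if_pos (mem_univ x), ← hτ, add_comm]
    exact hex) hcone
  have ht := hd.total
  set s : ℤ := ∑ L ∈ S.lines, (lam L : ℤ) with hs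
  have hg : ∑ w : V, (if w = x then (2 : ℤ) else 1) = 8 := by
    have h1 : ∀ w ∈ (univ : Finset V), (if w = x then (2 : ℤ) else 1) =
        1 + if w = x then 1 else 0 := by
      intro w _
      split_ifs <;> norm_num
    rw [sum_congr rfl h1, sum_add_distrib, sum_ite_eq', if_pos (mem_univ x), sum_const, card_univ,
      hn]
    norm_num
  rw [hg, hn] at ht
  have hub : ∑ L ∈ S.lines, (lam L : ℤ) * L.card ≤ 3 * s := by
    rw [hs, mul_sum]
    refine sum_le_sum fun L hL => ?_
    have h2 := LS.le_three hL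
    have h3 : (L.card : ℤ) ≤ 3 := by exact_mod_cast h2
    have h4 : (0 : ℤ) ≤ lam L := Int.natCast_nonneg _
    nlinarith
  have hlb : 2 * s ≤ ∑ L ∈ S.lines, (lam L : ℤ) * L.card := by
    rw [hs, mul_sum]
    refine sum_le_sum fun L hL => ?_
    have h2 := LS.two_le hL
    have h3 : (2 : ℤ) ≤ L.card := by exact_mod_cast h2
    have h4 : (0 : ℤ) ≤ lam L := Int.natCast_nonneg _
    nlinarith
  push_cast at ht
  have hs2 : s = 2 := by omega
  have hdx : ∑ L ∈ S.thr x, (lam L : ℤ) = 0 := by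
    have h1 := hd x
    dsimp only at h1
    rw [if_pos rfl] at h1
    linarith
  have hdw : ∀ w, w ≠ x → ∑ L ∈ S.thr w, (lam L : ℤ) = 1 := by
    intro w hw
    have h1 := hd w
    dsimp only at h1
    rw [if_neg hw] at h1
    linarith
  have hall3 : ∀ L ∈ S.lines, lam L ≠ 0 → L.card = 3 := by
    intro L hL hL0
    have h1 : ∑ L ∈ S.lines, (lam L : ℤ) * (3 - L.card) = 0 := by
      have h2 : ∀ L ∈ S.lines, (lam L : ℤ) * (3 - L.card) = 3 * lam L - lam L * L.card := by
        intro L _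
        ring
      rw [sum_congr rfl h2, sum_sub_distrib, ← mul_sum, ← hs]
      linarith
    have h2 := (sum_eq_zero_iff_of_nonneg (fun L hL => by
      have h3 : (L.card : ℤ) ≤ 3 := by exact_mod_cast LS.le_three hL
      have h4 : (0 : ℤ) ≤ lam L := Int.natCast_nonneg _
      exact mul_nonneg h4 (by linarith))).1 h1 L hL
    rcases mul_eq_zero.1 h2 with h3 | h3
    · exact absurd (by exact_mod_cast h3) hL0
    · have : (L.card : ℤ) = 3 := by linarith
      exact_mod_cast this
  obtain ⟨L1, hL1, hyL1, hl1⟩ := LS.exists_of_deg (lam := lam) (w := y) (by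
    rw [hdw y hxy.symm]; norm_num)
  obtain ⟨L2, hL2, hyL2, hl2⟩ := LS.exists_of_deg (lam := lam) (w := y') (by
    rw [hdw y' hxy'.symm]; norm_num)
  have hc1 := hall3 L1 hL1 hl1
  have hc2 := hall3 L2 hL2 hl2
  have hx1 : x ∉ L1 := fun h1 => hl1 (LS.lam_zero hdx hL1 h1)
  have hx2 : x ∉ L2 := fun h1 => hl2 (LS.lam_zero hdx hL2 h1)
  have hl1' : (1 : ℤ) ≤ lam L1 := by exact_mod_cast Nat.one_le_iff_ne_zero.2 hl1
  have hl2' : (1 : ℤ) ≤ lam L2 := by exact_mod_cast Nat.one_le_iff_ne_zero.2 hl2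
  have hne : L1 ≠ L2 := by
    intro h1
    have h2 := hO2 y hyP y' hy'P hyy'
    rw [LS.eq_ln hL1 hyy' hyL1 (h1 ▸ hyL2), hc1] at h2
    omega
  have hdis : ∀ w, w ∈ L1 → w ∉ L2 := by
    intro w h1 h2
    have h3 := LS.add_le_deg lam hL1 h1 hL2 h2 hne
    rw [hdw w (fun h4 => hx1 (h4 ▸ h1))] at h3
    linarith
  have huniv : (insert x (L1 ∪ L2) : Finset V) = univ := by
    apply eq_univ_of_card
    rw [card_insert_of_notMem (by rw [mem_union]; exact fun h1 => h1.elim hx1 hx2),
      card_union_of_disjoint (disjoint_left.2 hdis), hc1, hc2, hn]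
  obtain ⟨q, hq, hqy'⟩ : ∃ w ∈ L2, w ≠ y' := by
    apply exists_mem_ne
    omega
  have hqy : y ≠ q := fun h1 => hdis y hyL1 (h1 ▸ hq)
  have hqx : q ≠ x := fun h1 => hx2 (h1 ▸ hq)
  have hqP : q ∉ P := by
    rw [hPe]
    simp only [mem_insert, mem_singleton, not_or]
    exact ⟨hqx, hqy.symm, hqy'⟩
  have hcq := hO3 y hyP q hqP hqy
  obtain ⟨t1, t2, t3⟩ := LS.th_spec hqy hcq
  have htm := LS.th_mem hqy hcq
  set t := S.th y q with ht'
  have htu : t ∈ insert x (L1 ∪ L2) := by rw [huniv]; exact mem_univ _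
  rw [mem_insert, mem_union] at htu
  rcases htu with h1 | h1 | h1
  · have h2 := hO2 y hyP x hxP hxy.symm
    rw [LS.eq_ln (LS.ln_mem hqy) hxy.symm (S.left hqy) (h1 ▸ htm), hcq] at h2
    omega
  · have h2 := LS.line_unique hL1 (LS.ln_mem hqy) t1 h1 hyL1 htm (S.left hqy)
    exact hdis q (by rw [h2]; exact S.right hqy) hq
  · have h2 := LS.line_unique hL2 (LS.ln_mem hqy) t2 h1 hq htm (S.right hqy)
    exact hdis y hyL1 (by rw [h2]; exact S.left hqy)

end Pool.Agent.helper25.PV
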