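import Pool.Agent.helper25.PV.Sp1

set_option autoImplicit false
set_option linter.unusedSectionVars false
set_option linter.unusedVariables false

/-!
# Project PW: linear spaces of six points
-/

namespace Pool.Agent.helper25.PV

open Finset

variable {V : Type*} [Fintype V] [DecidableEq V] {S : LS V}

/-- `1 - χ_x` is in the cone -/
theorem LS.ConeP.pt' {x : V} (hk : 3 ≤ (S.thr x).card) :
    S.ConeP fun y => if y = x then 0 else 1 := by
  refine LS.ConeP.div (N := (S.thr x).card - 1) (by omega) ?_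
  have h1 : S.ConeP fun y => ∑ L ∈ S.thr x, if y ∈ L then (0 : ℤ) else 1 :=
    LS.ConeP.sum _ fun L hL => LS.ConeP.line (LS.mem_thr.1 hL).1
  have h2 : (fun y => ∑ L ∈ S.thr x, if y ∈ L then (0 : ℤ) else 1) =
      fun y => (((S.thr x).card - 1 : ℕ) : ℤ) * if y = x then 0 else 1 := by
    ext y
    by_cases hy : y = x
    · subst hy
      rw [if_pos rfl, mul_zero]
      refine sum_eq_zero fun L hL => ?_
      rw [if_pos (LS.mem_thr.1 hL).2]
    · rw [if_neg hy, mul_one]
      have h3 : ∀ L ∈ S.thr x, (if y ∈ L then (0 : ℤ) else 1) =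
          1 - if L = S.ln x y then 1 else 0 := by
        intro L hL
        have h4 := LS.mem_thr.1 hL
        by_cases h5 : y ∈ L
        · rw [if_pos h5, if_pos (LS.eq_ln h4.1 (Ne.symm hy) h4.2 h5).symm]; simp
        · rw [if_neg h5, if_neg]
          · simp
          · rintro rfl
            exact h5 (S.right (Ne.symm hy))
      rw [sum_congr rfl h3, sum_sub_distrib, sum_ite_eq', if_pos (LS.ln_mem_thr (Ne.symm hy))]
      simp
      omega
  rwa [h2] at h1


variable {A : Type*} [AddCommGroup A] {e : V → A}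

/-- `(k - 1) (τ - e x) = 0` -/
theorem HP.nsmul_f' (h : HP S e) {x : V} (hk : 3 ≤ (S.thr x).card) :
    ((S.thr x).card - 1) • ((∑ y, e y) - e x) = 0 := by
  have h1 : ∑ L ∈ S.thr x, ∑ y ∈ L, e y = (S.thr x).card • ∑ y, e y := by
    rw [sum_congr rfl fun L hL => h.rel L (LS.mem_thr.1 hL).1, sum_const]
  have h2 : ∑ L ∈ S.thr x, ∑ y ∈ L, e y = (S.thr x).card • e x + ∑ y ∈ univ.erase x, e y := by
    have h3 : ∑ y ∈ univ.erase x, e y = ∑ L ∈ S.thr x, ∑ y ∈ L.erase x, e y := by
      rw [← sum_fiberwise_of_maps_to (s := univ.erase x) (t := S.thr x) (g := fun y => S.ln x y)]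
      · exact sum_congr rfl fun L hL => by rw [LS.fiber hL]
      · intro y hy
        exact LS.ln_mem_thr (Ne.symm (ne_of_mem_erase hy))
    rw [h3, ← sum_const, ← sum_add_distrib]
    refine sum_congr rfl fun L hL => ?_
    rw [add_sum_erase _ _ (LS.mem_thr.1 hL).2]
  have h3 : ∑ y ∈ univ.erase x, e y = (∑ y, e y) - e x := by
    rw [← add_sum_erase univ e (mem_univ x)]; abel
  rw [h2, h3] at h1
  obtain ⟨k, hk'⟩ : ∃ k, (S.thr x).card = k + 1 := ⟨(S.thr x).card - 1, by omega⟩
  rw [hk'] at h1 ⊢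
  rw [Nat.add_sub_cancel, nsmul_sub]
  rw [add_nsmul, add_nsmul, one_nsmul, one_nsmul] at h1
  have : k • (∑ y, e y) - k • e x = 0 := by
    have h4 : k • ∑ y, e y + ∑ y, e y - (k • e x + e x + ((∑ y, e y) - e x)) = 0 := by
      rw [h1]; abel
    rw [← h4]; abel
  exact this

/-- exactness: `m (τ - e x) = 0` only if `k - 1` divides `m` -/
theorem HP.dvd_of_nsmul' (h : HP S e) {x : V} (hk : 3 ≤ (S.thr x).card) {m : ℕ}
    (hm : m • ((∑ y, e y) - e x) = 0) : (S.thr x).card - 1 ∣ m := by
  obtain ⟨lam, hd⟩ := h.dec (fun y => m * if y = x then 0 else 1)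
    (by rw [sum_pt]; rw [natCast_zsmul]; exact hm) ((LS.ConeP.pt' hk).smul m)
  have h0 : ∀ L ∈ S.lines, x ∉ L → lam L = 0 := fun L hL hxL =>
    hd.zero_of (x := x) (by simp) hL hxL
  have hs : ∑ L ∈ S.lines, (lam L : ℤ) = ∑ L ∈ S.thr x, (lam L : ℤ) := by
    have := hd x
    simpa using this.symm
  have h1 : ∀ L ∈ S.thr x, (m : ℤ) + lam L = ∑ L ∈ S.thr x, (lam L : ℤ) := by
    intro L hL
    have h3 := LS.mem_thr.1 hL
    obtain ⟨y, hy, hyx⟩ : ∃ y ∈ L, y ≠ x := by
      apply exists_mem_ne
      have := LS.two_le h3.1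
      omega
    have h4 := hd y
    simp only [if_neg hyx, mul_one] at h4
    rw [hs] at h4
    rw [← h4]
    congr 1
    symm
    apply sum_eq_single L
    · intro L' hL' hne
      have h5 := LS.mem_thr.1 hL'
      by_contra h6
      have h7 : x ∈ L' := by
        by_contra h8
        exact h6 (by rw [h0 L' h5.1 h8]; rfl)
      exact hne (LS.line_unique h5.1 h3.1 hyx h5.2 h7 hy h3.2)
    · intro h5
      exact absurd (LS.mem_thr.2 ⟨h3.1, hy⟩) h5
  set s : ℤ := ∑ L ∈ S.thr x, (lam L : ℤ) with hsdef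
  have h2 : s = (S.thr x).card * (s - m) := by
    have : s = ∑ L ∈ S.thr x, (s - m) := by
      rw [hsdef]
      refine sum_congr rfl fun L hL => ?_
      have := h1 L hL
      rw [← hsdef]
      linarith
    rw [this, sum_const, nsmul_eq_mul]
    congr 1
    rw [sum_const, nsmul_eq_mul] at this
    linarith
  have h3 : (((S.thr x).card - 1 : ℕ) : ℤ) ∣ m := by
    refine ⟨s - m, ?_⟩
    rw [Nat.cast_sub (by omega)]
    push_cast
    linarith
  exact_mod_cast h3

/-- the order of `τ - e x` -/
theorem HP.order' (h : HP S e) {x : V} (hk : 3 ≤ (S.thr x).card) :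
    addOrderOf ((∑ y, e y) - e x) = (S.thr x).card - 1 := by
  apply Nat.dvd_antisymm
  · exact addOrderOf_dvd_iff_nsmul_eq_zero.2 (h.nsmul_f' hk)
  · exact h.dvd_of_nsmul' hk (addOrderOf_nsmul_eq_zero _)

/-- the number of three-point lines through a point -/
def LS.t3 (S : LS V) (x : V) : ℕ := ((S.thr x).filter fun L => L.card = 3).card

theorem LS.thr_split (x : V) : (S.thr x).card = (S.O x).card + S.t3 x := by
  rw [LS.O_card, LS.t3, ← card_filter_add_card_filter_not (s := S.thr x) fun L => L.card = 2]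
  congr 2
  ext L
  simp only [mem_filter]
  constructor
  · rintro ⟨h1, h2⟩
    refine ⟨h1, ?_⟩
    have h3 := LS.two_le (LS.mem_thr.1 h1).1
    have h4 := LS.le_three (LS.mem_thr.1 h1).1
    omega
  · rintro ⟨h1, h2⟩
    exact ⟨h1, by omega⟩

/-- `2 t + o = n - 1` -/
theorem LS.t3_count (x : V) : 2 * S.t3 x + (S.O x).card + 1 = Fintype.card V := by
  have h1 := LS.count (S := S) x
  have h2 := LS.thr_split (S := S) x
  omega

/-- three times the number of three-point lines -/
theorem LS.t3_sum : ∑ x, S.t3 x = 3 * (S.lines.filter fun L => L.card = 3).card := by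
  have h1 : ∀ x ∈ (univ : Finset V), S.t3 x =
      ∑ L ∈ S.lines.filter (fun L => L.card = 3), if x ∈ L then 1 else 0 := by
    intro x _
    rw [LS.t3, LS.thr, ← card_filter]
    congr 1
    ext L
    simp only [mem_filter]
    tauto
  rw [sum_congr rfl h1, sum_comm]
  have h2 : ∀ L ∈ S.lines.filter (fun L => L.card = 3), (∑ x : V, if x ∈ L then 1 else 0) = 3 := by
    intro L hL
    rw [← card_filter, filter_mem_eq_inter, univ_inter]
    exact (mem_filter.1 hL).2
  rw [sum_congr rfl h2, sum_const, smul_eq_mul, mul_comm]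

/-- a Hilbert linear space with six points and a free point has no three-point line -/
theorem HP.free6 (h : HP S e) (hn : Fintype.card V = 6) {o : V}
    (ho : ∀ v, v ≠ o → (S.ln o v).card = 2) {x y : V} (hxy : x ≠ y) (hc : (S.ln x y).card = 3) :
    False := by
  have hxo : x ≠ o := by
    rintro rfl
    rw [ho y hxy.symm] at hc
    omega
  have hyo : y ≠ o := by
    rintro rfl
    rw [LS.ln_symm hxy, ho x hxy] at hc
    omega
  set τ : A := ∑ y, e y with hτdef
  have hpair : ∀ w, w ≠ o → e w = τ - e o := by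
    intro w hw
    have h1 := h.rel _ (LS.ln_mem (S := S) hw.symm)
    rw [LS.ln_eq_pair hw.symm (ho w hw), sum_pair hw.symm] at h1
    rw [hτdef, ← h1]
    abel
  set β : A := τ - e o with hβdef
  have hoO : S.O o = univ.erase o := by
    ext v
    rw [LS.mem_O, mem_erase]
    exact ⟨fun h1 => ⟨h1.1, mem_univ _⟩, fun h1 => ⟨h1.1, ho v h1.1⟩⟩
  have hok : (S.thr o).card = 5 := by
    have h1 := LS.count (S := S) o
    rw [hoO, card_erase_of_mem (mem_univ _), card_univ, hn] at h1
    omega
  have hord := h.order' (x := o) (by omega)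
  rw [hok, ← hτdef, ← hβdef] at hord
  have hzo : S.th x y ≠ o := by
    intro h1
    have h2 := LS.th_mem hxy hc
    rw [h1] at h2
    have h3 : S.ln o x = S.ln x y := S.uniq hxy hxo.symm h2 (S.left hxy)
    rw [← h3, ho x hxo] at hc
    omega
  obtain ⟨z1, z2, z3⟩ := LS.th_spec hxy hc
  set z := S.th x y with hz
  have hτ : β + β + β = τ := by
    have h1 := h.rel _ (LS.ln_mem (S := S) hxy)
    rw [z3, sum_insert (by simp [hxy, z1.symm]), sum_pair z2.symm, hpair x hxo,
      hpair y hyo, hpair _ hzo] at h1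
    rw [hτdef, ← h1]
    abel
  -- every other point is on exactly one two-point line
  have hO : ∀ w, w ≠ o → S.O w = {o} := by
    intro w hw
    have how : o ∈ S.O w := LS.O_symm.1 (by rw [hoO]; exact mem_erase.2 ⟨hw, mem_univ _⟩)
    have hpos : 1 ≤ (S.O w).card := card_pos.2 ⟨o, how⟩
    have h1 := LS.count (S := S) w
    have h2 := h.order' (x := w) (by omega)
    have h3 : (∑ y, e y) - e w = β + β := by
      rw [hpair w hw, ← hτdef, ← hτ]; abel
    rw [h3] at h2
    have h4 : 2 • (β + β) = 0 := by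
      have h5 : 2 • (β + β) = (5 - 1) • β := by
        have : (5 - 1 : ℕ) • β = β + β + β + β := by
          show (4 : ℕ) • β = _
          abel
        rw [this]
        abel
      rw [h5, ← hord]
      exact addOrderOf_nsmul_eq_zero β
    have h5 := addOrderOf_dvd_iff_nsmul_eq_zero.2 h4
    rw [h2] at h5
    have h6 := Nat.le_of_dvd (by norm_num) h5
    have h7 : (S.O w).card = 1 := by omega
    obtain ⟨v, hv⟩ := card_eq_one.1 h7
    rw [hv, mem_singleton] at how
    rw [hv, how]
  have htr : ∀ w w', w ≠ w' → w ≠ o → w' ≠ o → (S.ln w w').card = 3 := by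
    intro w w' h1 h2 h3
    rcases LS.card_cases (S := S) h1 with h4 | h4
    · exfalso
      have h5 : w' ∈ S.O w := LS.mem_O.2 ⟨h1.symm, h4⟩
      rw [hO w h2, mem_singleton] at h5
      exact h3 h5
    · exact h4
  -- the other points
  have hc4 : ({o, x, y, z} : Finset V).card = 4 := by
    rw [card_insert_of_notMem (by simp [hxo.symm, hyo.symm, hzo.symm]),
      card_insert_of_notMem (by simp [hxy, z1.symm]), card_pair z2.symm]
  obtain ⟨u, hu⟩ : ∃ u, u ∉ ({o, x, y, z} : Finset V) := by
    by_contra h1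
    push Not at h1
    have h3 : (univ : Finset V) ⊆ {o, x, y, z} := fun y _ => h1 y
    have h4 := card_le_card h3
    rw [card_univ] at h4
    omega
  simp only [mem_insert, mem_singleton, not_or] at hu
  obtain ⟨hu0, hux, huy, huz⟩ := hu
  have hcu := htr x u (Ne.symm hux) hxo hu0
  obtain ⟨v1, v2, v3⟩ := LS.th_spec (Ne.symm hux) hcu
  set v := S.th x u with hv
  have hul : u ∉ S.ln x y := by
    rw [z3]
    simp only [mem_insert, mem_singleton, not_or]
    exact ⟨hux, huy, huz⟩
  have hvl : v ∉ S.ln x y := by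
    intro h1
    have h2 := LS.line_unique (LS.ln_mem hxy) (LS.ln_mem (Ne.symm hux)) v1 h1 (S.left hxy)
      (by rw [v3]; simp) (S.left (Ne.symm hux))
    exact hul (by rw [h2]; exact S.right (Ne.symm hux))
  have hvo : v ≠ o := by
    intro h1
    have h2 : S.ln o x = S.ln x u := LS.eq_ln (LS.ln_mem (Ne.symm hux)) hxo.symm
      (by rw [v3, ← h1]; simp) (S.left (Ne.symm hux))
    have h3 := ho x hxo
    rw [h2, hcu] at h3
    omega
  have hvy : v ≠ y := fun h1 => hvl (by rw [h1]; exact S.right hxy)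
  have hvz : v ≠ z := fun h1 => hvl (by rw [h1, z3]; simp)
  have hcyu := htr y u (Ne.symm huy) hyo hu0
  obtain ⟨p1, p2, p3⟩ := LS.th_spec (Ne.symm huy) hcyu
  set p := S.th y u with hp
  have hpm : p ∈ S.ln y u := by rw [p3]; simp
  have hyl : y ∉ S.ln x u := by
    intro h1
    have h2 := LS.line_unique (LS.ln_mem hxy) (LS.ln_mem (Ne.symm hux)) hxy.symm (S.right hxy)
      (S.left hxy) h1 (S.left (Ne.symm hux))
    exact hul (by rw [h2]; exact S.right (Ne.symm hux))
  have hall : (univ : Finset V) = {o, x, y, z, u, v} := by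
    symm
    apply eq_univ_of_card
    rw [card_insert_of_notMem (by simp [hxo.symm, hyo.symm, hzo.symm, Ne.symm hu0, hvo.symm]),
      card_insert_of_notMem (by simp [hxy, z1.symm, Ne.symm hux, v1.symm]),
      card_insert_of_notMem (by simp [z2.symm, Ne.symm huy, hvy.symm]),
      card_insert_of_notMem (by simp [Ne.symm huz, hvz.symm]), card_pair v2.symm, hn]
  have hpu : p ∈ ({o, x, y, z, u, v} : Finset V) := by rw [← hall]; exact mem_univ _
  simp only [mem_insert, mem_singleton] at hpu
  rcases hpu with h1 | h1 | h1 | h1 | h1 | h1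
  · have h2 : S.ln o y = S.ln y u := LS.eq_ln (LS.ln_mem (Ne.symm huy)) hyo.symm
      (by rw [← h1]; exact hpm) (S.left (Ne.symm huy))
    have h3 := ho y hyo
    rw [h2, hcyu] at h3
    omega
  · have h2 := LS.line_unique (LS.ln_mem hxy) (LS.ln_mem (Ne.symm huy)) hxy (S.left hxy)
      (S.right hxy) (by rw [← h1]; exact hpm) (S.left (Ne.symm huy))
    exact hul (by rw [h2]; exact S.right (Ne.symm huy))
  · exact p1 h1
  · have h2 := LS.line_unique (LS.ln_mem hxy) (LS.ln_mem (Ne.symm huy)) z2 (by rw [z3]; simp)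
      (S.right hxy) (by rw [← h1]; exact hpm) (S.left (Ne.symm huy))
    exact hul (by rw [h2]; exact S.right (Ne.symm huy))
  · exact p2 h1
  · have h2 := LS.line_unique (LS.ln_mem (Ne.symm hux)) (LS.ln_mem (Ne.symm huy)) v2
      (by rw [v3]; simp) (S.right (Ne.symm hux)) (by rw [← h1]; exact hpm) (S.right (Ne.symm huy))
    exact hyl (by rw [h2]; exact S.left (Ne.symm huy))

end Pool.Agent.helper25.PV
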