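import Pool.Agent.helper25.PW.Kill4

set_option autoImplicit false
set_option linter.unusedSectionVars false
set_option linter.unusedVariables false

/-!
# Project PW: the Fano plane and the affine space of dimension three over the field with two
elements: the complements of the lines and the planes form a Hilbert basis
-/

namespace Pool.Agent.helper25.PV

open Set Pool.Agent.helper9.HB49

/-- the seven nonzero linear forms -/
def pdir : Fin 7 → (Fin 3 → ZMod 2) → ZMod 2 :=
  ![fun v => v 0, fun v => v 1, fun v => v 2, fun v => v 0 + v 1, fun v => v 0 + v 2,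
    fun v => v 1 + v 2, fun v => v 0 + v 1 + v 2]

theorem pdir_of : ∀ p q : Fin 3 → ZMod 2, p ≠ 0 ∧ q ≠ 0 ∧ p ≠ q → ∃ c : Fin 7,
    ∀ y, y = 0 ∨ ((y ≠ p ∧ y ≠ q ∧ y ≠ p + q) ↔ pdir c y = 1) := by decide +kernel

theorem pdir_to : ∀ c : Fin 7, ∃ p q : Fin 3 → ZMod 2, (p ≠ 0 ∧ q ≠ 0 ∧ p ≠ q) ∧
    ∀ y, y = 0 ∨ ((y ≠ p ∧ y ≠ q ∧ y ≠ p + q) ↔ pdir c y = 1) := by decide +kernel

theorem adir_of' : ∀ p q s : Fin 3 → ZMod 2, p ≠ q → p ≠ s → q ≠ s → ∃ c : Fin 7 × ZMod 2,
    ∀ y, (y ≠ p ∧ y ≠ q ∧ y ≠ s ∧ y ≠ p + q + s) ↔ pdir c.1 y = c.2 := by decide +kernel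

theorem adir_to' : ∀ c : Fin 7 × ZMod 2, ∃ p q s : Fin 3 → ZMod 2, p ≠ q ∧ p ≠ s ∧ q ≠ s ∧
    ∀ y, (y ≠ p ∧ y ≠ q ∧ y ≠ s ∧ y ≠ p + q + s) ↔ pdir c.1 y = c.2 := by decide +kernel

theorem forall2 {P : ZMod 2 → Prop} (h0 : P 0) (h1 : P 1) : ∀ t, P t := by
  intro t
  fin_cases t
  · exact h0
  · exact h1

theorem sum2 (g : ZMod 2 → ℚ) : ∑ t, g t = g 0 + g 1 := Fin.sum_univ_two g

theorem pg_unique (h : Fin 7 → ℚ)
    (H : ∀ y : Fin 3 → ZMod 2, y ≠ 0 → ∑ c, (if pdir c y = 1 then h c else 0) = 0) :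
    ∀ c, h c = 0 := by
  have H1 := H ![1, 0, 0] (by decide)
  have H2 := H ![0, 1, 0] (by decide)
  have H3 := H ![0, 0, 1] (by decide)
  have H4 := H ![1, 1, 0] (by decide)
  have H5 := H ![1, 0, 1] (by decide)
  have H6 := H ![0, 1, 1] (by decide)
  have H7 := H ![1, 1, 1] (by decide)
  rw [Fin.sum_univ_seven] at H1 H2 H3 H4 H5 H6 H7
  simp (decide := true) only [↓reduceIte] at H1 H2 H3 H4 H5 H6 H7
  intro c
  fin_cases c
  · show h 0 = 0
    linarith
  · show h 1 = 0
    linarith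
  · show h 2 = 0
    linarith
  · show h 3 = 0
    linarith
  · show h 4 = 0
    linarith
  · show h 5 = 0
    linarith
  · show h 6 = 0
    linarith

theorem af_unique (h : Fin 7 → ZMod 2 → ℚ)
    (H : ∀ y : Fin 3 → ZMod 2, ∑ c, ∑ t, (if pdir c y = t then h c t else 0) = 0) :
    (∀ c t, h c t = h c 0) ∧ ∑ c, h c 0 = 0 := by
  have H0 := H ![0, 0, 0]
  have H1 := H ![1, 0, 0]
  have H2 := H ![0, 1, 0]
  have H3 := H ![0, 0, 1]
  have H4 := H ![1, 1, 0]
  have H5 := H ![1, 0, 1]
  have H6 := H ![0, 1, 1]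
  have H7 := H ![1, 1, 1]
  rw [Fin.sum_univ_seven, sum2, sum2, sum2, sum2, sum2, sum2, sum2] at H0 H1 H2 H3 H4 H5 H6 H7
  simp (decide := true) only [↓reduceIte] at H0 H1 H2 H3 H4 H5 H6 H7
  have a0 : h 0 1 = h 0 0 := by linarith
  have a1 : h 1 1 = h 1 0 := by linarith
  have a2 : h 2 1 = h 2 0 := by linarith
  have a3 : h 3 1 = h 3 0 := by linarith
  have a4 : h 4 1 = h 4 0 := by linarith
  have a5 : h 5 1 = h 5 0 := by linarith
  have a6 : h 6 1 = h 6 0 := by linarith
  refine ⟨?_, ?_⟩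
  · intro c
    fin_cases c
    · exact forall2 rfl a0
    · exact forall2 rfl a1
    · exact forall2 rfl a2
    · exact forall2 rfl a3
    · exact forall2 rfl a4
    · exact forall2 rfl a5
    · exact forall2 rfl a6
  · rw [Fin.sum_univ_seven]
    linarith

variable {α : Type*}

theorem PGT.hilbert {M : Matroid α} (hM : PGT M 3) : CircuitsHilbert M := by
  classical
  obtain ⟨f, hf, hC⟩ := hM
  have hf0 : ∀ x ∈ M.E, f x ≠ 0 := fun x hx => hf.1 hx
  have hC' : ∀ C, M.IsCircuit C ↔ ∃ c, C = {x ∈ M.E | pdir c (f x) = 1} := by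
    intro C
    rw [hC]
    constructor
    · rintro ⟨p, q, hp, hq, hpq, rfl⟩
      obtain ⟨c, h⟩ := pdir_of p q ⟨hp, hq, hpq⟩
      refine ⟨c, ?_⟩
      ext x
      rw [mem_sep_iff, mem_sep_iff]
      exact and_congr_right fun hx => (h (f x)).resolve_left (hf0 x hx)
    · rintro ⟨c, rfl⟩
      obtain ⟨p, q, ⟨hp, hq, hpq⟩, h⟩ := pdir_to c
      refine ⟨p, q, hp, hq, hpq, ?_⟩
      ext x
      rw [mem_sep_iff, mem_sep_iff]
      exact and_congr_right fun hx => ((h (f x)).resolve_left (hf0 x hx)).symm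
  set K : Fin 7 → Set α := fun c => {x ∈ M.E | pdir c (f x) = 1} with hK
  have hKc : ∀ c, M.IsCircuit (K c) := fun c => (hC' _).2 ⟨c, rfl⟩
  rw [hilbert_iff]
  intro p hp hc
  have hlat : ∀ z ∈ Lat M, ∃ n : Fin 7 → ℤ, ∀ x ∈ M.E,
      z x = ∑ c, if pdir c (f x) = 1 then n c else 0 := by
    intro z hz
    induction hz using AddSubgroup.closure_induction with
    | mem v hv =>
      obtain ⟨C, h, rfl⟩ := hv
      obtain ⟨c, rfl⟩ := (hC' C).1 h
      refine ⟨fun c' => if c' = c then 1 else 0, fun x hx => ?_⟩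
      rw [Finset.sum_eq_single c]
      · rw [chi_apply]
        simp [hx]
      · intro c' _ hc'
        simp [hc']
      · simp
    | zero => exact ⟨fun _ => 0, fun x _ => by simp⟩
    | add v w _ _ h1 h2 =>
      obtain ⟨n1, h1⟩ := h1
      obtain ⟨n2, h2⟩ := h2
      refine ⟨fun c => n1 c + n2 c, fun x hx => ?_⟩
      rw [Pi.add_apply, h1 x hx, h2 x hx, ← Finset.sum_add_distrib]
      refine Finset.sum_congr rfl fun c _ => ?_
      split_ifs <;> simp
    | neg v _ h1 =>
      obtain ⟨n1, h1⟩ := h1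
      refine ⟨fun c => - n1 c, fun x hx => ?_⟩
      rw [Pi.neg_apply, h1 x hx, ← Finset.sum_neg_distrib]
      refine Finset.sum_congr rfl fun c _ => ?_
      split_ifs <;> simp
  have hcone : ∀ v ∈ Cone M, ∃ μ : Fin 7 → ℚ, (∀ c, 0 ≤ μ c) ∧ ∀ x ∈ M.E,
      v x = ∑ c, if pdir c (f x) = 1 then μ c else 0 := by
    intro v hv
    induction hv using Submodule.span_induction with
    | mem v hv =>
      obtain ⟨C, h, rfl⟩ := hv
      obtain ⟨c, rfl⟩ := (hC' C).1 h
      refine ⟨fun c' => if c' = c then 1 else 0, fun c' => by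
        dsimp only; split_ifs <;> norm_num, fun x hx => ?_⟩
      rw [Finset.sum_eq_single c]
      · rw [chi_apply]
        simp [hx]
      · intro c' _ hc'
        simp [hc']
      · simp
    | zero => exact ⟨fun _ => 0, fun _ => le_rfl, fun x _ => by simp⟩
    | add v w _ _ h1 h2 =>
      obtain ⟨n1, k1, h1⟩ := h1
      obtain ⟨n2, k2, h2⟩ := h2
      refine ⟨fun c => n1 c + n2 c, fun c => add_nonneg (k1 c) (k2 c), fun x hx => ?_⟩
      rw [Pi.add_apply, h1 x hx, h2 x hx, ← Finset.sum_add_distrib]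
      refine Finset.sum_congr rfl fun c _ => ?_
      split_ifs <;> simp
    | smul q v _ h1 =>
      obtain ⟨n1, k1, h1⟩ := h1
      refine ⟨fun c => q * n1 c, fun c => mul_nonneg q.2 (k1 c), fun x hx => ?_⟩
      rw [Pi.smul_apply, NNRat.smul_def, h1 x hx, Finset.mul_sum]
      refine Finset.sum_congr rfl fun c _ => ?_
      split_ifs <;> simp
  obtain ⟨n, hn⟩ := hlat p hp
  obtain ⟨μ, hμ0, hμ⟩ := hcone _ hc
  have hu := pg_unique (fun c => (n c : ℚ) - μ c) (by
    intro y hy
    obtain ⟨x, hx, rfl⟩ := hf.2.2 hy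
    have h1 := hn x hx
    have h2 := hμ x hx
    have h3 : ((p x : ℤ) : ℚ) = ∑ c, if pdir c (f x) = 1 then (n c : ℚ) else (0 : ℚ) := by
      rw [h1]
      push_cast
      rfl
    have h4 : ∑ c, (if pdir c (f x) = 1 then (n c : ℚ) - μ c else (0 : ℚ)) =
        (∑ c, if pdir c (f x) = 1 then (n c : ℚ) else (0 : ℚ)) -
        ∑ c, if pdir c (f x) = 1 then μ c else 0 := by
      rw [← Finset.sum_sub_distrib]
      refine Finset.sum_congr rfl fun c _ => ?_
      split_ifs <;> simp
    rw [h4, ← h3, h2, sub_self])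
  have hn0 : ∀ c, 0 ≤ n c := by
    intro c
    have h1 := hu c
    have h2 := hμ0 c
    have h3 : (0 : ℚ) ≤ n c := by linarith
    exact_mod_cast h3
  have hpe : p = ∑ c, (n c).toNat • chi ℤ (K c) := by
    funext x
    rw [Finset.sum_apply]
    by_cases hx : x ∈ M.E
    · rw [hn x hx]
      refine Finset.sum_congr rfl fun c _ => ?_
      rw [Pi.smul_apply, nsmul_eq_mul, Int.toNat_of_nonneg (hn0 c), chi_apply]
      by_cases h3 : pdir c (f x) = 1
      · simp [hK, hx, h3]
      · simp [hK, h3]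
    · rw [lat_support hp hx]
      symm
      refine Finset.sum_eq_zero fun c _ => ?_
      rw [Pi.smul_apply, chi_apply_notMem (fun h => hx h.1), smul_zero]
  rw [hpe]
  exact sum_mem fun c _ => AddSubmonoid.nsmul_mem _ (chi_mem_intCone (hKc c)) _

theorem AGT.hilbert {M : Matroid α} (hM : AGT M 3) : CircuitsHilbert M := by
  classical
  obtain ⟨f, hf, hC⟩ := hM
  -- the circuits by directions
  have hC' : ∀ C, M.IsCircuit C ↔ ∃ c t, C = {x ∈ M.E | pdir c (f x) = t} := by
    intro C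
    rw [hC]
    constructor
    · rintro ⟨p, q, s, hpq, hps, hqs, rfl⟩
      obtain ⟨c, h⟩ := adir_of' p q s hpq hps hqs
      exact ⟨c.1, c.2, by ext x; simp only [mem_sep_iff, h]⟩
    · rintro ⟨c, t, rfl⟩
      obtain ⟨p, q, s, hpq, hps, hqs, h⟩ := adir_to' (c, t)
      exact ⟨p, q, s, hpq, hps, hqs, by ext x; simp only [mem_sep_iff, h]⟩
  set K : Fin 7 → ZMod 2 → Set α := fun c t => {x ∈ M.E | pdir c (f x) = t} with hK
  have hKc : ∀ c t, M.IsCircuit (K c t) := fun c t => (hC' _).2 ⟨c, t, rfl⟩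
  rw [hilbert_iff]
  intro p hp hc
  have hlat : ∀ z ∈ Lat M, ∃ n : Fin 7 → ZMod 2 → ℤ, ∀ x ∈ M.E,
      z x = ∑ c, ∑ t, if pdir c (f x) = t then n c t else 0 := by
    intro z hz
    induction hz using AddSubgroup.closure_induction with
    | mem v hv =>
      obtain ⟨C, h, rfl⟩ := hv
      obtain ⟨c, t, rfl⟩ := (hC' C).1 h
      refine ⟨fun c' t' => if c' = c ∧ t' = t then 1 else 0, fun x hx => ?_⟩
      rw [Finset.sum_eq_single c, Finset.sum_eq_single t]
      · rw [chi_apply]
        simp [hx]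
      · intro t' _ ht'
        simp [ht']
      · simp
      · intro c' _ hc'
        simp [hc']
      · simp
    | zero => exact ⟨fun _ _ => 0, fun x _ => by simp⟩
    | add v w _ _ h1 h2 =>
      obtain ⟨n1, h1⟩ := h1
      obtain ⟨n2, h2⟩ := h2
      refine ⟨fun c t => n1 c t + n2 c t, fun x hx => ?_⟩
      rw [Pi.add_apply, h1 x hx, h2 x hx, ← Finset.sum_add_distrib]
      refine Finset.sum_congr rfl fun c _ => ?_
      rw [← Finset.sum_add_distrib]
      refine Finset.sum_congr rfl fun t _ => ?_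
      split_ifs <;> simp
    | neg v _ h1 =>
      obtain ⟨n1, h1⟩ := h1
      refine ⟨fun c t => - n1 c t, fun x hx => ?_⟩
      rw [Pi.neg_apply, h1 x hx, ← Finset.sum_neg_distrib]
      refine Finset.sum_congr rfl fun c _ => ?_
      rw [← Finset.sum_neg_distrib]
      refine Finset.sum_congr rfl fun t _ => ?_
      split_ifs <;> simp
  have hcone : ∀ v ∈ Cone M, ∃ μ : Fin 7 → ZMod 2 → ℚ, (∀ c t, 0 ≤ μ c t) ∧ ∀ x ∈ M.E,
      v x = ∑ c, ∑ t, if pdir c (f x) = t then μ c t else 0 := by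
    intro v hv
    induction hv using Submodule.span_induction with
    | mem v hv =>
      obtain ⟨C, h, rfl⟩ := hv
      obtain ⟨c, t, rfl⟩ := (hC' C).1 h
      refine ⟨fun c' t' => if c' = c ∧ t' = t then 1 else 0, fun c' t' => by
        dsimp only; split_ifs <;> norm_num, fun x hx => ?_⟩
      rw [Finset.sum_eq_single c, Finset.sum_eq_single t]
      · rw [chi_apply]
        simp [hx]
      · intro t' _ ht'
        simp [ht']
      · simp
      · intro c' _ hc'
        simp [hc']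
      · simp
    | zero => exact ⟨fun _ _ => 0, fun _ _ => le_rfl, fun x _ => by simp⟩
    | add v w _ _ h1 h2 =>
      obtain ⟨n1, k1, h1⟩ := h1
      obtain ⟨n2, k2, h2⟩ := h2
      refine ⟨fun c t => n1 c t + n2 c t, fun c t => add_nonneg (k1 c t) (k2 c t),
        fun x hx => ?_⟩
      rw [Pi.add_apply, h1 x hx, h2 x hx, ← Finset.sum_add_distrib]
      refine Finset.sum_congr rfl fun c _ => ?_
      rw [← Finset.sum_add_distrib]
      refine Finset.sum_congr rfl fun t _ => ?_
      split_ifs <;> simp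
    | smul q v _ h1 =>
      obtain ⟨n1, k1, h1⟩ := h1
      refine ⟨fun c t => q * n1 c t, fun c t => mul_nonneg q.2 (k1 c t), fun x hx => ?_⟩
      rw [Pi.smul_apply, NNRat.smul_def, h1 x hx, Finset.mul_sum]
      refine Finset.sum_congr rfl fun c _ => ?_
      rw [Finset.mul_sum]
      refine Finset.sum_congr rfl fun t _ => ?_
      split_ifs <;> simp
  obtain ⟨n, hn⟩ := hlat p hp
  obtain ⟨μ, hμ0, hμ⟩ := hcone _ hc
  obtain ⟨u1, u2⟩ := af_unique (fun c t => (n c t : ℚ) - μ c t) (by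
    intro y
    obtain ⟨x, hx, rfl⟩ := hf.2.2 (mem_univ y)
    have h1 := hn x hx
    have h2 := hμ x hx
    have h3 : ((p x : ℤ) : ℚ) = ∑ c, ∑ t, if pdir c (f x) = t then (n c t : ℚ) else (0 : ℚ) := by
      rw [h1]
      push_cast
      rfl
    have h4 : ∑ c, ∑ t, (if pdir c (f x) = t then (n c t : ℚ) - μ c t else (0 : ℚ)) =
        (∑ c, ∑ t, if pdir c (f x) = t then (n c t : ℚ) else (0 : ℚ)) -
        ∑ c, ∑ t, if pdir c (f x) = t then μ c t else 0 := by
      rw [← Finset.sum_sub_distrib]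
      refine Finset.sum_congr rfl fun c _ => ?_
      rw [← Finset.sum_sub_distrib]
      refine Finset.sum_congr rfl fun t _ => ?_
      split_ifs <;> simp
    rw [h4, ← h3, h2, sub_self])
  -- the minima
  have hmin : ∀ c, ∃ t, ∀ t', n c t ≤ n c t' := by
    intro c
    obtain ⟨t, -, ht⟩ := (Finset.univ : Finset (ZMod 2)).exists_min_image (fun t => n c t)
      Finset.univ_nonempty
    exact ⟨t, fun t' => ht t' (Finset.mem_univ _)⟩
  choose tm htm using hmin
  set k : ℤ := ∑ c, n c (tm c) with hk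
  have hk0 : 0 ≤ k := by
    have h1 : (0 : ℚ) ≤ ∑ c, (n c (tm c) : ℚ) := by
      have h2 : ∀ c ∈ (Finset.univ : Finset (Fin 7)), ((n c 0 : ℚ) - μ c 0) ≤ n c (tm c) := by
        intro c _
        have h3 := u1 c (tm c)
        have h4 := hμ0 c (tm c)
        linarith
      have h3 := Finset.sum_le_sum h2
      rw [u2] at h3
      exact h3
    rw [hk]
    exact_mod_cast h1
  have hpe : p = ∑ c, ∑ t, (n c t - n c (tm c) + if c = 0 then k else 0).toNat •
      chi ℤ (K c t) := by
    funext x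
    rw [Finset.sum_apply]
    have h0 : ∀ c t, (((n c t - n c (tm c) + if c = 0 then k else 0).toNat : ℕ) : ℤ) =
        n c t - n c (tm c) + if c = 0 then k else 0 := by
      intro c t
      apply Int.toNat_of_nonneg
      have := htm c t
      split_ifs <;> omega
    by_cases hx : x ∈ M.E
    · have h1 : ∀ c ∈ (Finset.univ : Finset (Fin 7)),
          (∑ t, (n c t - n c (tm c) + if c = 0 then k else 0).toNat • chi ℤ (K c t)) x =
          (∑ t, if pdir c (f x) = t then n c t else 0) - n c (tm c) +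
            if c = 0 then k else 0 := by
        intro c _
        rw [Finset.sum_apply]
        have h2 : ∀ t ∈ (Finset.univ : Finset (ZMod 2)),
            ((n c t - n c (tm c) + if c = 0 then k else 0).toNat • chi ℤ (K c t)) x =
            (if pdir c (f x) = t then n c t else 0) +
              if pdir c (f x) = t then (- n c (tm c) + if c = 0 then k else 0) else 0 := by
          intro t _
          rw [Pi.smul_apply, nsmul_eq_mul, h0, chi_apply]
          by_cases h3 : pdir c (f x) = t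
          · simp [hK, hx, h3]
            ring
          · simp [hK, h3]
        rw [Finset.sum_congr rfl h2, Finset.sum_add_distrib,
          Finset.sum_ite_eq Finset.univ (pdir c (f x)) fun _ => (- n c (tm c) +
            if c = 0 then k else 0), if_pos (Finset.mem_univ _)]
        ring
      rw [Finset.sum_congr rfl h1, Finset.sum_add_distrib, Finset.sum_sub_distrib, ← hn x hx,
        Finset.sum_ite_eq', if_pos (Finset.mem_univ _), ← hk]
      ring
    · rw [lat_support hp hx]
      symm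
      refine Finset.sum_eq_zero fun c _ => ?_
      rw [Finset.sum_apply]
      refine Finset.sum_eq_zero fun t _ => ?_
      rw [Pi.smul_apply, chi_apply_notMem (fun h => hx h.1), smul_zero]
  rw [hpe]
  exact sum_mem fun c _ => sum_mem fun t _ => AddSubmonoid.nsmul_mem _
    (chi_mem_intCone (hKc c t)) _

end Pool.Agent.helper25.PV
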